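import Pool.Agent.H67.CF.Lb

/-!
Module Cv.  Biregular incidence structures whose small subgraphs are forests.  Use only Defs and the definitions in Lb (`Rg`).

`Fib s p := ∀ a, (univ.filter (fun e => s e = a)).card = p`.
(1) base: `E := Fin q × Fin p`, `A := Fin q`, `B := Fin p`, `s := Prod.fst`, `t := Prod.snd`; fibres of `s` have `p` elements, fibres of `t` have `q`; `Rg s t 1` is vacuous.
(2) step `Cv_step`: given finite `E, A, B`, `s, t` with fibres `p, q` and `Rg s t g`, put `E' := E × (E → ZMod 2)`, `A' := A × (E → ZMod 2)`, `B' := B × (E → ZMod 2)`,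
    `s' (e, x) := (s e, x)`, `t' (e, x) := (t e, x + Pi.single e 1)`.  (One may use `Bool` with `xor`/`Function.update x e (!x e)` instead of `ZMod 2`.)
    The fibre of `s'` over `(a, x)` is `{(e, x) | s e = a}`, of `t'` over `(b, y)` is `{(e, y - Pi.single e 1) | t e = b}`: sizes `p`, `q`.
    CLAIM `Rg s' t' (2 * g)`.  Suppose not; let `Y'` be nonempty, `|Y'| < 2 g`, `|Y'| ≥ |s'(Y')| + |t'(Y')|`, of minimal cardinality.
    (a) every element `n` of `s'(Y')` is `s'` of at least two elements of `Y'`, same for `t'`: otherwise, if `y` is the only element of `Y'` with `s' y = n`, then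
        `Y'.erase y` has `|s'(Y'.erase y)| ≤ |s'(Y')| - 1` and `|t'(Y'.erase y)| ≤ |t'(Y')|`, so it is a smaller violation, unless it is empty; but `Y' = {y}` is no
        violation (`1 < 1 + 1`).
    (b) for every `e0` in the projection `Y` of `Y'` to `E` there are at least two elements of `Y'` over `e0`.  Suppose `(e0, x0)` is the only one.  For `i : ZMod 2` put
        `Y'_i := {(e, x) ∈ Y' | e ≠ e0, x e0 = i}`.  `Y' = {(e0, x0)} ∪ Y'_0 ∪ Y'_1` (disjoint), `|Y'| = 1 + |Y'_0| + |Y'_1|`.  For `(e, x) ∈ Y'_i` both nodes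
        `(s e, x)` and `(t e, x + Pi.single e 1)` have second coordinate with value `i` at `e0` (`e ≠ e0`).  So `s'(Y'_0) ∩ s'(Y'_1) = ∅` and
        `t'(Y'_0) ∩ t'(Y'_1) = ∅`.  By (a) the node `(s e0, x0)` is the `s'`-image of another element of `Y'`, which lies in `Y'_i` with `i = x0 e0` (its second
        coordinate is `x0`; its first coordinate is not `e0` by uniqueness); and the node `(t e0, x0 + Pi.single e0 1)` is the `t'`-image of another element, in `Y'_{i+1}`.
        So both `Y'_0, Y'_1` are nonempty, `s'(Y') = s'(Y'_0) ∪ s'(Y'_1)` and `t'(Y') = t'(Y'_0) ∪ t'(Y'_1)`.  By minimality `|Y'_i| + 1 ≤ |s'(Y'_i)| + |t'(Y'_i)|` for both `i`.  Sum: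
        `|Y'| = 1 + |Y'_0| + |Y'_1| ≤ |s'(Y')| + |t'(Y')| - 1`, contradiction.
    (c) hence `2 |Y| ≤ |Y'| < 2 g`, `|Y| < g`, and `|Y| < |s(Y)| + |t(Y)|` by `Rg s t g`.
    (d) every `a ∈ s(Y)` is `s` of at least two elements of `Y`: `a = s e`, `(e, x) ∈ Y'`; by (a) there is another element `(e2, x2) ∈ Y'` with the same node `(a, x)`, so
        `x2 = x`, `e2 ≠ e`, `s e2 = a`.  Every `b ∈ t(Y)` too: `(e, x) ≠ (e2, x2)` in `Y'` with `t e = t e2 = b`, `x + single e 1 = x2 + single e2 1`; `e = e2` would give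
        `x = x2`.  So `2 |s(Y)| ≤ |Y|`, `2 |t(Y)| ≤ |Y|` (`Finset.card_nsmul_le_card` style / `Finset.mul_card_image_le_card_of_maps_to` style double
        counting: `|Y| = ∑_{a ∈ s(Y)} |fibre| ≥ 2 |s(Y)|`), so `|s(Y)| + |t(Y)| ≤ |Y|`: contradiction with (c).
(3) iterate (2) `g` times from (1): `Rg s t (2^g)`, and `g < 2^g` (`Nat.lt_two_pow_self`); `Rg` is monotone.
-/

set_option autoImplicit false
set_option linter.all false

namespace Pool.Agent.H67.CF

open Classical

noncomputable section

theorem Cv_two {X Z : Type*} (Y : Finset X) (f : X → Z)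
    (h : ∀ y ∈ Y, ∃ y2 ∈ Y, y2 ≠ y ∧ f y2 = f y) : 2 * (Y.image f).card ≤ Y.card := by
  apply Finset.mul_card_image_le_card
  intro a ha
  obtain ⟨y, hy, rfl⟩ := Finset.mem_image.1 ha
  obtain ⟨y2, hy2, hne, he⟩ := h y hy
  have h2 : ({y, y2} : Finset X) ⊆ Y.filter (fun x => f x = f y) := by
    intro z hz
    rw [Finset.mem_insert, Finset.mem_singleton] at hz
    rcases hz with rfl | rfl
    · exact Finset.mem_filter.2 ⟨hy, rfl⟩
    · exact Finset.mem_filter.2 ⟨hy2, he⟩
  have h3 := Finset.card_le_card h2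
  rw [Finset.card_pair (Ne.symm hne)] at h3
  exact h3

theorem Cv_erase {X Z W : Type*} (Y : Finset X) (f : X → Z) (k : X → W) (g : ℕ)
    (IH : ∀ V : Finset X, V.Nonempty → V.card < Y.card →
      V.card + 1 ≤ (V.image f).card + (V.image k).card)
    (hle : (Y.image f).card + (Y.image k).card ≤ Y.card) (y : X) (hy : y ∈ Y) :
    ∃ y2 ∈ Y, y2 ≠ y ∧ f y2 = f y := by
  by_contra hcon
  push Not at hcon
  have hc : (Y.erase y).card + 1 = Y.card := Finset.card_erase_add_one hy
  have hins : insert y (Y.erase y) = Y := Finset.insert_erase hy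
  have hf : (Y.image f).card = ((Y.erase y).image f).card + 1 := by
    rw [← hins, Finset.image_insert, Finset.card_insert_of_notMem, Finset.erase_insert
      (Finset.notMem_erase y Y)]
    intro hmem
    obtain ⟨z, hz, hz2⟩ := Finset.mem_image.1 hmem
    exact hcon z (Finset.mem_of_mem_erase hz) (Finset.ne_of_mem_erase hz) hz2
  have hk : ((Y.erase y).image k).card ≤ (Y.image k).card :=
    Finset.card_le_card (Finset.image_subset_image (Finset.erase_subset y Y))
  rcases (Y.erase y).eq_empty_or_nonempty with he | hne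
  · have h1 : Y.card = 1 := by rw [← hc, he]; simp
    have h2 : 1 ≤ (Y.image k).card := Finset.card_pos.2 ⟨k y, Finset.mem_image_of_mem k hy⟩
    omega
  · have := IH (Y.erase y) hne (by omega)
    omega

theorem Cv_core {E A B E' A' B' : Type*} (s : E → A) (t : E → B) (s' : E' → A') (t' : E' → B')
    (π : E' → E) (α : A' → A) (β : B' → B) (xA : A' → E → Bool) (xB : B' → E → Bool)
    (hα : ∀ y, α (s' y) = s (π y)) (hβ : ∀ y, β (t' y) = t (π y))
    (hx1 : ∀ y e0, e0 ≠ π y → xB (t' y) e0 = xA (s' y) e0)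
    (hx2 : ∀ y, xB (t' y) (π y) = !(xA (s' y) (π y)))
    (hi1 : ∀ y y2, s' y2 = s' y → π y2 = π y → y2 = y)
    (hi2 : ∀ y y2, t' y2 = t' y → π y2 = π y → y2 = y)
    (g : ℕ) (hR : Rg s t g) : Rg s' t' (2 * g) := by
  suffices H : ∀ n : ℕ, ∀ Y : Finset E', Y.card = n → Y.Nonempty → Y.card < 2 * g →
      Y.card + 1 ≤ (Y.image s').card + (Y.image t').card by
    intro Y hY hlt
    have := H _ Y rfl hY hlt
    omega
  intro n
  induction n using Nat.strong_induction_on with
  | _ n ih =>
  intro Y hn hY hlt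
  by_contra hcon
  have hle : (Y.image s').card + (Y.image t').card ≤ Y.card := by omega
  have IH : ∀ V : Finset E', V.Nonempty → V.card < Y.card →
      V.card + 1 ≤ (V.image s').card + (V.image t').card := by
    intro V hV hVc
    exact ih V.card (by omega) V rfl hV (by omega)
  have ha : ∀ y ∈ Y, ∃ y2 ∈ Y, y2 ≠ y ∧ s' y2 = s' y := fun y hy =>
    Cv_erase Y s' t' g IH hle y hy
  have hb : ∀ y ∈ Y, ∃ y2 ∈ Y, y2 ≠ y ∧ t' y2 = t' y := fun y hy =>
    Cv_erase Y t' s' g (fun V h1 h2 => by rw [add_comm (V.image t').card]; exact IH V h1 h2)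
      (by rw [add_comm]; exact hle) y hy
  have hp : ∀ y ∈ Y, ∃ y2 ∈ Y, y2 ≠ y ∧ π y2 = π y := by
    intro y0 hy0
    by_contra hcon2
    push Not at hcon2
    set F : Bool → Finset E' := fun i =>
      Y.filter (fun y => y ≠ y0 ∧ xA (s' y) (π y0) = i) with hF
    have hmem : ∀ i y, y ∈ F i ↔ y ∈ Y ∧ y ≠ y0 ∧ xA (s' y) (π y0) = i := by
      intro i y
      simp only [hF, Finset.mem_filter]
    have hsub : ∀ i, F i ⊆ Y.erase y0 := by
      intro i y hy
      have := (hmem i y).1 hy
      exact Finset.mem_erase.2 ⟨this.2.1, this.1⟩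
    have hdisj : Disjoint (F true) (F false) := by
      rw [Finset.disjoint_left]
      intro y h1 h2
      have e1 := ((hmem _ y).1 h1).2.2
      have e2 := ((hmem _ y).1 h2).2.2
      rw [e1] at e2
      exact absurd e2 (by decide)
    have hun : F true ∪ F false = Y.erase y0 := by
      apply Finset.Subset.antisymm (Finset.union_subset (hsub _) (hsub _))
      intro y hy
      have h1 := Finset.mem_erase.1 hy
      rw [Finset.mem_union, hmem, hmem]
      rcases Bool.eq_false_or_eq_true (xA (s' y) (π y0)) with h | h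
      · exact Or.inl ⟨h1.2, h1.1, h⟩
      · exact Or.inr ⟨h1.2, h1.1, h⟩
    have hcard : (F true).card + (F false).card + 1 = Y.card := by
      rw [← Finset.card_union_of_disjoint hdisj, hun]
      exact Finset.card_erase_add_one hy0
    have hxB : ∀ i y, y ∈ F i → xB (t' y) (π y0) = i := by
      intro i y hy
      have h1 := (hmem i y).1 hy
      rw [hx1 y (π y0) (fun h => hcon2 y h1.1 h1.2.1 h.symm)]
      exact h1.2.2
    have hds : Disjoint ((F true).image s') ((F false).image s') := by
      rw [Finset.disjoint_left]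
      intro a h1 h2
      obtain ⟨y1, hy1, rfl⟩ := Finset.mem_image.1 h1
      obtain ⟨y2, hy2, he⟩ := Finset.mem_image.1 h2
      have e1 := ((hmem _ y1).1 hy1).2.2
      have e2 := ((hmem _ y2).1 hy2).2.2
      rw [he, e1] at e2
      exact absurd e2 (by decide)
    have hdt : Disjoint ((F true).image t') ((F false).image t') := by
      rw [Finset.disjoint_left]
      intro a h1 h2
      obtain ⟨y1, hy1, rfl⟩ := Finset.mem_image.1 h1
      obtain ⟨y2, hy2, he⟩ := Finset.mem_image.1 h2
      have e1 := hxB _ y1 hy1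
      have e2 := hxB _ y2 hy2
      rw [he, e1] at e2
      exact absurd e2 (by decide)
    have hne1 : (F (xA (s' y0) (π y0))).Nonempty := by
      obtain ⟨y2, hy2, hne, he⟩ := ha y0 hy0
      refine ⟨y2, (hmem _ _).2 ⟨hy2, hne, ?_⟩⟩
      rw [he]
    have hne2 : (F (!(xA (s' y0) (π y0)))).Nonempty := by
      obtain ⟨y3, hy3, hne, he⟩ := hb y0 hy0
      refine ⟨y3, (hmem _ _).2 ⟨hy3, hne, ?_⟩⟩
      rw [← hx2 y0, ← he, hx1 y3 (π y0) (fun h => hcon2 y3 hy3 hne h.symm)]
    have hboth : (F true).Nonempty ∧ (F false).Nonempty := by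
      rcases Bool.eq_false_or_eq_true (xA (s' y0) (π y0)) with h | h
      · rw [h] at hne1 hne2
        exact ⟨hne1, hne2⟩
      · rw [h] at hne1 hne2
        exact ⟨hne2, hne1⟩
    have c1 : 1 ≤ (F true).card := Finset.card_pos.2 hboth.1
    have c2 : 1 ≤ (F false).card := Finset.card_pos.2 hboth.2
    have i1 := IH (F true) hboth.1 (by omega)
    have i2 := IH (F false) hboth.2 (by omega)
    have u1 : ((F true).image s').card + ((F false).image s').card ≤ (Y.image s').card := by
      rw [← Finset.card_union_of_disjoint hds, ← Finset.image_union]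
      apply Finset.card_le_card
      apply Finset.image_subset_image
      rw [hun]
      exact Finset.erase_subset _ _
    have u2 : ((F true).image t').card + ((F false).image t').card ≤ (Y.image t').card := by
      rw [← Finset.card_union_of_disjoint hdt, ← Finset.image_union]
      apply Finset.card_le_card
      apply Finset.image_subset_image
      rw [hun]
      exact Finset.erase_subset _ _
    omega
  have c1 : 2 * (Y.image π).card ≤ Y.card := Cv_two Y π hp
  have c2 : 2 * ((Y.image π).image s).card ≤ (Y.image π).card := by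
    apply Cv_two
    intro e he
    obtain ⟨y, hy, rfl⟩ := Finset.mem_image.1 he
    obtain ⟨y2, hy2, hne, h2⟩ := ha y hy
    refine ⟨π y2, Finset.mem_image_of_mem π hy2, ?_, ?_⟩
    · intro h3
      exact hne (hi1 y y2 h2 h3)
    · rw [← hα, ← hα, h2]
  have c3 : 2 * ((Y.image π).image t).card ≤ (Y.image π).card := by
    apply Cv_two
    intro e he
    obtain ⟨y, hy, rfl⟩ := Finset.mem_image.1 he
    obtain ⟨y2, hy2, hne, h2⟩ := hb y hy
    refine ⟨π y2, Finset.mem_image_of_mem π hy2, ?_, ?_⟩
    · intro h3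
      exact hne (hi2 y y2 h2 h3)
    · rw [← hβ, ← hβ, h2]
  have c4 := hR (Y.image π) (hY.image π) (by omega)
  omega

theorem Cv_fib {E A E' A' : Type*} [Fintype E] [Fintype E'] (s : E → A) (s' : E' → A')
    (a : A) (a' : A') (π : E' → E) (l : E → E') (h1 : ∀ y, s' y = a' → s (π y) = a)
    (h2 : ∀ e, s e = a → s' (l e) = a') (h3 : ∀ y, s' y = a' → l (π y) = y)
    (h4 : ∀ e, s e = a → π (l e) = e) :
    (Finset.univ.filter (fun y => s' y = a')).card =
      (Finset.univ.filter (fun e => s e = a)).card := by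
  apply Finset.card_nbij' π l
  · intro y hy
    simp only [Finset.coe_filter, Finset.mem_univ, true_and, Set.mem_setOf_eq] at hy ⊢
    exact h1 y hy
  · intro e he
    simp only [Finset.coe_filter, Finset.mem_univ, true_and, Set.mem_setOf_eq] at he ⊢
    exact h2 e he
  · intro y hy
    simp only [Finset.coe_filter, Finset.mem_univ, true_and, Set.mem_setOf_eq] at hy
    exact h3 y hy
  · intro e he
    simp only [Finset.coe_filter, Finset.mem_univ, true_and, Set.mem_setOf_eq] at he
    exact h4 e he

theorem Cv_base {X Z W : Type*} [Fintype X] [Fintype W] (f : X → Z) (a : Z) (i : X → W)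
    (j : W → X) (h1 : ∀ w, f (j w) = a) (h2 : ∀ x, f x = a → j (i x) = x)
    (h3 : ∀ w, i (j w) = w) :
    (Finset.univ.filter (fun x => f x = a)).card = Fintype.card W := by
  rw [← Finset.card_univ]
  apply Finset.card_nbij' i j
  · intro y _
    exact Finset.mem_coe.2 (Finset.mem_univ _)
  · intro e _
    simp only [Finset.coe_filter, Finset.mem_univ, true_and, Set.mem_setOf_eq]
    exact h1 e
  · intro y hy
    simp only [Finset.coe_filter, Finset.mem_univ, true_and, Set.mem_setOf_eq] at hy
    exact h2 y hy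
  · intro e _
    exact h3 e

/-- flip the value at `e` -/
def Cv_flip {E : Type*} (e : E) (x : E → Bool) : E → Bool :=
  fun e' => if e' = e then !(x e') else x e'

theorem Cv_flip_flip {E : Type*} (e : E) (x : E → Bool) : Cv_flip e (Cv_flip e x) = x := by
  funext e'
  unfold Cv_flip
  by_cases h : e' = e
  · simp [h]
  · simp [h]

theorem Cv_flip_inj {E : Type*} (e : E) (x y : E → Bool) (h : Cv_flip e x = Cv_flip e y) :
    x = y := by
  rw [← Cv_flip_flip e x, h, Cv_flip_flip]

theorem cover (p q : ℕ) (hp : 1 ≤ p) (hq : 1 ≤ q) (g : ℕ) :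
    ∃ (E A B : Type) (_ : Fintype E) (_ : Fintype A) (_ : Fintype B) (_ : Nonempty E)
      (s : E → A) (t : E → B), (∀ a, (Finset.univ.filter (fun e => s e = a)).card = p) ∧
        (∀ b, (Finset.univ.filter (fun e => t e = b)).card = q) ∧ Rg s t g := by
  suffices H : ∀ n : ℕ,
      ∃ (E A B : Type) (_ : Fintype E) (_ : Fintype A) (_ : Fintype B) (_ : Nonempty E)
      (s : E → A) (t : E → B), (∀ a, (Finset.univ.filter (fun e => s e = a)).card = p) ∧
        (∀ b, (Finset.univ.filter (fun e => t e = b)).card = q) ∧ Rg s t (2 ^ n) by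
    obtain ⟨E, A, B, i1, i2, i3, i4, s, t, h1, h2, h3⟩ := H g
    refine ⟨E, A, B, i1, i2, i3, i4, s, t, h1, h2, ?_⟩
    intro Y hY hlt
    exact h3 Y hY (lt_trans hlt Nat.lt_two_pow_self)
  intro n
  induction n with
  | zero =>
    haveI : Nonempty (Fin q × Fin p) := ⟨(⟨0, hq⟩, ⟨0, hp⟩)⟩
    refine ⟨Fin q × Fin p, Fin q, Fin p, inferInstance, inferInstance, inferInstance,
      inferInstance, Prod.fst, Prod.snd, ?_, ?_, ?_⟩
    · intro a
      rw [Cv_base (Prod.fst : Fin q × Fin p → Fin q) a Prod.snd
        (fun x => (a, x)) (fun _ => rfl) (fun y hy => by rw [← hy]) (fun _ => rfl)]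
      exact Fintype.card_fin p
    · intro b
      rw [Cv_base (Prod.snd : Fin q × Fin p → Fin p) b Prod.fst
        (fun x => (x, b)) (fun _ => rfl) (fun y hy => by rw [← hy]) (fun _ => rfl)]
      exact Fintype.card_fin q
    · intro Y hY hlt
      have := Finset.card_pos.2 hY
      rw [pow_zero] at hlt
      omega
  | succ n ih =>
    obtain ⟨E, A, B, i1, i2, i3, i4, s, t, h1, h2, h3⟩ := ih
    haveI : Nonempty (E × (E → Bool)) := ⟨(Classical.arbitrary E, fun _ => true)⟩
    refine ⟨E × (E → Bool), A × (E → Bool), B × (E → Bool), inferInstance, inferInstance,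
      inferInstance, inferInstance, fun y => (s y.1, y.2), fun y => (t y.1, Cv_flip y.1 y.2),
      ?_, ?_, ?_⟩
    · rintro ⟨a, x⟩
      rw [← h1 a]
      apply Cv_fib s (fun y : E × (E → Bool) => (s y.1, y.2)) a (a, x) Prod.fst
        (fun e => (e, x))
      · intro y hy
        exact (Prod.mk.inj hy).1
      · intro e he
        show (s e, x) = (a, x)
        rw [he]
      · intro y hy
        have := (Prod.mk.inj hy).2
        show (y.1, x) = y
        rw [← this]
      · intro e _
        rfl
    · rintro ⟨b, x⟩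
      rw [← h2 b]
      apply Cv_fib t (fun y : E × (E → Bool) => (t y.1, Cv_flip y.1 y.2)) b (b, x) Prod.fst
        (fun e => (e, Cv_flip e x))
      · intro y hy
        exact (Prod.mk.inj hy).1
      · intro e he
        show (t e, Cv_flip e (Cv_flip e x)) = (b, x)
        rw [he, Cv_flip_flip]
      · intro y hy
        have := (Prod.mk.inj hy).2
        show (y.1, Cv_flip y.1 x) = y
        rw [← this, Cv_flip_flip]
      · intro e _
        rfl
    · rw [pow_succ, mul_comm]
      apply Cv_core s t (fun y : E × (E → Bool) => (s y.1, y.2))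
        (fun y : E × (E → Bool) => (t y.1, Cv_flip y.1 y.2)) Prod.fst Prod.fst Prod.fst
        Prod.snd Prod.snd (fun _ => rfl) (fun _ => rfl)
      · intro y e0 hne
        show (if e0 = y.1 then !(y.2 e0) else y.2 e0) = y.2 e0
        rw [if_neg hne]
      · intro y
        show (if y.1 = y.1 then !(y.2 y.1) else y.2 y.1) = !(y.2 y.1)
        rw [if_pos rfl]
      · intro y y2 h h'
        exact Prod.ext h' (Prod.mk.inj h).2
      · intro y y2 h h'
        have h4 := (Prod.mk.inj h).2
        refine Prod.ext h' ?_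
        rw [h'] at h4
        exact Cv_flip_inj _ _ _ h4
      · exact h3

end

end Pool.Agent.H67.CF
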