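import Pool.Agent.H67.CF.Defs

/-!
Module Lc.  A double counting lemma (pure finite sets).

`n v := |{i | v ∈ D i}|`, `U := univ.biUnion D`; `n v ≥ 1` for `v ∈ U`.  `∑ i, |D i| = ∑_{v ∈ U} n v` and
`∑_{(i,j), i ≠ j} |D i ∩ D j| = ∑_{v ∈ U} n v (n v - 1)` (double counting: `Finset.sum_card_bipartiteAbove_eq_sum_card_bipartiteBelow`,
or write the cardinalities as sums of indicators and use `Finset.sum_comm`; `{(i,j) | i ≠ j, v ∈ D i, v ∈ D j}` is the off-diagonal of
`{i | v ∈ D i}`: `Finset.offDiag_card`).  Each term on the left is at most `1`, and is `0` unless `(D i ∩ D j).Nonempty`, so the left side is at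
most the number `P` of pairs in the statement.  Since `2 n ≤ 2 + n (n-1)` for natural `n ≥ 1`, summing over `v ∈ U`:
`2 ∑ |D i| ≤ 2 |U| + P`.
-/

set_option autoImplicit false
set_option linter.all false

namespace Pool.Agent.H67.CF

open Classical

noncomputable section

theorem pair_count {ι N : Type*} [Fintype ι] (D : ι → Finset N)
    (h : ∀ i j, i ≠ j → (D i ∩ D j).card ≤ 1) :
    2 * ∑ i, (D i).card ≤ 2 * (Finset.univ.biUnion D).card +
      ((Finset.univ : Finset (ι × ι)).filter
        (fun p => p.1 ≠ p.2 ∧ (D p.1 ∩ D p.2).Nonempty)).card := by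
  classical
  set U : Finset N := Finset.univ.biUnion D with hU
  set S : N → Finset ι := fun v => Finset.univ.filter (fun i => v ∈ D i) with hS
  have hsub : ∀ i, D i ⊆ U := fun i v hv =>
    Finset.mem_biUnion.2 ⟨i, Finset.mem_univ _, hv⟩
  have h1 : ∑ i, (D i).card = ∑ v ∈ U, (S v).card := by
    have h2 : ∀ i, (D i).card = ∑ v ∈ U, if v ∈ D i then 1 else 0 := by
      intro i
      rw [← Finset.card_filter, Finset.filter_mem_eq_inter, Finset.inter_eq_right.2 (hsub i)]
    have h3 : ∀ v, (S v).card = ∑ i, if v ∈ D i then 1 else 0 := by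
      intro v
      rw [hS]
      exact Finset.card_filter _ _
    rw [Finset.sum_congr rfl fun i _ => h2 i, Finset.sum_comm, Finset.sum_congr rfl fun v _ => h3 v]
  have h4 : ∑ v ∈ U, (S v).offDiag.card ≤ ((Finset.univ : Finset (ι × ι)).filter
      (fun p => p.1 ≠ p.2 ∧ (D p.1 ∩ D p.2).Nonempty)).card := by
    have h5 : ∀ v, (S v).offDiag.card = ∑ p : ι × ι,
        if p.1 ≠ p.2 ∧ v ∈ D p.1 ∩ D p.2 then 1 else 0 := by
      intro v
      rw [← Finset.card_filter]
      congr 1
      ext ⟨i, j⟩
      simp only [hS, Finset.mem_offDiag, Finset.mem_filter, Finset.mem_univ, true_and,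
        Finset.mem_inter]
      tauto
    rw [Finset.sum_congr rfl fun v _ => h5 v, Finset.sum_comm, Finset.card_filter]
    refine Finset.sum_le_sum ?_
    rintro ⟨i, j⟩ _
    by_cases hij : i = j
    · rw [if_neg (fun hh => hh.1 hij)]
      refine le_of_eq (Finset.sum_eq_zero fun v _ => ?_)
      rw [if_neg (fun hh => hh.1 hij)]
    · have h6 : (∑ v ∈ U, if (i, j).1 ≠ (i, j).2 ∧ v ∈ D (i, j).1 ∩ D (i, j).2 then 1 else 0) =
          (D i ∩ D j).card := by
        rw [← Finset.card_filter]
        congr 1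
        ext v
        simp only [Finset.mem_filter, Finset.mem_inter]
        constructor
        · rintro ⟨_, _, hh⟩
          exact hh
        · intro hh
          exact ⟨hsub i hh.1, hij, hh⟩
      rw [h6]
      by_cases hne : (D i ∩ D j).Nonempty
      · rw [if_pos ⟨hij, hne⟩]
        exact h i j hij
      · rw [Finset.not_nonempty_iff_eq_empty.1 hne, Finset.card_empty]
        exact Nat.zero_le _
  have h7 : ∀ v ∈ U, 2 * (S v).card ≤ 2 + (S v).offDiag.card := by
    intro v hv
    have h8 : 1 ≤ (S v).card := by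
      obtain ⟨i, _, hi⟩ := Finset.mem_biUnion.1 hv
      exact Finset.card_pos.2 ⟨i, by simp only [hS, Finset.mem_filter, Finset.mem_univ, true_and]; exact hi⟩
    rw [Finset.offDiag_card]
    obtain ⟨m, hm⟩ : ∃ m, (S v).card = m + 1 := ⟨(S v).card - 1, by omega⟩
    rw [hm]
    have h9 : (m + 1) * (m + 1) - (m + 1) = m * m + m := by
      have : (m + 1) * (m + 1) = m * m + m + (m + 1) := by ring
      omega
    rw [h9]
    nlinarith [Nat.zero_le m, sq_nonneg ((m : ℤ) - 1), Nat.le_mul_self m]
  calc 2 * ∑ i, (D i).card = ∑ v ∈ U, 2 * (S v).card := by rw [h1, Finset.mul_sum]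
    _ ≤ ∑ v ∈ U, (2 + (S v).offDiag.card) := Finset.sum_le_sum h7
    _ = 2 * U.card + ∑ v ∈ U, (S v).offDiag.card := by
        rw [Finset.sum_add_distrib, Finset.sum_const, smul_eq_mul, mul_comm]
    _ ≤ _ := Nat.add_le_add_left h4 _

end

end Pool.Agent.H67.CF
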