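import Pool.Agent.H67.CF.Defs

/-!
Module Md.  Dense graphs have large clique minors (Mader).  Only Defs is used.

`P Q X := ((X ×ˢ X).filter (fun p => Q.Adj p.1 p.2)).card` (ordered adjacent pairs inside `X`).  Induction on `r` (all `Q, X`), and for fixed `r` on `|X|`
(all `Q`).  `r = 0`: `Fin 0` is empty.  Step to `r + 1`: `2^(r+2) * |X| ≤ P Q X`.
Case 1: there are adjacent `u, v ∈ X` with `c := |{w ∈ X | Q.Adj u w ∧ Q.Adj v w}| < 2^(r+1)`.  Contract `v` into `u`: `X' := X.erase v` (contains `u`),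
  `Q'.Adj a b := a ≠ b ∧ (Q.Adj a b ∨ (a = u ∧ Q.Adj v b) ∨ (b = u ∧ Q.Adj a v))`.
  Count: let `D := X.filter (Q.Adj v)`, `u ∈ D`.  `P Q X = P Q X' + 2 |D|` (pairs `(v,w), (w,v)`, `w ∈ D`).  `P Q' X' ≥ P Q X' + 2 |D'|` with
  `D' := D.filter (fun w => w ≠ u ∧ ¬ Q.Adj u w)` (the pairs `(u,w), (w,u)`, `w ∈ D'`, are new), `|D| = |D'| + 1 + c`.  So
  `P Q' X' ≥ P Q X - 2 (1 + c) ≥ 2^(r+2) |X| - 2^(r+2) = 2^(r+2) |X'|`.  By induction `Model Q' (r+1) X'`, with branch sets `f i ⊆ X'`.
  Put `f' i := if u ∈ f i then insert v (f i) else f i`.  These are `⊆ X`, disjoint (`v ∉ X'`; `u` is in at most one `f i`).  Connected in `Q`: if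
  `u ∉ f i`, all `Q'`-edges inside `f i` are `Q`-edges.  If `u ∈ f i`: a `Q'`-edge `a ~ b` inside `f i` is a `Q`-edge or a `Q`-path through `v`
  (`u ~ v ~ b`, resp. `a ~ v ~ u`), and `v ~ u`; so every `Q'`-walk inside `f i` gives `Rch Q (f' i)`.  Joined: a `Q'`-edge between `a ∈ f i`, `b ∈ f j`
  is a `Q`-edge, or `a = u` and `v ~ b` with `v ∈ f' i`, or `b = u` and `a ~ v`, `v ∈ f' j`.
Case 2: all adjacent `u, v ∈ X` have at least `2^(r+1)` common neighbours in `X`.  `P Q X > 0` (as `X` is nonempty), so there is an adjacent pair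
  `u, v ∈ X`; `N := X.filter (Q.Adj u)` is nonempty.  For `w ∈ N` the number of `z ∈ N` adjacent to `w` is `≥ 2^(r+1)`, so
  `2^(r+1) * |N| ≤ P Q N` (`Finset.card_filter_product`/`card_sigma` style fibrewise count).  By induction (on `r`) `Model Q r N`.  Add the branch set
  `{u}` (`Fin.cons` ): `u ∉ N`, every `f i ⊆ N` is nonempty, so joined to `u`.
-/

set_option autoImplicit false
set_option linter.all false

namespace Pool.Agent.H67.CF

open Classical

noncomputable section

/-- contraction of `v` into `u` -/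
private def Md_Q {W : Type*} (Q : SimpleGraph W) (u v : W) : SimpleGraph W where
  Adj a b := a ≠ b ∧ (Q.Adj a b ∨ (a = u ∧ Q.Adj v b) ∨ (b = u ∧ Q.Adj a v))
  symm := by
    constructor
    rintro a b ⟨h1, h2⟩
    refine ⟨h1.symm, ?_⟩
    rcases h2 with h | ⟨h, h'⟩ | ⟨h, h'⟩
    · exact Or.inl h.symm
    · exact Or.inr (Or.inr ⟨h, h'.symm⟩)
    · exact Or.inr (Or.inl ⟨h, h'.symm⟩)
  loopless := ⟨fun a h => h.1 rfl⟩

private theorem Md_adj {W : Type*} (Q : SimpleGraph W) (u v a b : W) :
    (Md_Q Q u v).Adj a b ↔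
      a ≠ b ∧ (Q.Adj a b ∨ (a = u ∧ Q.Adj v b) ∨ (b = u ∧ Q.Adj a v)) := Iff.rfl

private theorem Md_sum {W : Type*} (Q : SimpleGraph W) (X : Finset W) :
    ((X ×ˢ X).filter (fun p => Q.Adj p.1 p.2)).card =
      ∑ a ∈ X, (X.filter (fun b => Q.Adj a b)).card := by
  rw [Finset.card_filter, Finset.sum_product]
  refine Finset.sum_congr rfl fun a _ => ?_
  rw [Finset.card_filter]

private theorem Md_erase {W : Type*} (Q : SimpleGraph W) (X : Finset W) (v : W) (hv : v ∈ X) :
    ((X ×ˢ X).filter (fun p => Q.Adj p.1 p.2)).card =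
      (((X.erase v) ×ˢ (X.erase v)).filter (fun p => Q.Adj p.1 p.2)).card +
        2 * ((X.erase v).filter (fun w => Q.Adj v w)).card := by
  have hX : X = insert v (X.erase v) := (Finset.insert_erase hv).symm
  set Y := X.erase v with hY
  have hvY : v ∉ Y := by rw [hY]; exact Finset.notMem_erase v X
  rw [Md_sum, Md_sum, hX, Finset.sum_insert hvY]
  have h1 : ((insert v Y).filter (fun b => Q.Adj v b)) = Y.filter (fun b => Q.Adj v b) := by
    rw [Finset.filter_insert, if_neg (Q.irrefl)]
  have h2 : ∀ a ∈ Y, ((insert v Y).filter (fun b => Q.Adj a b)).card =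
      (Y.filter (fun b => Q.Adj a b)).card + (if Q.Adj v a then 1 else 0) := by
    intro a _
    rw [Finset.filter_insert]
    by_cases h : Q.Adj a v
    · rw [if_pos h, if_pos h.symm, Finset.card_insert_of_notMem]
      intro h3
      exact hvY (Finset.mem_filter.mp h3).1
    · rw [if_neg h, if_neg (fun h' => h h'.symm), add_zero]
  rw [h1, Finset.sum_congr rfl h2, Finset.sum_add_distrib]
  have h3 : ∑ a ∈ Y, (if Q.Adj v a then 1 else 0) = (Y.filter (fun w => Q.Adj v w)).card := by
    rw [Finset.card_filter]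
  rw [h3]
  ring

private theorem Md_count {W : Type*} (Q : SimpleGraph W) (X : Finset W) (u v : W) (hu : u ∈ X)
    (hv : v ∈ X) (huv : Q.Adj u v) :
    ((X ×ˢ X).filter (fun p => Q.Adj p.1 p.2)).card ≤
      (((X.erase v) ×ˢ (X.erase v)).filter (fun p => (Md_Q Q u v).Adj p.1 p.2)).card +
        2 * (1 + (X.filter (fun w => Q.Adj u w ∧ Q.Adj v w)).card) := by
  rw [Md_erase Q X v hv]
  set Y := X.erase v with hY
  have huY : u ∈ Y := Finset.mem_erase.mpr ⟨huv.ne, hu⟩
  set D' := Y.filter (fun w => Q.Adj v w ∧ w ≠ u ∧ ¬ Q.Adj u w) with hD'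
  have h1 : (Y.filter (fun w => Q.Adj v w)).card ≤
      D'.card + (1 + (X.filter (fun w => Q.Adj u w ∧ Q.Adj v w)).card) := by
    have hsub : Y.filter (fun w => Q.Adj v w) ⊆
        D' ∪ ({u} ∪ X.filter (fun w => Q.Adj u w ∧ Q.Adj v w)) := by
      intro w hw
      rw [Finset.mem_filter] at hw
      rw [Finset.mem_union, Finset.mem_union, Finset.mem_singleton, hD', Finset.mem_filter,
        Finset.mem_filter]
      by_cases h2 : w = u
      · exact Or.inr (Or.inl h2)
      · by_cases h3 : Q.Adj u w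
        · exact Or.inr (Or.inr ⟨Finset.mem_of_mem_erase hw.1, h3, hw.2⟩)
        · exact Or.inl ⟨hw.1, hw.2, h2, h3⟩
    refine (Finset.card_le_card hsub).trans ((Finset.card_union_le _ _).trans ?_)
    have := Finset.card_union_le ({u} : Finset W) (X.filter (fun w => Q.Adj u w ∧ Q.Adj v w))
    rw [Finset.card_singleton] at this
    omega
  have h2 : ((Y ×ˢ Y).filter (fun p => Q.Adj p.1 p.2)).card + 2 * D'.card ≤
      ((Y ×ˢ Y).filter (fun p => (Md_Q Q u v).Adj p.1 p.2)).card := by
    have hd1 : Disjoint ((Y ×ˢ Y).filter (fun p => Q.Adj p.1 p.2))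
        (({u} : Finset W) ×ˢ D' ∪ D' ×ˢ ({u} : Finset W)) := by
      rw [Finset.disjoint_left]
      rintro ⟨a, b⟩ h3 h4
      rw [Finset.mem_filter] at h3
      rw [Finset.mem_union, Finset.mem_product, Finset.mem_product] at h4
      rcases h4 with ⟨h4, h5⟩ | ⟨h5, h4⟩
      · rw [Finset.mem_singleton] at h4
        rw [hD', Finset.mem_filter] at h5
        simp only at h4 h5
        subst h4
        exact h5.2.2.2 h3.2
      · rw [Finset.mem_singleton] at h4
        rw [hD', Finset.mem_filter] at h5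
        simp only at h4 h5
        subst h4
        exact h5.2.2.2 h3.2.symm
    have hd2 : Disjoint (({u} : Finset W) ×ˢ D') (D' ×ˢ ({u} : Finset W)) := by
      rw [Finset.disjoint_left]
      rintro ⟨a, b⟩ h3 h4
      rw [Finset.mem_product] at h3 h4
      have h5 := Finset.mem_singleton.mp h3.1
      have h6 := h4.1
      rw [hD', Finset.mem_filter] at h6
      exact h6.2.2.1 h5
    have hc : (((Y ×ˢ Y).filter (fun p => Q.Adj p.1 p.2)) ∪
        (({u} : Finset W) ×ˢ D' ∪ D' ×ˢ ({u} : Finset W))).card =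
        ((Y ×ˢ Y).filter (fun p => Q.Adj p.1 p.2)).card + 2 * D'.card := by
      rw [Finset.card_union_of_disjoint hd1, Finset.card_union_of_disjoint hd2,
        Finset.card_product, Finset.card_product, Finset.card_singleton]
      ring
    rw [← hc]
    apply Finset.card_le_card
    rintro ⟨a, b⟩ h3
    rw [Finset.mem_union, Finset.mem_union, Finset.mem_filter, Finset.mem_product,
      Finset.mem_product, Finset.mem_product] at h3
    rw [Finset.mem_filter, Finset.mem_product]
    simp only [Finset.mem_singleton] at h3 ⊢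
    rcases h3 with ⟨h3, h4⟩ | ⟨h3, h4⟩ | ⟨h4, h3⟩
    · exact ⟨h3, h4.ne, Or.inl h4⟩
    · rw [hD', Finset.mem_filter] at h4
      subst h3
      exact ⟨⟨huY, h4.1⟩, h4.2.2.1.symm, Or.inr (Or.inl ⟨rfl, h4.2.1⟩)⟩
    · rw [hD', Finset.mem_filter] at h4
      subst h3
      exact ⟨⟨h4.1, huY⟩, h4.2.2.1, Or.inr (Or.inr ⟨rfl, h4.2.1.symm⟩)⟩
  omega

private theorem Md_lift {W : Type*} (Q : SimpleGraph W) (X : Finset W) (u v : W) (hu : u ∈ X)
    (hv : v ∈ X) (huv : Q.Adj u v) (r : ℕ)
    (h : Model (Md_Q Q u v) r ((X.erase v : Finset W) : Set W)) : Model Q r (X : Set W) := by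
  obtain ⟨f, hf1, hf2, hf3⟩ := h
  have hvf : ∀ i, v ∉ f i := by
    intro i hi
    have h1 := (hf1 i).1 hi
    rw [Finset.mem_coe] at h1
    exact Finset.notMem_erase v X h1
  have hfX : ∀ i, f i ⊆ (X : Set W) := fun i x hx => by
    have h1 := (hf1 i).1 hx
    rw [Finset.mem_coe] at h1 ⊢
    exact Finset.mem_of_mem_erase h1
  have hsub : ∀ i, f i ⊆ (if u ∈ f i then insert v (f i) else f i) := by
    intro i x hx
    split_ifs
    · exact Or.inr hx
    · exact hx
  have hvm : ∀ i, u ∈ f i → v ∈ (if u ∈ f i then insert v (f i) else f i) := by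
    intro i hi
    rw [if_pos hi]
    exact Or.inl rfl
  refine ⟨fun i => if u ∈ f i then insert v (f i) else f i, fun i => ⟨?_, ?_, ?_⟩, ?_, ?_⟩
  · show (if u ∈ f i then insert v (f i) else f i) ⊆ (X : Set W)
    split_ifs
    · rintro x (hx | hx)
      · rw [hx]; exact hv
      · exact hfX i hx
    · exact hfX i
  · obtain ⟨x, hx⟩ := (hf1 i).2.1
    exact ⟨x, hsub i hx⟩
  · show PConn Q (if u ∈ f i then insert v (f i) else f i)
    by_cases hi : u ∈ f i
    · rw [if_pos hi]
      have hw : ∀ a b, Rch (Md_Q Q u v) (f i) a b → Rch Q (insert v (f i)) a b := by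
        intro a b hab
        refine rch_induct (P := fun y => Rch Q (insert v (f i)) a y) hab rch_refl ?_
        intro x y hx _ hxy hy
        rw [Md_adj] at hxy
        rcases hxy.2 with h1 | ⟨h1, h2⟩ | ⟨h1, h2⟩
        · exact rch_tail hx h1 (Or.inr hy)
        · subst h1
          exact rch_tail (rch_tail hx huv (Or.inl rfl)) h2 (Or.inr hy)
        · subst h1
          exact rch_tail (rch_tail hx h2 (Or.inl rfl)) huv.symm (Or.inr hy)
      have h1 : ∀ a ∈ insert v (f i), Rch Q (insert v (f i)) a u := by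
        rintro a (ha | ha)
        · rw [ha]; exact rch_adj huv.symm (Or.inr hi)
        · exact hw _ _ ((hf1 i).2.2 a ha u hi)
      have h2 : ∀ a ∈ insert v (f i), Rch Q (insert v (f i)) u a := by
        rintro a (ha | ha)
        · rw [ha]; exact rch_adj huv (Or.inl rfl)
        · exact hw _ _ ((hf1 i).2.2 u hi a ha)
      intro a ha b hb
      exact rch_trans (h1 a ha) (h2 b hb)
    · rw [if_neg hi]
      intro a ha b hb
      refine rch_induct (P := fun y => Rch Q (f i) a y) ((hf1 i).2.2 a ha b hb) rch_refl ?_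
      intro x y hx hx2 hxy hy
      have hxf : x ∈ f i := rch_mem' ha hx2
      rw [Md_adj] at hxy
      rcases hxy.2 with h1 | ⟨h1, h2⟩ | ⟨h1, h2⟩
      · exact rch_tail hx h1 hy
      · subst h1
        exact absurd hxf hi
      · subst h1
        exact absurd hy hi
  · intro i j hij
    have hd := hf2 i j hij
    rw [Set.disjoint_left] at hd ⊢
    intro x hx hx'
    have hx1 : x ∈ (if u ∈ f i then insert v (f i) else f i) := hx
    have hx2 : x ∈ (if u ∈ f j then insert v (f j) else f j) := hx'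
    by_cases hi : u ∈ f i
    · have hj : u ∉ f j := hd hi
      rw [if_pos hi] at hx1
      rw [if_neg hj] at hx2
      rcases hx1 with h1 | h1
      · subst h1
        exact hvf j hx2
      · exact hd h1 hx2
    · rw [if_neg hi] at hx1
      split_ifs at hx2
      · rcases hx2 with h1 | h1
        · subst h1
          exact hvf i hx1
        · exact hd hx1 h1
      · exact hd hx1 hx2
  · intro i j hij
    obtain ⟨x, hx, y, hy, hxy⟩ := hf3 i j hij
    rw [Md_adj] at hxy
    rcases hxy.2 with h1 | ⟨h1, h2⟩ | ⟨h1, h2⟩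
    · exact ⟨x, hsub i hx, y, hsub j hy, h1⟩
    · subst h1
      exact ⟨v, hvm i hx, y, hsub j hy, h2⟩
    · subst h1
      exact ⟨x, hsub i hx, v, hvm j hy, h2⟩

private theorem Md_cons {W : Type*} (Q : SimpleGraph W) (X : Finset W) (u : W) (hu : u ∈ X)
    (r : ℕ) (h : Model Q r ((X.filter (fun w => Q.Adj u w) : Finset W) : Set W)) :
    Model Q (r + 1) (X : Set W) := by
  obtain ⟨f, hf1, hf2, hf3⟩ := h
  have hN : ∀ i, ∀ x ∈ f i, x ∈ X ∧ Q.Adj u x := by
    intro i x hx
    have h1 := (hf1 i).1 hx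
    rw [Finset.mem_coe, Finset.mem_filter] at h1
    exact h1
  have hu' : ∀ i, u ∉ f i := fun i hi => Q.irrefl (hN i u hi).2
  refine ⟨Fin.cons {u} f, ?_, ?_, ?_⟩
  · intro i
    refine Fin.cases ?_ (fun i => ?_) i
    · rw [Fin.cons_zero]
      refine ⟨?_, ⟨u, rfl⟩, ?_⟩
      · intro x hx
        rw [Set.mem_singleton_iff] at hx
        rw [hx]; exact hu
      · intro a ha b hb
        rw [Set.mem_singleton_iff] at ha hb
        rw [ha, hb]
        exact rch_refl
    · rw [Fin.cons_succ]
      exact ⟨fun x hx => (hN i x hx).1, (hf1 i).2.1, (hf1 i).2.2⟩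
  · intro i j
    refine Fin.cases ?_ (fun i => ?_) i <;> refine Fin.cases ?_ (fun j => ?_) j
    · intro h; exact absurd rfl h
    · intro _
      rw [Fin.cons_zero, Fin.cons_succ, Set.disjoint_singleton_left]
      exact hu' j
    · intro _
      rw [Fin.cons_zero, Fin.cons_succ, Set.disjoint_singleton_right]
      exact hu' i
    · intro h
      rw [Fin.cons_succ, Fin.cons_succ]
      exact hf2 i j (fun h' => h (by rw [h']))
  · intro i j
    refine Fin.cases ?_ (fun i => ?_) i <;> refine Fin.cases ?_ (fun j => ?_) j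
    · intro h; exact absurd rfl h
    · intro _
      rw [Fin.cons_zero, Fin.cons_succ]
      obtain ⟨x, hx⟩ := (hf1 j).2.1
      exact ⟨u, rfl, x, hx, (hN j x hx).2⟩
    · intro _
      rw [Fin.cons_zero, Fin.cons_succ]
      obtain ⟨x, hx⟩ := (hf1 i).2.1
      exact ⟨x, hx, u, rfl, (hN i x hx).2.symm⟩
    · intro h
      rw [Fin.cons_succ, Fin.cons_succ]
      exact hf3 i j (fun h' => h (by rw [h']))

theorem mader {W : Type*} (r : ℕ) (Q : SimpleGraph W) (X : Finset W) (hX : X.Nonempty)
    (h : 2 ^ (r + 1) * X.card ≤ ((X ×ˢ X).filter (fun p => Q.Adj p.1 p.2)).card) :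
    Model Q r (X : Set W) := by
  induction r generalizing Q X with
  | zero =>
    exact ⟨fun i => i.elim0, fun i => i.elim0, fun i => i.elim0, fun i => i.elim0⟩
  | succ r ihr =>
    have key : ∀ n, ∀ (Q : SimpleGraph W) (X : Finset W), X.card = n → X.Nonempty →
        2 ^ (r + 1 + 1) * X.card ≤ ((X ×ˢ X).filter (fun p => Q.Adj p.1 p.2)).card →
        Model Q (r + 1) (X : Set W) := by
      intro n
      induction n with
      | zero =>
        intro Q X hX0 hX _
        rw [Finset.card_eq_zero] at hX0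
        exact absurd hX (by rw [hX0]; exact Finset.not_nonempty_empty)
      | succ n ihn =>
        intro Q X hXn hX h
        by_cases hc : ∃ u ∈ X, ∃ v ∈ X, Q.Adj u v ∧
            (X.filter (fun w => Q.Adj u w ∧ Q.Adj v w)).card < 2 ^ (r + 1)
        · obtain ⟨u, hu, v, hv, huv, hlt⟩ := hc
          have h1 := Md_count Q X u v hu hv huv
          have h2 : (X.erase v).card = n := by
            rw [Finset.card_erase_of_mem hv, hXn]
            rfl
          apply Md_lift Q X u v hu hv huv
          refine ihn _ _ h2 ⟨u, Finset.mem_erase.mpr ⟨huv.ne, hu⟩⟩ ?_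
          rw [h2]
          rw [hXn] at h
          have h3 : 2 ^ (r + 1 + 1) * (n + 1) = 2 ^ (r + 1 + 1) * n + 2 * 2 ^ (r + 1) := by
            ring
          omega
        · push Not at hc
          have hpos : 0 < ((X ×ˢ X).filter (fun p => Q.Adj p.1 p.2)).card := by
            refine lt_of_lt_of_le ?_ h
            exact Nat.mul_pos (by positivity) hX.card_pos
          obtain ⟨⟨u, v⟩, huv⟩ := Finset.card_pos.mp hpos
          rw [Finset.mem_filter, Finset.mem_product] at huv
          obtain ⟨⟨hu, hv⟩, huv⟩ := huv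
          simp only at hu hv huv
          apply Md_cons Q X u hu
          apply ihr Q _ ⟨v, Finset.mem_filter.mpr ⟨hv, huv⟩⟩
          rw [Md_sum]
          rw [mul_comm, ← smul_eq_mul]
          apply Finset.card_nsmul_le_sum
          intro w hw
          rw [Finset.mem_filter] at hw
          refine (hc u hu w hw.1 hw.2).trans (le_of_eq ?_)
          congr 1
          ext z
          simp only [Finset.mem_filter]
          tauto
    exact key _ Q X rfl hX h

end

end Pool.Agent.H67.CF
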