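import Pool.Agent.H67.CF.Defs

/-!
Module Pa.  Packing connected pieces of bounded size.  Only Defs is used.

(1) `sub_piece`: a connected `Z` with `m ≤ |Z|`, `1 ≤ m`, contains a connected `Z' ⊆ Z` with `|Z'| = m`.  Among the connected nonempty `U ⊆ Z` with `|U| ≤ m`
    (a singleton) take one of maximal cardinality; if `|U| < m ≤ |Z|` there are `a ∈ U`, `b ∈ Z \ U` adjacent (`Z` is connected: otherwise `U` would be preserved
    along a walk in `Z` from a vertex of `U` to a vertex of `Z \ U`, `rch_induct`), and `insert b U` is connected: contradiction.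
(2) Consider the finsets `𝒫` of finsets (`𝒫 : Finset (Finset V)`) whose members are connected subsets of `Y` of size exactly `m`, pairwise disjoint; take one of
    maximal cardinality (`∅` is one; all are subsets of `Y.powerset`).  `U := 𝒫.sup id` (union).  By (1) and maximality every connected `Z ⊆ Y \ U` has `|Z| < m`
    (if `m ≤ |Z|` take `Z' ⊆ Z` of size `m`: it is disjoint from all members, so can be added; `m ≥ 1` so it is a new member).
(3) For `y ∈ Y \ U` let `κ y := (Y \ U).filter (· ∈ Cls G (Y \ U) y)` (its class); `κ y` is connected, so `|κ y| < m`.  Call the class touched if some element of it is adjacent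
    to an element of `U`.  For a touched class `κ` (as a finset) choose a member `τ κ ∈ 𝒫` which contains a neighbour of an element of `κ` (choice depending only on
    the finset `κ`).  For `P ∈ 𝒫` put `Q P := P ∪ (elements y ∈ Y \ U whose class is touched with τ (κ y) = P)`.
    - `Q P ⊆ Y`, `m ≤ |P| ≤ |Q P|`, and `Q P` is connected: `P` is, and each attached class is connected and adjacent to `P`.
    - size: every attached class contains a neighbour of an element of `P`; so `Q P ⊆ P ∪ ((P.biUnion (nb G)) ∩ (Y \ U)).biUnion κ`, of size at most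
      `m + (m * d) * m ≤ (d + 1) * m^2`.
    - the `Q P` are pairwise disjoint (members of `𝒫` are disjoint; `τ (κ y)` is determined by `y`).
    - let `x ∈ Q P`, `y ∈ Y`, `x ~ y`.  If `y ∈ U`, `y` is in a member.  If `y ∈ Y \ U`: if `x ∈ U` then the class of `y` is touched; if `x ∉ U` then `x` is in a touched
      class and `y` is in the same class.  So `y ∈ Q (τ (κ y))`.
    - a connected `Z ⊆ Y` disjoint from all `Q P` is disjoint from `U`, so `Z ⊆ Y \ U` and `|Z| < m` by (2).
(4) index the members of `𝒫` by `Fin n`, `n := 𝒫.card` (`𝒫.equivFin`).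
-/

set_option autoImplicit false
set_option linter.all false

namespace Pool.Agent.H67.CF

open Classical

noncomputable section

variable {V : Type*} {G : SimpleGraph V}

theorem Pa_insert {U : Set V} (hU : PConn G U) {a b : V} (ha : a ∈ U) (hab : G.Adj a b) :
    PConn G (insert b U) := by
  have h1 : ∀ x ∈ insert b U, Rch G (insert b U) a x := by
    intro x hx
    rcases hx with rfl | hx
    · exact rch_adj hab (Set.mem_insert _ _)
    · exact rch_mono (Set.subset_insert _ _) (hU a ha x hx)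
  intro x hx y hy
  exact rch_trans (rch_symm (Set.mem_insert_of_mem _ ha) (h1 x hx)) (h1 y hy)

theorem Pa_sub (Z : Finset V) (hZ : PConn G (Z : Set V)) (m : ℕ) (hm : 1 ≤ m)
    (hmZ : m ≤ Z.card) : ∃ Z' ⊆ Z, Z'.card = m ∧ PConn G (Z' : Set V) := by
  induction m, hm using Nat.le_induction with
  | base =>
    obtain ⟨z, hz⟩ := Finset.card_pos.1 (by omega : 0 < Z.card)
    refine ⟨{z}, by simpa using hz, by simp, ?_⟩
    intro a ha b hb
    simp only [Finset.coe_singleton, Set.mem_singleton_iff] at ha hb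
    rw [ha, hb]
    exact rch_refl
  | succ m hm ih =>
    obtain ⟨Z', hZ', hc, hp⟩ := ih (by omega)
    obtain ⟨a0, ha0⟩ := Finset.card_pos.1 (by omega : 0 < Z'.card)
    have hlt : Z'.card < Z.card := by omega
    obtain ⟨b0, hb0, hb0'⟩ := Finset.exists_mem_notMem_of_card_lt_card hlt
    have hr := hZ a0 (by exact_mod_cast hZ' ha0) b0 (by exact_mod_cast hb0)
    have hex : ∃ a ∈ Z', ∃ b ∈ Z, b ∉ Z' ∧ G.Adj a b := by
      by_contra hcon
      push Not at hcon
      apply hb0'
      refine rch_induct (P := fun x => x ∈ Z') hr ha0 ?_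
      intro x y hx _ hxy hy
      by_contra hy'
      exact hcon x hx y (by exact_mod_cast hy) hy' hxy
    obtain ⟨a, ha, b, hb, hb', hab⟩ := hex
    refine ⟨insert b Z', ?_, ?_, ?_⟩
    · intro z hz
      rcases Finset.mem_insert.1 hz with rfl | hz
      · exact hb
      · exact hZ' hz
    · rw [Finset.card_insert_of_notMem hb', hc]
    · rw [Finset.coe_insert]
      exact Pa_insert hp (by exact_mod_cast ha) hab

theorem Pa_max [Fintype V] (Y : Finset V) {m : ℕ} (hm : 1 ≤ m) :
    ∃ P : Finset (Finset V), (∀ p ∈ P, p ⊆ Y ∧ p.card = m ∧ PConn G (p : Set V)) ∧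
      (∀ p ∈ P, ∀ q ∈ P, p ≠ q → Disjoint p q) ∧
      (∀ Z : Finset V, Z ⊆ Y → (∀ p ∈ P, Disjoint Z p) → PConn G (Z : Set V) → Z.card < m) := by
  set fam : Finset (Finset (Finset V)) := Finset.univ.filter fun P =>
    (∀ p ∈ P, p ⊆ Y ∧ p.card = m ∧ PConn G (p : Set V)) ∧
      (∀ p ∈ P, ∀ q ∈ P, p ≠ q → Disjoint p q) with hfam
  have hne : fam.Nonempty := ⟨∅, by simp [hfam]⟩
  obtain ⟨P, hP, hmax⟩ := Finset.exists_max_image fam Finset.card hne
  have hP' := (Finset.mem_filter.1 hP).2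
  refine ⟨P, hP'.1, hP'.2, ?_⟩
  intro Z hZY hZP hZc
  by_contra hcon
  obtain ⟨Z', hZ', hc, hp⟩ := Pa_sub Z hZc m hm (not_lt.1 hcon)
  have hdis : ∀ p ∈ P, Disjoint Z' p := fun p hp' =>
    Disjoint.mono_left hZ' (hZP p hp')
  have hnot : Z' ∉ P := by
    intro h
    have h1 := hdis Z' h
    rw [disjoint_self] at h1
    rw [h1] at hc
    simp at hc
    omega
  have hin : insert Z' P ∈ fam := by
    rw [hfam, Finset.mem_filter]
    refine ⟨Finset.mem_univ _, ?_, ?_⟩
    · intro p hp'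
      rcases Finset.mem_insert.1 hp' with rfl | hp'
      · exact ⟨hZ'.trans hZY, hc, hp⟩
      · exact hP'.1 p hp'
    · intro p hp' q hq' hpq
      rcases Finset.mem_insert.1 hp' with h1 | h1
      · rcases Finset.mem_insert.1 hq' with h2 | h2
        · exact absurd (h1.trans h2.symm) hpq
        · rw [h1]
          exact hdis q h2
      · rcases Finset.mem_insert.1 hq' with h2 | h2
        · rw [h2]
          exact (hdis p h1).symm
        · exact hP'.2 p h1 q h2 hpq
  have h1 := hmax _ hin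
  rw [Finset.card_insert_of_notMem hnot] at h1
  omega

theorem part [Fintype V] {d : ℕ} (hdeg : ∀ v, (nb G v).card ≤ d) (Y : Finset V) {m : ℕ}
    (hm : 1 ≤ m) :
    ∃ (n : ℕ) (Q : Fin n → Finset V),
      (∀ i, Q i ⊆ Y ∧ m ≤ (Q i).card ∧ (Q i).card ≤ (d + 1) * m ^ 2 ∧
        PConn G (Q i : Set V)) ∧
      (∀ i j, i ≠ j → Disjoint (Q i) (Q j)) ∧
      (∀ i, ∀ x ∈ Q i, ∀ y ∈ Y, G.Adj x y → ∃ j, y ∈ Q j) ∧
      (∀ Z : Finset V, Z ⊆ Y → (∀ i, Disjoint Z (Q i)) → PConn G (Z : Set V) → Z.card < m) := by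
  obtain ⟨P, hP1, hP2, hP3⟩ := Pa_max (G := G) Y hm
  set U : Finset V := P.biUnion id with hU
  have hUmem : ∀ x, x ∈ U ↔ ∃ p ∈ P, x ∈ p := by intro x; simp [hU]
  set X : Finset V := Y \ U with hX
  have hXmem : ∀ x, x ∈ X ↔ x ∈ Y ∧ x ∉ U := by intro x; simp [hX]
  set K : V → Finset V := fun y => X.filter fun z => z ∈ Cls G (X : Set V) y with hK
  have hKmem : ∀ y z, z ∈ K y ↔ z ∈ X ∧ Rch G (X : Set V) y z := by
    intro y z
    simp [hK, Cls]
  have hKcoe : ∀ y, (K y : Set V) = Cls G (X : Set V) y := by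
    intro y
    ext z
    rw [Finset.mem_coe, hKmem]
    rfl
  have hKself : ∀ y ∈ X, y ∈ K y := fun y hy => (hKmem y y).2 ⟨hy, rch_refl⟩
  have hKeq : ∀ y ∈ X, ∀ z ∈ K y, K z = K y := by
    intro y hy z hz
    have h1 : z ∈ Cls G (X : Set V) y := by rw [← hKcoe]; exact_mod_cast hz
    have h2 := cls_eq (by exact_mod_cast hy) h1
    apply Finset.coe_injective
    rw [hKcoe, hKcoe, h2]
  have hKconn : ∀ y ∈ X, PConn G (K y : Set V) := by
    intro y hy
    rw [hKcoe]
    exact cls_pconn (by exact_mod_cast hy)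
  have hKsub : ∀ y, K y ⊆ X := fun y z hz => ((hKmem y z).1 hz).1
  have hXU : ∀ Z : Finset V, Z ⊆ X → PConn G (Z : Set V) → Z.card < m := by
    intro Z hZ hZc
    refine hP3 Z (fun z hz => ((hXmem z).1 (hZ hz)).1) ?_ hZc
    intro p hp
    rw [Finset.disjoint_left]
    intro z hz hzp
    exact ((hXmem z).1 (hZ hz)).2 ((hUmem z).2 ⟨p, hp, hzp⟩)
  have hKcard : ∀ y ∈ X, (K y).card < m := fun y hy => hXU _ (hKsub y) (hKconn y hy)
  -- touched classes
  have hτ : ∃ τ : Finset V → Finset V, ∀ k, (∃ p ∈ P, ∃ w ∈ k, ∃ u ∈ p, G.Adj w u) →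
      (τ k ∈ P ∧ ∃ w ∈ k, ∃ u ∈ τ k, G.Adj w u) := by
    refine ⟨fun k => if h : ∃ p ∈ P, ∃ w ∈ k, ∃ u ∈ p, G.Adj w u then Classical.choose h else ∅,
      fun k hk => ?_⟩
    simp only [dif_pos hk]
    exact Classical.choose_spec hk
  obtain ⟨τ, hτ⟩ := hτ
  set tch : Finset V → Prop := fun k => ∃ p ∈ P, ∃ w ∈ k, ∃ u ∈ p, G.Adj w u with htch
  set Q : Finset V → Finset V := fun p => p ∪ X.filter fun y => tch (K y) ∧ τ (K y) = p with hQ
  have hQmem : ∀ p x, x ∈ Q p ↔ x ∈ p ∨ (x ∈ X ∧ tch (K x) ∧ τ (K x) = p) := by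
    intro p x
    simp [hQ]
  have hQsub : ∀ p ∈ P, Q p ⊆ Y := by
    intro p hp x hx
    rcases (hQmem p x).1 hx with h | h
    · exact (hP1 p hp).1 h
    · exact ((hXmem x).1 h.1).1
  have hQconn : ∀ p ∈ P, PConn G (Q p : Set V) := by
    intro p hp
    obtain ⟨-, hpc, hpp⟩ := hP1 p hp
    obtain ⟨p0, hp0⟩ := Finset.card_pos.1 (by omega : 0 < p.card)
    have hp0Q : p0 ∈ (Q p : Set V) := by
      rw [Finset.mem_coe, hQmem]; exact Or.inl hp0
    have hpQ : (p : Set V) ⊆ (Q p : Set V) := by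
      intro z hz
      rw [Finset.mem_coe, hQmem]; exact Or.inl (by exact_mod_cast hz)
    have hall : ∀ z ∈ (Q p : Set V), Rch G (Q p : Set V) p0 z := by
      intro z hz
      rw [Finset.mem_coe, hQmem] at hz
      rcases hz with hz | ⟨hzX, hzt, hzp⟩
      · exact rch_mono hpQ (hpp p0 (by exact_mod_cast hp0) z (by exact_mod_cast hz))
      · obtain ⟨h1, w, hw, u, hu, hwu⟩ := hτ (K z) hzt
        rw [hzp] at hu
        have hKQ : (K z : Set V) ⊆ (Q p : Set V) := by
          intro z' hz'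
          have hz'' : z' ∈ K z := by exact_mod_cast hz'
          rw [Finset.mem_coe, hQmem]
          refine Or.inr ⟨hKsub z hz'', ?_⟩
          rw [hKeq z hzX z' hz'']
          exact ⟨hzt, hzp⟩
        have h2 : Rch G (Q p : Set V) p0 u :=
          rch_mono hpQ (hpp p0 (by exact_mod_cast hp0) u (by exact_mod_cast hu))
        have h3 : Rch G (Q p : Set V) u w := rch_adj hwu.symm (hKQ (by exact_mod_cast hw))
        have h4 : Rch G (Q p : Set V) w z :=
          rch_mono hKQ (hKconn z hzX w (by exact_mod_cast hw) z (by exact_mod_cast hKself z hzX))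
        exact rch_trans (rch_trans h2 h3) h4
    intro x hx y hy
    exact rch_trans (rch_symm hp0Q (hall x hx)) (hall y hy)
  have hQcard : ∀ p ∈ P, (Q p).card ≤ (d + 1) * m ^ 2 := by
    intro p hp
    obtain ⟨-, hpc, -⟩ := hP1 p hp
    have hsub : Q p ⊆ p ∪ ((p.biUnion (nb G)) ∩ X).biUnion K := by
      intro z hz
      rw [Finset.mem_union]
      rcases (hQmem p z).1 hz with hz | ⟨hzX, hzt, hzp⟩
      · exact Or.inl hz
      · right
        obtain ⟨h1, w, hw, u, hu, hwu⟩ := hτ (K z) hzt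
        rw [hzp] at hu
        rw [Finset.mem_biUnion]
        refine ⟨w, ?_, ?_⟩
        · rw [Finset.mem_inter, Finset.mem_biUnion]
          exact ⟨⟨u, hu, mem_nb.2 hwu.symm⟩, hKsub z hw⟩
        · rw [hKeq z hzX w hw]
          exact hKself z hzX
    calc (Q p).card ≤ (p ∪ ((p.biUnion (nb G)) ∩ X).biUnion K).card := Finset.card_le_card hsub
      _ ≤ p.card + (((p.biUnion (nb G)) ∩ X).biUnion K).card := Finset.card_union_le _ _
      _ ≤ m + (m * d) * m := by
        refine Nat.add_le_add hpc.le ?_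
        refine (Finset.card_biUnion_le_card_mul _ _ m fun w hw => ?_).trans ?_
        · exact (hKcard w (Finset.mem_inter.1 hw).2).le
        · refine Nat.mul_le_mul_right m ?_
          refine (Finset.card_le_card Finset.inter_subset_left).trans ?_
          rw [← hpc]
          exact Finset.card_biUnion_le_card_mul _ _ _ fun w _ => hdeg w
      _ ≤ (d + 1) * m ^ 2 := by nlinarith
  have hQdis : ∀ p ∈ P, ∀ q ∈ P, p ≠ q → Disjoint (Q p) (Q q) := by
    intro p hp q hq hpq
    rw [Finset.disjoint_left]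
    intro z hz hz'
    rcases (hQmem p z).1 hz with h1 | h1
    · rcases (hQmem q z).1 hz' with h2 | h2
      · exact Finset.disjoint_left.1 (hP2 p hp q hq hpq) h1 h2
      · exact ((hXmem z).1 h2.1).2 ((hUmem z).2 ⟨p, hp, h1⟩)
    · rcases (hQmem q z).1 hz' with h2 | h2
      · exact ((hXmem z).1 h1.1).2 ((hUmem z).2 ⟨q, hq, h2⟩)
      · exact hpq (h1.2.2.symm.trans h2.2.2)
  have hQnb : ∀ p ∈ P, ∀ x ∈ Q p, ∀ y ∈ Y, G.Adj x y → ∃ q ∈ P, y ∈ Q q := by
    intro p hp x hx y hy hxy
    by_cases hyU : y ∈ U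
    · obtain ⟨q, hq, hyq⟩ := (hUmem y).1 hyU
      exact ⟨q, hq, (hQmem q y).2 (Or.inl hyq)⟩
    · have hyX : y ∈ X := (hXmem y).2 ⟨hy, hyU⟩
      have ht : tch (K y) := by
        rcases (hQmem p x).1 hx with h1 | h1
        · exact ⟨p, hp, y, hKself y hyX, x, h1, hxy.symm⟩
        · have h2 : y ∈ K x := (hKmem x y).2 ⟨hyX, rch_adj hxy (by exact_mod_cast hyX)⟩
          rw [hKeq x h1.1 y h2]
          exact h1.2.1
      have h3 := hτ (K y) ht
      exact ⟨τ (K y), h3.1, (hQmem _ y).2 (Or.inr ⟨hyX, ht, rfl⟩)⟩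
  have hQZ : ∀ Z : Finset V, Z ⊆ Y → (∀ p ∈ P, Disjoint Z (Q p)) → PConn G (Z : Set V) →
      Z.card < m := by
    intro Z hZ hd hZc
    refine hP3 Z hZ ?_ hZc
    intro p hp
    refine Disjoint.mono_right ?_ (hd p hp)
    intro z hz
    exact (hQmem p z).2 (Or.inl hz)
  refine ⟨P.card, fun i => Q (P.equivFin.symm i), ?_, ?_, ?_, ?_⟩
  · intro i
    have hp := (P.equivFin.symm i).2
    refine ⟨hQsub _ hp, ?_, hQcard _ hp, hQconn _ hp⟩
    rw [← (hP1 _ hp).2.1]
    refine Finset.card_le_card fun z hz => ?_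
    exact (hQmem _ z).2 (Or.inl hz)
  · intro i j hij
    refine hQdis _ (P.equivFin.symm i).2 _ (P.equivFin.symm j).2 ?_
    intro h
    exact hij (P.equivFin.symm.injective (Subtype.ext h))
  · intro i x hx y hy hxy
    obtain ⟨q, hq, hyq⟩ := hQnb _ (P.equivFin.symm i).2 x hx y hy hxy
    refine ⟨P.equivFin ⟨q, hq⟩, ?_⟩
    simpa using hyq
  · intro Z hZ hd hZc
    refine hQZ Z hZ ?_ hZc
    intro p hp
    have := hd (P.equivFin ⟨p, hp⟩)
    simpa using this

end

end Pool.Agent.H67.CF
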