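import Pool.Agent.H67.CF.Lb
import Pool.Agent.H67.CF.Lc
import Pool.Agent.H67.CF.Md
import Pool.Agent.H67.CF.Pa

/-!
Module Ld.  A set of edges which is slightly too large contains a large clique minor.
-/

set_option autoImplicit false
set_option linter.all false

namespace Pool.Agent.H67.CF

open Classical

noncomputable section

/-- the type of nodes -/
def Ld_N (A B : Type*) : Type _ := A ⊕ B

instance Ld_N_fintype (A B : Type*) [Fintype A] [Fintype B] : Fintype (Ld_N A B) :=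
  inferInstanceAs (Fintype (A ⊕ B))

theorem Ld_N_card (A B : Type*) [Fintype A] [Fintype B] :
    Fintype.card (Ld_N A B) = Fintype.card A + Fintype.card B :=
  Fintype.card_sum

/-- the set of nodes of a set of edges -/
def Ld_nd {E A B : Type*} (s : E → A) (t : E → B) (Z : Finset E) : Finset (Ld_N A B) :=
  (Z.image s).disjSum (Z.image t)

theorem Ld_card {E A B : Type*} (s : E → A) (t : E → B) (Z : Finset E) :
    (Ld_nd s t Z).card = (Z.image s).card + (Z.image t).card := Finset.card_disjSum _ _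

theorem Ld_inl {E A B : Type*} (s : E → A) (t : E → B) (Z : Finset E) (w : A) :
    (Sum.inl w : Ld_N A B) ∈ Ld_nd s t Z ↔ w ∈ Z.image s := Finset.inl_mem_disjSum

theorem Ld_inr {E A B : Type*} (s : E → A) (t : E → B) (Z : Finset E) (w : B) :
    (Sum.inr w : Ld_N A B) ∈ Ld_nd s t Z ↔ w ∈ Z.image t := Finset.inr_mem_disjSum

theorem Ld_inter {E A B : Type*} (s : E → A) (t : E → B) (Z Z' : Finset E) :
    (Ld_nd s t Z ∩ Ld_nd s t Z').card
      = (Z.image s ∩ Z'.image s).card + (Z.image t ∩ Z'.image t).card := by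
  have : Ld_nd s t Z ∩ Ld_nd s t Z'
      = ((Z.image s ∩ Z'.image s).disjSum (Z.image t ∩ Z'.image t) : Finset (Ld_N A B)) := by
    apply Finset.ext
    intro x
    rcases x with x | x
    · exact Finset.mem_inter.trans (((and_congr (Ld_inl s t Z x) (Ld_inl s t Z' x)).trans
        Finset.mem_inter.symm).trans Finset.inl_mem_disjSum.symm)
    · exact Finset.mem_inter.trans (((and_congr (Ld_inr s t Z x) (Ld_inr s t Z' x)).trans
        Finset.mem_inter.symm).trans Finset.inr_mem_disjSum.symm)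
  rw [this]
  exact Finset.card_disjSum _ _

theorem Ld_share {E A B : Type*} (s : E → A) (t : E → B) (Z Z' : Finset E) {w : Ld_N A B}
    (h : w ∈ Ld_nd s t Z) (h' : w ∈ Ld_nd s t Z') :
    ∃ x ∈ Z, ∃ y ∈ Z', s x = s y ∨ t x = t y := by
  rcases w with w | w
  · have h := (Ld_inl s t Z w).1 h
    have h' := (Ld_inl s t Z' w).1 h'
    rw [Finset.mem_image] at h h'
    obtain ⟨x, hx, hx'⟩ := h
    obtain ⟨y, hy, hy'⟩ := h'
    exact ⟨x, hx, y, hy, Or.inl (hx'.trans hy'.symm)⟩
  · have h := (Ld_inr s t Z w).1 h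
    have h' := (Ld_inr s t Z' w).1 h'
    rw [Finset.mem_image] at h h'
    obtain ⟨x, hx, hx'⟩ := h
    obtain ⟨y, hy, hy'⟩ := h'
    exact ⟨x, hx, y, hy, Or.inr (hx'.trans hy'.symm)⟩

/-- the quotient graph -/
def Ld_H {N ι : Type*} (D : ι → Finset N) : SimpleGraph ι where
  Adj i j := i ≠ j ∧ (D i ∩ D j).Nonempty
  symm := ⟨fun i j h => ⟨h.1.symm, by rw [Finset.inter_comm]; exact h.2⟩⟩
  loopless := ⟨fun _ h => h.1 rfl⟩

theorem Ld_pc {N ι : Type*} [Fintype ι] (D : ι → Finset N)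
    (h : ∀ i j, i ≠ j → (D i ∩ D j).card ≤ 1) :
    2 * ∑ i, (D i).card ≤ 2 * (Finset.univ.biUnion D).card +
      (((Finset.univ : Finset ι) ×ˢ (Finset.univ : Finset ι)).filter
        (fun p => (Ld_H D).Adj p.1 p.2)).card := by
  refine (pair_count D h).trans ?_
  apply Nat.add_le_add_left
  apply Finset.card_le_card
  intro p hp
  rw [Finset.mem_filter] at hp ⊢
  exact ⟨Finset.mem_product.2 ⟨Finset.mem_univ _, Finset.mem_univ _⟩, hp.2⟩

theorem Ld_lift {E A B : Type} [Fintype E] {s : E → A} {t : E → B} {r n : ℕ}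
    (Y : Finset E) (Q : Fin n → Finset E) (hQY : ∀ i, Q i ⊆ Y) (hQne : ∀ i, (Q i).Nonempty)
    (hQc : ∀ i, PConn (lineG s t) (Q i : Set E)) (hdis : ∀ i j, i ≠ j → Disjoint (Q i) (Q j))
    (hM : Model (Ld_H (fun i => Ld_nd s t (Q i))) r ((Finset.univ : Finset (Fin n)) : Set (Fin n))) :
    Model (lineG s t) r (Y : Set E) := by
  obtain ⟨f, hf1, hf2, hf3⟩ := hM
  have hadj : ∀ i j, (Ld_H (fun i => Ld_nd s t (Q i))).Adj i j →
      ∃ x ∈ Q i, ∃ y ∈ Q j, (lineG s t).Adj x y := by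
    intro i j hij
    obtain ⟨hne, w, hw⟩ := hij
    rw [Finset.mem_inter] at hw
    obtain ⟨x, hx, y, hy, hxy⟩ := Ld_share s t _ _ hw.1 hw.2
    refine ⟨x, hx, y, hy, ?_, hxy⟩
    intro h
    rw [h] at hx
    exact Finset.disjoint_left.1 (hdis i j hne) hx hy
  refine ⟨fun k => {e | ∃ i ∈ f k, e ∈ Q i}, ?_, ?_, ?_⟩
  · intro k
    refine ⟨?_, ?_, ?_⟩
    · rintro e ⟨i, _, hi⟩
      exact hQY i hi
    · obtain ⟨i, hi⟩ := (hf1 k).2.1
      obtain ⟨e, he⟩ := hQne i
      exact ⟨e, i, hi, he⟩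
    · rintro a ⟨i, hi, ha⟩ b ⟨j, hj, hb⟩
      have hR := (hf1 k).2.2 i hi j hj
      have hmono : ∀ l ∈ f k, (Q l : Set E) ⊆ {e | ∃ i ∈ f k, e ∈ Q i} :=
        fun l hl e he => ⟨l, hl, he⟩
      have key : ∀ b ∈ Q j, Rch (lineG s t) {e | ∃ i ∈ f k, e ∈ Q i} a b := by
        refine rch_induct (P := fun l => ∀ b ∈ Q l,
          Rch (lineG s t) {e | ∃ i ∈ f k, e ∈ Q i} a b) hR ?_ ?_
        · intro b hb
          exact rch_mono (hmono i hi) (hQc i a ha b hb)
        · intro x y hx _ hxy hy b hb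
          obtain ⟨u, hu, v, hv, huv⟩ := hadj x y hxy
          have h1 := rch_tail (hx u hu) huv ⟨y, hy, hv⟩
          exact rch_trans h1 (rch_mono (hmono y hy) (hQc y v hv b hb))
      exact key b hb
  · intro k l hkl
    rw [Set.disjoint_left]
    rintro e ⟨i, hi, hei⟩ ⟨j, hj, hej⟩
    by_cases hij : i = j
    · rw [← hij] at hj
      exact Set.disjoint_left.1 (hf2 k l hkl) hi hj
    · exact Finset.disjoint_left.1 (hdis i j hij) hei hej
  · intro k l hkl
    obtain ⟨i, hi, j, hj, hij⟩ := hf3 k l hkl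
    obtain ⟨x, hx, y, hy, hxy⟩ := hadj i j hij
    exact ⟨x, ⟨i, hi, hx⟩, y, ⟨j, hj, hy⟩, hxy⟩

theorem low_model {E A B : Type} [Fintype E] [Fintype A] [Fintype B] [Nonempty E]
    {s : E → A} {t : E → B} {d g m r : ℕ} {η : ℝ}
    (hdeg : ∀ e, (nb (lineG s t) e).card ≤ d) (hR : Rg s t g) (hm : 1 ≤ m)
    (hg : 2 * ((d + 1) * m ^ 2) < g) (hη : 0 < η) (hmη : (2 : ℝ) ^ r ≤ η * m)
    (Y : Finset E)
    (hY : (Fintype.card A : ℝ) + Fintype.card B + η * Fintype.card E ≤ Y.card) :
    Model (lineG s t) r (Y : Set E) := by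
  obtain ⟨n, Q, hQ, hdis, hcl, hsm⟩ := part hdeg Y hm
  have hmm : m ≤ (d + 1) * m ^ 2 := by
    calc m ≤ m * m := Nat.le_mul_of_pos_left m hm
      _ = 1 * m ^ 2 := by ring
      _ ≤ (d + 1) * m ^ 2 := Nat.mul_le_mul_right _ (Nat.succ_le_succ (Nat.zero_le d))
  have hQne : ∀ i, (Q i).Nonempty := by
    intro i
    rw [← Finset.card_pos]
    have := (hQ i).2.1
    omega
  set D : Fin n → Finset (Ld_N A B) := fun i => Ld_nd s t (Q i) with hD
  have h1 : ∀ i, (Q i).card + 1 ≤ (D i).card := by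
    intro i
    have h := hR (Q i) (hQne i) (by have := (hQ i).2.2.1; omega)
    rw [hD]
    simp only
    rw [Ld_card]
    omega
  have h2 : ∀ i j, i ≠ j → (D i ∩ D j).card ≤ 1 := by
    intro i j hij
    rw [hD]
    simp only
    rw [Ld_inter]
    apply share_le_one hR (hQne i) (hQne j) (hQ i).2.2.2 (hQ j).2.2.2 (hdis i j hij)
    have := (hQ i).2.2.1
    have := (hQ j).2.2.1
    omega
  have h3 := Ld_pc D h2
  set U : Finset E := Finset.univ.biUnion Q with hU
  have hUY : U ⊆ Y := by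
    rw [hU, Finset.biUnion_subset]
    intro i _
    exact (hQ i).1
  have hUc : U.card = ∑ i, (Q i).card := by
    rw [hU]
    apply Finset.card_biUnion
    intro i _ j _ hij
    exact hdis i j hij
  have h4 : (Y \ U).card ≤ (Ld_nd s t (Y \ U)).card := by
    rw [Ld_card]
    apply small_pieces hR
    intro Z hZ hc
    have h5 : Z.card < m := by
      apply hsm Z (hZ.trans Finset.sdiff_subset) _ hc
      intro i
      rw [Finset.disjoint_left]
      intro x hx hxi
      have := (Finset.mem_sdiff.1 (hZ hx)).2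
      apply this
      rw [hU, Finset.mem_biUnion]
      exact ⟨i, Finset.mem_univ i, hxi⟩
    omega
  have h5 : Disjoint (Ld_nd s t (Y \ U)) (Finset.univ.biUnion D) := by
    rw [Finset.disjoint_left]
    intro w hw hw'
    rw [Finset.mem_biUnion] at hw'
    obtain ⟨i, _, hi⟩ := hw'
    obtain ⟨x, hx, y, hy, hxy⟩ := Ld_share s t _ _ hw hi
    rw [Finset.mem_sdiff] at hx
    have hne : y ≠ x := by
      intro h
      apply hx.2
      rw [hU, Finset.mem_biUnion]
      exact ⟨i, Finset.mem_univ i, h ▸ hy⟩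
    have hadj : (lineG s t).Adj y x := ⟨hne, hxy.imp Eq.symm Eq.symm⟩
    obtain ⟨j, hj⟩ := hcl i y hy x hx.1 hadj
    apply hx.2
    rw [hU, Finset.mem_biUnion]
    exact ⟨j, Finset.mem_univ j, hj⟩
  have h6 : (Ld_nd s t (Y \ U)).card + (Finset.univ.biUnion D).card
      ≤ Fintype.card A + Fintype.card B := by
    rw [← Finset.card_union_of_disjoint h5, ← Ld_N_card]
    exact Finset.card_le_univ _
  have h7 : (Y \ U).card + U.card = Y.card := Finset.card_sdiff_add_card_eq_card hUY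
  have h8 : ∑ i, (Q i).card + n ≤ ∑ i, (D i).card := by
    have h := Finset.sum_le_sum (fun i (_ : i ∈ (Finset.univ : Finset (Fin n))) => h1 i)
    rw [Finset.sum_add_distrib] at h
    simpa using h
  have h9 : m * n ≤ U.card := by
    rw [hUc]
    have h := Finset.sum_le_sum (fun i (_ : i ∈ (Finset.univ : Finset (Fin n))) => (hQ i).2.1)
    rw [Finset.sum_const, Finset.card_univ, Fintype.card_fin, smul_eq_mul, mul_comm] at h
    exact h
  have h10 : U.card ≤ Fintype.card E := Finset.card_le_univ _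
  set P := ((Finset.univ : Finset (Fin n)) ×ˢ (Finset.univ : Finset (Fin n))).filter
        (fun p => (Ld_H D).Adj p.1 p.2) with hP
  have h11 : 2 * Y.card + 2 * n ≤ 2 * (Fintype.card A + Fintype.card B) + P.card := by
    omega
  have h11' : 2 * (Y.card : ℝ) + 2 * (n : ℝ)
      ≤ 2 * ((Fintype.card A : ℝ) + Fintype.card B) + P.card := by
    exact_mod_cast h11
  have hE : (0 : ℝ) < Fintype.card E := by
    exact_mod_cast Fintype.card_pos
  have h12 : 2 * (η * Fintype.card E) ≤ (P.card : ℝ) := by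
    have : (0 : ℝ) ≤ n := Nat.cast_nonneg n
    linarith
  have h13 : (0 : ℝ) < P.card := by
    have := mul_pos hη hE
    linarith
  have hn : Nonempty (Fin n) := by
    have h : 0 < P.card := by exact_mod_cast h13
    rw [Finset.card_pos] at h
    obtain ⟨x, _⟩ := h
    exact ⟨x.1⟩
  have h14 : ((m : ℝ) * n) ≤ Fintype.card E := by
    exact_mod_cast h9.trans h10
  have h15 : (2 : ℝ) ^ (r + 1) * n ≤ P.card := by
    calc (2 : ℝ) ^ (r + 1) * n = 2 * ((2 : ℝ) ^ r * n) := by ring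
      _ ≤ 2 * ((η * m) * n) := by
          have : (0 : ℝ) ≤ n := Nat.cast_nonneg n
          gcongr
      _ = 2 * (η * (m * n)) := by ring
      _ ≤ 2 * (η * Fintype.card E) := by gcongr
      _ ≤ P.card := h12
  have h16 : 2 ^ (r + 1) * n ≤ P.card := by exact_mod_cast h15
  apply Ld_lift Y Q (fun i => (hQ i).1) hQne (fun i => (hQ i).2.2.2) hdis
  apply mader
  · exact Finset.univ_nonempty
  · rw [Finset.card_univ, Fintype.card_fin]
    exact h16

end

end Pool.Agent.H67.CF
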