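import Pool.Agent.H67.CF.Sd
import Pool.Agent.H67.CF.Cv
import Pool.Agent.H67.CF.Ld

/-!
Module Fl.  The lower bounds for the two sets.  Use only the STATEMENTS of Cv, Lb, Ld (and Defs, Sd).

(1) `transport`: for every `g` there are `n`, `s t : Fin n → ℕ` and numbers `a b : ℕ` with the listed properties.  Take `E, A, B, s0, t0` from
    `cover p q` with `p := d/2 + 1`, `q := (d+1)/2 + 1` and `g' := g + 3`, `n := Fintype.card E`, `ε : Fin n ≃ E`, injections `A → ℕ`, `B → ℕ` (`Fintype.equivFin` followed by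
    `Fin.val`), `s e := ι_A (s0 (ε e))`, etc.  `p - 1 + (q - 1) = d`.  `n = p |A| = q |B|` (`fibre_card`), so `|A| + |B| = wt d * n`.
    Injectivity of `(s, t)`: if `e ≠ e'` have the same `s` and `t` then `Y := {e, e'}` has `|Y| = 2 < g'` and `|s(Y)| + |t(Y)| = 2`, contradicting `Rg`.
    `g ≤ n`: if `n < g'` then `Y := univ` gives `n < |s(univ)| + |t(univ)| ≤ |A| + |B| = wt d * n ≤ n` (`wt_le_one` from Ab is not imported; prove
    `|A| + |B| ≤ n` directly: `p, q ≥ 2` when `d ≥ 2`, so `2|A| ≤ n`, `2|B| ≤ n`).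
    State it with `A := Fin a`, `B := Fin b` valued maps if that is more convenient: the statement below uses `s : Fin n → Fin a`, `t : Fin n → Fin b`, and
    `bipLine (fun e => (s e : ℕ)) (fun e => (t e : ℕ)) = lineG s t` (`Fin.ext_iff`).
(2) `cf_low`: let `c ∈ cfSet P d`, and suppose `c < 1 - wt d`; `ε := (1 - wt d - c)/2`, `C` from the definition; `transport` with `g := C + 1`; the graph
    `G := lineG s t = bipLine ..` is in `P`, has degrees `≤ d` (`nb_card`).  There is `S` with `|S| ≤ (c + ε) n` such that all connected sets disjoint from `S` have at most `C` elements;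
    `Y := Sᶜ`: `small_pieces` gives `|Y| ≤ |s(Y)| + |t(Y)| ≤ a + b = wt d * n`, so `n (1 - wt d) ≤ |S| ≤ (c + ε) n < (1 - wt d) n` (`n > 0`).  Contradiction.
(3) `mu_low`: let `μ ∈ muSet P r d`, `μ < 1 - wt d`; `ε := (1 - wt d - μ)/2`, `η := ε`, `N` from the definition; `m ≥ 1` with `2^r ≤ η m`; `transport` with
    `g := N + 2 (d+1) m^2 + 1`; `n ≥ g ≥ N`.  `S` with `|S| ≤ (μ + ε) n`; `Y := Sᶜ` has `|Y| ≥ n - (μ + ε) n = (wt d + ε) n = a + b + η n`, so `low_model` gives a model of `K_r` in `Y`,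
    i.e. a forbidden `f` (`connected_iff`).
-/

set_option autoImplicit false
set_option linter.all false

namespace Pool.Agent.H67.CF

open Classical

noncomputable section

theorem Fl_Rg {E A B E' A' B' : Type} {s : E → A} {t : E → B} {g g' : ℕ} (h : Rg s t g)
    (εE : E ≃ E') (εA : A ≃ A') (εB : B ≃ B') (hg : g' ≤ g) :
    Rg (fun e => εA (s (εE.symm e))) (fun e => εB (t (εE.symm e))) g' := by
  intro Y hY hYg
  have h1 := h (Y.image εE.symm) (hY.image _) (by
    rw [Finset.card_image_of_injective _ εE.symm.injective]; omega)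
  rw [Finset.card_image_of_injective _ εE.symm.injective, Finset.image_image,
    Finset.image_image] at h1
  have e1 : (Y.image fun e => εA (s (εE.symm e))).card = (Y.image (s ∘ εE.symm)).card := by
    rw [← Finset.card_image_of_injective (Y.image (s ∘ εE.symm)) εA.injective,
      Finset.image_image]
    rfl
  have e2 : (Y.image fun e => εB (t (εE.symm e))).card = (Y.image (t ∘ εE.symm)).card := by
    rw [← Finset.card_image_of_injective (Y.image (t ∘ εE.symm)) εB.injective,
      Finset.image_image]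
    rfl
  rw [e1, e2]
  exact h1

theorem Fl_fib {E A E' A' : Type} [Fintype E] [Fintype E'] {s : E → A} {p : ℕ}
    (hs : ∀ a, (Finset.univ.filter (fun e => s e = a)).card = p) (εE : E ≃ E') (εA : A ≃ A')
    (a : A') : (Finset.univ.filter (fun e => εA (s (εE.symm e)) = a)).card = p := by
  rw [← hs (εA.symm a)]
  refine Finset.card_bij (fun e _ => εE.symm e) ?_ ?_ ?_
  · intro e he
    rw [Finset.mem_filter] at he ⊢
    refine ⟨Finset.mem_univ _, ?_⟩
    rw [← he.2, Equiv.symm_apply_apply]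
  · intro e _ e' _ h
    exact εE.symm.injective h
  · intro e he
    rw [Finset.mem_filter] at he
    refine ⟨εE e, ?_, Equiv.symm_apply_apply _ _⟩
    rw [Finset.mem_filter]
    refine ⟨Finset.mem_univ _, ?_⟩
    rw [Equiv.symm_apply_apply, he.2, Equiv.apply_symm_apply]

theorem Fl_inj {E A B : Type} {s : E → A} {t : E → B} {g : ℕ} (h : Rg s t g) (hg : 3 ≤ g)
    {e e' : E} (h1 : s e = s e') (h2 : t e = t e') : e = e' := by
  by_contra hne
  have h3 := h {e, e'} (Finset.insert_nonempty _ _) (by rw [Finset.card_pair hne]; omega)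
  rw [Finset.card_pair hne, Finset.image_insert, Finset.image_singleton, Finset.image_insert,
    Finset.image_singleton, h1, h2, Finset.insert_eq_of_mem (Finset.mem_singleton_self _),
    Finset.insert_eq_of_mem (Finset.mem_singleton_self _), Finset.card_singleton,
    Finset.card_singleton] at h3
  omega

theorem transport {d : ℕ} (hd2 : 2 ≤ d) (g : ℕ) :
    ∃ (n a b : ℕ) (s : Fin n → Fin a) (t : Fin n → Fin b), 1 ≤ n ∧ g ≤ n ∧
      ((a : ℝ) + b = wt d * n) ∧ (∀ e, (nb (lineG s t) e).card ≤ d) ∧ Rg s t g ∧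
      (∀ e e', s e = s e' → t e = t e' → e = e') ∧
      bipLine (fun e => (s e : ℕ)) (fun e => (t e : ℕ)) = lineG s t := by
  obtain ⟨E, A, B, iE, iA, iB, hne, s0, t0, hs, ht, hR⟩ :=
    cover (d / 2 + 1) ((d + 1) / 2 + 1) (by omega) (by omega) (g + 3)
  have hpos : 1 ≤ Fintype.card E := Fintype.card_pos
  have cA := fibre_card hs
  have cB := fibre_card ht
  have h2A : 2 * Fintype.card A ≤ Fintype.card E := by
    rw [cA]
    exact Nat.mul_le_mul_right _ (by omega)
  have h2B : 2 * Fintype.card B ≤ Fintype.card E := by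
    rw [cB]
    exact Nat.mul_le_mul_right _ (by omega)
  refine ⟨Fintype.card E, Fintype.card A, Fintype.card B,
    fun e => Fintype.equivFin A (s0 ((Fintype.equivFin E).symm e)),
    fun e => Fintype.equivFin B (t0 ((Fintype.equivFin E).symm e)), hpos, ?_, ?_, ?_, ?_, ?_, ?_⟩
  · by_contra hlt
    have h1 := hR Finset.univ Finset.univ_nonempty (by rw [Finset.card_univ]; omega)
    rw [Finset.card_univ] at h1
    have h2 := Finset.card_le_univ (Finset.univ.image s0)
    have h3 := Finset.card_le_univ (Finset.univ.image t0)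
    omega
  · have hA : (Fintype.card E : ℝ) = (((d / 2 : ℕ) : ℝ) + 1) * Fintype.card A := by
      rw [cA]; push_cast; ring
    have hB : (Fintype.card E : ℝ) = ((((d + 1) / 2 : ℕ) : ℝ) + 1) * Fintype.card B := by
      rw [cB]; push_cast; ring
    have pA : (0 : ℝ) < ((d / 2 : ℕ) : ℝ) + 1 := by positivity
    have pB : (0 : ℝ) < (((d + 1) / 2 : ℕ) : ℝ) + 1 := by positivity
    unfold wt
    rw [add_mul]
    congr 1
    · rw [hA, one_div, inv_mul_cancel_left₀ pA.ne']
    · rw [hB, one_div, inv_mul_cancel_left₀ pB.ne']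
  · intro e
    refine (lineG_deg (Fl_fib hs _ _) (Fl_fib ht _ _) e).trans ?_
    omega
  · exact Fl_Rg hR _ _ _ (by omega)
  · intro e e' h1 h2
    exact Fl_inj (Fl_Rg hR (Fintype.equivFin E) (Fintype.equivFin A) (Fintype.equivFin B) le_rfl)
      (by omega) h1 h2
  · ext e e'
    simp only [bipLine, lineG, Fin.ext_iff]

theorem cf_low {P : (n : ℕ) → SimpleGraph (Fin n) → Prop} (hP : HasBipLine P)
    {d : ℕ} (hd2 : 2 ≤ d) {c : ℝ} (hc : c ∈ cfSet P d) : 1 - wt d ≤ c := by
  by_contra hlt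
  rw [not_le] at hlt
  set ε : ℝ := (1 - wt d - c) / 2 with hε
  have hεp : 0 < ε := by rw [hε]; linarith
  obtain ⟨C, hC⟩ := hc ε hεp
  obtain ⟨n, a, b, s, t, hn, hgn, hab, hdeg, hR, hinj, hG⟩ := transport hd2 (C + 1)
  have hPG : P n (lineG s t) := by
    rw [← hG]
    exact hP n _ _ fun e e' h1 h2 => hinj e e' (Fin.ext h1) (Fin.ext h2)
  obtain ⟨S, hS, hT⟩ := hC n (lineG s t) hPG fun v => by
    rw [← nb_card]
    exact hdeg v
  have h1 := small_pieces hR Sᶜ (by
    intro Z hZ hconn
    rcases Z.eq_empty_or_nonempty with rfl | hZne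
    · simp
    · have h2 := hT (Z : Set (Fin n)) (by
        rw [Finset.disjoint_coe]
        exact Finset.disjoint_left.2 fun x hx hxS => (Finset.mem_compl.1 (hZ hx)) hxS)
        (connected_iff.2 ⟨hZne, hconn⟩)
      rw [Set.ncard_coe_finset] at h2
      omega)
  have h4 : (Sᶜ : Finset (Fin n)).card ≤ a + b :=
    h1.trans (Nat.add_le_add ((Finset.card_le_univ _).trans_eq (Fintype.card_fin _))
      ((Finset.card_le_univ _).trans_eq (Fintype.card_fin _)))
  rw [Finset.card_compl, Fintype.card_fin] at h4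
  have h5 : n ≤ a + b + S.card := by omega
  have h6 : (n : ℝ) ≤ a + b + S.card := by exact_mod_cast h5
  rw [hab] at h6
  have hn' : (0 : ℝ) < n := by exact_mod_cast hn
  have h7 : (n : ℝ) * ε ≤ 0 := by
    have : 1 - wt d = 2 * ε + c := by rw [hε]; ring
    nlinarith
  have h8 := mul_pos hn' hεp
  linarith

theorem mu_low {P : (n : ℕ) → SimpleGraph (Fin n) → Prop} (hP : HasBipLine P)
    {d r : ℕ} (hd2 : 2 ≤ d) {μ : ℝ} (hμ : μ ∈ muSet P r d) : 1 - wt d ≤ μ := by
  by_contra hlt
  rw [not_le] at hlt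
  set ε : ℝ := (1 - wt d - μ) / 2 with hε
  have hεp : 0 < ε := by rw [hε]; linarith
  obtain ⟨N, hN⟩ := hμ ε hεp
  obtain ⟨m0, hm0⟩ := exists_nat_ge ((2 : ℝ) ^ r / ε)
  have hmη : (2 : ℝ) ^ r ≤ ε * ((m0 + 1 : ℕ) : ℝ) := by
    rw [div_le_iff₀ hεp] at hm0
    push_cast
    nlinarith
  obtain ⟨n, a, b, s, t, hn, hgn, hab, hdeg, hR, hinj, hG⟩ :=
    transport hd2 (N + 2 * ((d + 1) * (m0 + 1) ^ 2) + 1)
  have hPG : P n (lineG s t) := by
    rw [← hG]
    exact hP n _ _ fun e e' h1 h2 => hinj e e' (Fin.ext h1) (Fin.ext h2)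
  obtain ⟨S, hS, hno⟩ := hN n (by omega) (lineG s t) hPG fun v => by
    rw [← nb_card]
    exact hdeg v
  haveI : Nonempty (Fin n) := ⟨⟨0, hn⟩⟩
  have hY : (Fintype.card (Fin a) : ℝ) + Fintype.card (Fin b) + ε * Fintype.card (Fin n) ≤
      ((Sᶜ : Finset (Fin n)).card : ℝ) := by
    rw [Finset.card_compl, Fintype.card_fin, Fintype.card_fin, Fintype.card_fin, hab]
    have h1 : S.card ≤ n := by
      have := Finset.card_le_univ S
      rwa [Fintype.card_fin] at this
    rw [Nat.cast_sub h1]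
    have : 1 - wt d = 2 * ε + μ := by rw [hε]; ring
    nlinarith
  obtain ⟨f, hf1, hf2, hf3⟩ := low_model (m := m0 + 1) hdeg hR (by omega) (by omega) hεp hmη Sᶜ hY
  refine hno ⟨f, fun i => ?_, fun i => ?_, hf2, hf3⟩
  · rw [Set.disjoint_left]
    intro x hx hxS
    have := (hf1 i).1 hx
    rw [Finset.mem_coe, Finset.mem_compl] at this
    exact this (Finset.mem_coe.1 hxS)
  · exact connected_iff.2 (hf1 i).2

end

end Pool.Agent.H67.CF
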