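import Pool.Agent.H67.CF.Defs

/-!
Module Lb.  Line graphs of bipartite incidence structures `s : E → A`, `t : E → B`.  Only Defs is used.

`lineG s t`: `e ~ e'` iff `e ≠ e'` and (`s e = s e'` or `t e = t e'`).
`Rg s t g`: every nonempty `Y` with `|Y| < g` has `|Y| < |s(Y)| + |t(Y)|` (all small subgraphs are forests).
(1) `lineG_clawFree`: of three neighbours `a, b, c` of `v` two have the same kind of relation (`s` or `t`) with `v`, so they are adjacent.
(2) `lineG_deg`: `nb (lineG s t) e ⊆ (fibre of s through e).erase e ∪ (fibre of t through e).erase e`.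
(3) `fibre_card`: `Finset.card_eq_sum_card_fiberwise` (or `Finset.card_eq_of_equiv`), all fibres have `p` elements.
(4) `nodes_le`: `Z` nonempty connected.  Among the nonempty `U ⊆ Z` with `|s(U)| + |t(U)| ≤ |U| + 1` (singletons qualify) take one of maximal cardinality.
    If `U ≠ Z` there are `e ∈ Z \ U`, `e' ∈ U` adjacent (take `a ∈ U`, `b ∈ Z \ U`; if no such edge existed then `U` would be preserved along the walk from `a`
    to `b` in `Z`, `rch_induct`).  As `s e = s e'` or `t e = t e'`, one of the two images does not grow when `e` is added, the other grows by at most `1`: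
    `insert e U` contradicts maximality.  So `U = Z`.
(5) `small_pieces`: by strong induction on `|Y|`: `Y = ∅` clear.  Otherwise let `a ∈ Y`, `Z := Y.filter (· ∈ Cls G Y a)`, connected (`cls_pconn`), nonempty, so
    `|Z| < g` and `|Z| < |s(Z)| + |t(Z)|`.  `Y' := Y \ Z` satisfies the hypothesis, so `|Y'| ≤ |s(Y')| + |t(Y')|`.  `s(Z)` and `s(Y')` are disjoint, and `t(Z)` and
    `t(Y')` (an element of `Y'` sharing a node with an element of `Z` is adjacent to it, hence in `Z`, `rch_tail`).  Add
    (`s(Y) = s(Z) ∪ s(Y')`).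
(6) `share_le_one`: `|Z| + |Z'| = |Z ∪ Z'| < |s(Z ∪ Z')| + |t(Z ∪ Z')| = |s Z| + |s Z'| - |s Z ∩ s Z'| + |t Z| + |t Z'| - |t Z ∩ t Z'| ≤ |Z| + 1 + |Z'| + 1 - shared`
    by (4) (`Finset.image_union`, `Finset.card_union_add_card_inter`).  So `shared < 2`.
(7) `nodes_eq`: `Z` nonempty, connected, `|Z| < g`: `|Z| + 1 ≤ |s(Z)| + |t(Z)|`: immediate from `Rg`.
-/

set_option autoImplicit false
set_option linter.all false

namespace Pool.Agent.H67.CF

open Classical

noncomputable section

variable {E A B : Type*}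

/-- the line graph of the incidence structure -/
def lineG (s : E → A) (t : E → B) : SimpleGraph E where
  Adj e e' := e ≠ e' ∧ (s e = s e' ∨ t e = t e')
  symm := ⟨fun _ _ h => ⟨h.1.symm, h.2.imp Eq.symm Eq.symm⟩⟩
  loopless := ⟨fun _ h => h.1 rfl⟩

/-- small subgraphs are forests -/
def Rg (s : E → A) (t : E → B) (g : ℕ) : Prop :=
  ∀ Y : Finset E, Y.Nonempty → Y.card < g → Y.card < (Y.image s).card + (Y.image t).card

variable {s : E → A} {t : E → B}

theorem lineG_clawFree : ClawFree (lineG s t) := by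
  rintro v a b c ⟨-, ha⟩ ⟨-, hb⟩ ⟨-, hc⟩ hab hac hbc
  rcases ha with ha | ha <;> rcases hb with hb | hb <;> rcases hc with hc | hc
  · exact Or.inl ⟨hab, Or.inl (ha.symm.trans hb)⟩
  · exact Or.inl ⟨hab, Or.inl (ha.symm.trans hb)⟩
  · exact Or.inr (Or.inl ⟨hac, Or.inl (ha.symm.trans hc)⟩)
  · exact Or.inr (Or.inr ⟨hbc, Or.inr (hb.symm.trans hc)⟩)
  · exact Or.inr (Or.inr ⟨hbc, Or.inl (hb.symm.trans hc)⟩)
  · exact Or.inr (Or.inl ⟨hac, Or.inr (ha.symm.trans hc)⟩)
  · exact Or.inl ⟨hab, Or.inr (ha.symm.trans hb)⟩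
  · exact Or.inl ⟨hab, Or.inr (ha.symm.trans hb)⟩

theorem lineG_deg [Fintype E] {p q : ℕ}
    (hs : ∀ a, (Finset.univ.filter (fun e => s e = a)).card = p)
    (ht : ∀ b, (Finset.univ.filter (fun e => t e = b)).card = q) (e : E) :
    (nb (lineG s t) e).card ≤ (p - 1) + (q - 1) := by
  have hsub : nb (lineG s t) e ⊆ (Finset.univ.filter (fun e' => s e' = s e)).erase e ∪
      (Finset.univ.filter (fun e' => t e' = t e)).erase e := by
    intro x hx
    rw [mem_nb] at hx
    obtain ⟨h1, h2⟩ := hx
    rw [Finset.mem_union, Finset.mem_erase, Finset.mem_erase, Finset.mem_filter, Finset.mem_filter]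
    rcases h2 with h2 | h2
    · exact Or.inl ⟨h1.symm, Finset.mem_univ _, h2.symm⟩
    · exact Or.inr ⟨h1.symm, Finset.mem_univ _, h2.symm⟩
  refine (Finset.card_le_card hsub).trans ((Finset.card_union_le _ _).trans ?_)
  rw [Finset.card_erase_of_mem (by simp), Finset.card_erase_of_mem (by simp), hs, ht]

theorem fibre_card [Fintype E] [Fintype A] {p : ℕ}
    (hs : ∀ a, (Finset.univ.filter (fun e => s e = a)).card = p) :
    Fintype.card E = p * Fintype.card A := by
  have h1 := Finset.card_eq_sum_card_fiberwise (f := s) (s := (Finset.univ : Finset E))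
    (t := (Finset.univ : Finset A)) (fun x _ => Finset.mem_univ _)
  rw [Finset.card_univ] at h1
  rw [h1, Finset.sum_congr rfl (fun a _ => hs a), Finset.sum_const, Finset.card_univ,
    smul_eq_mul, mul_comm]

theorem nodes_le {Z : Finset E} (hZ : Z.Nonempty) (hconn : PConn (lineG s t) (Z : Set E)) :
    (Z.image s).card + (Z.image t).card ≤ Z.card + 1 := by
  set T := Z.powerset.filter (fun U => U.Nonempty ∧
    (U.image s).card + (U.image t).card ≤ U.card + 1) with hT
  have hTn : T.Nonempty := by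
    obtain ⟨e, he⟩ := hZ
    refine ⟨{e}, ?_⟩
    rw [hT, Finset.mem_filter, Finset.mem_powerset]
    refine ⟨Finset.singleton_subset_iff.2 he, Finset.singleton_nonempty e, ?_⟩
    simp
  obtain ⟨U, hU, hmax⟩ := Finset.exists_max_image T Finset.card hTn
  rw [hT, Finset.mem_filter, Finset.mem_powerset] at hU
  obtain ⟨hUZ, ⟨a, ha⟩, hUc⟩ := hU
  by_cases hEq : U = Z
  · rw [← hEq]
    exact hUc
  exfalso
  obtain ⟨b, hbZ, hbU⟩ : ∃ b ∈ Z, b ∉ U := by
    by_contra hcon
    push Not at hcon
    exact hEq (Finset.Subset.antisymm hUZ hcon)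
  have hstep : ∃ e' ∈ U, ∃ e ∈ Z, e ∉ U ∧ (lineG s t).Adj e' e := by
    by_contra hcon
    push Not at hcon
    apply hbU
    refine rch_induct (P := fun x => x ∈ U)
      (hconn a (Finset.mem_coe.2 (hUZ ha)) b (Finset.mem_coe.2 hbZ)) ha ?_
    intro x y hx _ hxy hy
    by_contra hyU
    exact hcon x hx y (Finset.mem_coe.1 hy) hyU hxy
  obtain ⟨e', he', e, heZ, heU, -, hadj⟩ := hstep
  have hins : insert e U ∈ T := by
    rw [hT, Finset.mem_filter, Finset.mem_powerset]
    refine ⟨Finset.insert_subset heZ hUZ, Finset.insert_nonempty e U, ?_⟩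
    rw [Finset.card_insert_of_notMem heU, Finset.image_insert, Finset.image_insert]
    rcases hadj with h | h
    · have h1 : s e ∈ U.image s := Finset.mem_image.2 ⟨e', he', h⟩
      rw [Finset.insert_eq_of_mem h1]
      have h2 := Finset.card_insert_le (t e) (U.image t)
      omega
    · have h1 : t e ∈ U.image t := Finset.mem_image.2 ⟨e', he', h⟩
      rw [Finset.insert_eq_of_mem h1]
      have h2 := Finset.card_insert_le (s e) (U.image s)
      omega
  have h3 := hmax _ hins
  rw [Finset.card_insert_of_notMem heU] at h3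
  omega

theorem small_pieces {g : ℕ} (hR : Rg s t g) (Y : Finset E)
    (hY : ∀ Z : Finset E, Z ⊆ Y → PConn (lineG s t) (Z : Set E) → Z.card < g) :
    Y.card ≤ (Y.image s).card + (Y.image t).card := by
  induction Y using Finset.strongInduction with
  | H Y ih =>
  rcases Y.eq_empty_or_nonempty with h0 | ⟨a, ha⟩
  · rw [h0]
    simp
  set Z := Y.filter (fun z => z ∈ Cls (lineG s t) (Y : Set E) a) with hZ
  have hZY : Z ⊆ Y := Finset.filter_subset _ _
  have hZs : (Z : Set E) = Cls (lineG s t) (Y : Set E) a := by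
    ext z
    rw [hZ, Finset.coe_filter]
    constructor
    · exact fun h => h.2
    · exact fun h => ⟨Finset.mem_coe.1 h.1, h⟩
  have haZ : a ∈ Z := by
    rw [hZ, Finset.mem_filter]
    exact ⟨ha, mem_cls_self (Finset.mem_coe.2 ha)⟩
  have hconn : PConn (lineG s t) (Z : Set E) := by
    rw [hZs]
    exact cls_pconn (Finset.mem_coe.2 ha)
  have h1 := hR Z ⟨a, haZ⟩ (hY Z hZY hconn)
  have h2 := ih (Y \ Z) (Finset.sdiff_ssubset hZY ⟨a, haZ⟩)
    (fun W hW hc => hY W (hW.trans Finset.sdiff_subset) hc)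
  have hclosed : ∀ e ∈ Z, ∀ e' ∈ Y \ Z, ¬ (s e = s e' ∨ t e = t e') := by
    intro e he e' he' hcon
    rw [Finset.mem_sdiff] at he'
    apply he'.2
    have he2 : e ∈ Cls (lineG s t) (Y : Set E) a := by
      rw [← hZs]
      exact Finset.mem_coe.2 he
    have hne : e ≠ e' := fun h => he'.2 (h ▸ he)
    rw [hZ, Finset.mem_filter]
    exact ⟨he'.1, Finset.mem_coe.2 he'.1, rch_tail he2.2 ⟨hne, hcon⟩ (Finset.mem_coe.2 he'.1)⟩
  have hYu : Y = Z ∪ (Y \ Z) := (Finset.union_sdiff_of_subset hZY).symm
  have hds : Disjoint (Z.image s) ((Y \ Z).image s) := by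
    rw [Finset.disjoint_left]
    intro x hx hx'
    obtain ⟨e, he, rfl⟩ := Finset.mem_image.1 hx
    obtain ⟨e', he', hee⟩ := Finset.mem_image.1 hx'
    exact hclosed e he e' he' (Or.inl hee.symm)
  have hdt : Disjoint (Z.image t) ((Y \ Z).image t) := by
    rw [Finset.disjoint_left]
    intro x hx hx'
    obtain ⟨e, he, rfl⟩ := Finset.mem_image.1 hx
    obtain ⟨e', he', hee⟩ := Finset.mem_image.1 hx'
    exact hclosed e he e' he' (Or.inr hee.symm)
  have es : (Y.image s).card = (Z.image s).card + ((Y \ Z).image s).card := by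
    conv_lhs => rw [hYu]
    rw [Finset.image_union, Finset.card_union_of_disjoint hds]
  have et : (Y.image t).card = (Z.image t).card + ((Y \ Z).image t).card := by
    conv_lhs => rw [hYu]
    rw [Finset.image_union, Finset.card_union_of_disjoint hdt]
  have eY : Y.card = Z.card + (Y \ Z).card := by
    conv_lhs => rw [hYu]
    rw [Finset.card_union_of_disjoint Finset.disjoint_sdiff]
  omega

theorem share_le_one {g : ℕ} (hR : Rg s t g) {Z Z' : Finset E} (hZ : Z.Nonempty)
    (hZ' : Z'.Nonempty) (hc : PConn (lineG s t) (Z : Set E)) (hc' : PConn (lineG s t) (Z' : Set E))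
    (hdis : Disjoint Z Z') (hg : Z.card + Z'.card < g) :
    (Z.image s ∩ Z'.image s).card + (Z.image t ∩ Z'.image t).card ≤ 1 := by
  have h1 : (Z ∪ Z').card = Z.card + Z'.card := Finset.card_union_of_disjoint hdis
  have h2 := hR (Z ∪ Z') (hZ.mono Finset.subset_union_left) (by rw [h1]; exact hg)
  rw [h1, Finset.image_union, Finset.image_union] at h2
  have h3 := Finset.card_union_add_card_inter (Z.image s) (Z'.image s)
  have h4 := Finset.card_union_add_card_inter (Z.image t) (Z'.image t)
  have h5 := nodes_le hZ hc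
  have h6 := nodes_le hZ' hc'
  omega

end

end Pool.Agent.H67.CF
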