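import Mathlib

/-!
MP_490a5a_co.  The two constants of the problem for a class `P` of graphs on the vertex sets `Fin n`, written exactly as in the frozen
statement S08551, with the additional requirement that the graph belongs to `P`.
-/

set_option autoImplicit false
set_option linter.all false

namespace Pool.Agent.H67.CF

/-- the values `μ` admissible in the definition of `μ({K_r}, P ∩ Γ_d)` -/
def muSet (P : (n : ℕ) → SimpleGraph (Fin n) → Prop) (r d : ℕ) : Set ℝ :=
  {μ : ℝ | ∀ ε : ℝ, 0 < ε → ∃ N : ℕ, ∀ n : ℕ, N ≤ n → ∀ G : SimpleGraph (Fin n), P n G →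
      (∀ v, (G.neighborSet v).ncard ≤ d) →
      ∃ S : Finset (Fin n), (S.card : ℝ) ≤ (μ + ε) * (n : ℝ) ∧
        ¬ ∃ f : Fin r → Set (Fin n),
            (∀ i, Disjoint (f i) (S : Set (Fin n))) ∧
            (∀ i, (G.induce (f i)).Connected) ∧
            (∀ i j, i ≠ j → Disjoint (f i) (f j)) ∧
            (∀ i j, i ≠ j → ∃ u ∈ f i, ∃ v ∈ f j, G.Adj u v)}

/-- the values `c` admissible in the definition of `c_f(P ∩ Γ_d)` -/
def cfSet (P : (n : ℕ) → SimpleGraph (Fin n) → Prop) (d : ℕ) : Set ℝ :=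
  {c : ℝ | ∀ ε : ℝ, 0 < ε → ∃ C : ℕ, ∀ n : ℕ, ∀ G : SimpleGraph (Fin n), P n G →
      (∀ v, (G.neighborSet v).ncard ≤ d) →
      ∃ S : Finset (Fin n), (S.card : ℝ) ≤ (c + ε) * (n : ℝ) ∧
        ∀ T : Set (Fin n), Disjoint T (S : Set (Fin n)) →
          (G.induce T).Connected → T.ncard ≤ C}

/-- the graph on `Fin n` whose vertices `e` are the edges `{s e, t e}` of a bipartite graph (left ends `s e`, right ends `t e`), two of them
adjacent when they share an end: the line graph of that bipartite graph -/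
def bipLine {n : ℕ} (s t : Fin n → ℕ) : SimpleGraph (Fin n) where
  Adj e e' := e ≠ e' ∧ (s e = s e' ∨ t e = t e')
  symm := ⟨fun _ _ h => ⟨h.1.symm, h.2.imp Eq.symm Eq.symm⟩⟩
  loopless := ⟨fun _ h => h.1 rfl⟩

/-- the class `P` contains all line graphs of (simple) bipartite graphs -/
def HasBipLine (P : (n : ℕ) → SimpleGraph (Fin n) → Prop) : Prop :=
  ∀ (n : ℕ) (s t : Fin n → ℕ), (∀ e e', s e = s e' → t e = t e' → e = e') → P n (bipLine s t)

end Pool.Agent.H67.CF
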