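import Pool.Agent.H67.CF.Defs

/-!
Module La.  Cutting a layered set into bounded pieces.  Only Defs is used (`cN`, `cN_iter_card`, `Rch`, ...).

`X` a finset with a level function `lev` and a parent function `par`: for `v ∈ X` with `1 ≤ lev v`: `par v ∈ X`, `v ~ par v`,
`lev (par v) + 1 = lev v`; levels of adjacent vertices of `X` differ by at most one.  `hR`: each row set
`{z ∈ X : lev z = lev x0, Rch {v ∈ X, lev x0 ≤ lev v} x0 z}` has at most `R` elements.
Proof of `layer`.  For `j < m` put `D j := X.filter (fun v => 1 ≤ lev v ∧ lev v % m = j)`.  These are disjoint subsets of `X`, so some `j < m` has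
`m * |D j| ≤ |X|` (otherwise the sum over `j < m` would exceed `|X|`).  `X' := X \ D j`; `|X| = |X'| + |D j|`.
Let `Z ⊆ X'` be connected.  `Z = ∅` trivial.  Let `x0 ∈ Z` have minimal level `k` (`Finset.exists_min_image`).
(a) every `z ∈ Z` has `lev z < k + m`.  Suppose `lev z ≥ k + m`.  Every level `l` with `k ≤ l ≤ lev z` is attained on `Z`: the set of vertices
    `x` of `Z` such that all levels in `[k, lev x]` are attained on `Z` contains `x0` and is preserved along a walk in `Z` (`rch_induct`;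
    a step changes the level by at most one).  Among the `m` consecutive numbers `k+1, ..., k+m` there is one, `l`, with `l % m = j`, `1 ≤ l`; it is attained at some
    `x ∈ Z ⊆ X'`, but then `x ∈ D j`.  Contradiction.
(b) let `z ∈ Z`, `i := lev z - k`, `y := par^[i] z`.  By induction on `n ≤ i`: `par^[n] z ∈ X`, `lev (par^[n] z) + n = lev z`,
    `Rch {v ∈ X, k ≤ lev v} z (par^[n] z)`, and `z ∈ (cN G)^[n] {par^[n] z}` (`cN_mono`, iterate).  So `lev y = k`,
    `Rch {v ∈ X, k ≤ lev v} x0 y` (walk inside `Z` from `x0` to `z` — `Z ⊆ X`, levels `≥ k` — then down), i.e. `y ∈ M := ` the row set of `x0`, and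
    `z ∈ (cN G)^[m] M` as `i ≤ m` (`subset_cN`).  Hence `Z ⊆ (cN G)^[m] M` and `|Z| ≤ (d+1)^m * R` (`cN_iter_card`).
-/

set_option autoImplicit false
set_option linter.all false

namespace Pool.Agent.H67.CF

open Classical

noncomputable section

variable {V : Type*} {G : SimpleGraph V}

theorem La_iter_mono [Fintype V] (n : ℕ) {M N : Finset V} (h : M ⊆ N) :
    (cN G)^[n] M ⊆ (cN G)^[n] N := by
  induction n with
  | zero => exact h
  | succ n ih =>
    rw [Function.iterate_succ_apply', Function.iterate_succ_apply']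
    exact cN_mono ih

theorem La_iter_le [Fintype V] {i m : ℕ} (h : i ≤ m) (M : Finset V) :
    (cN G)^[i] M ⊆ (cN G)^[m] M := by
  induction m, h using Nat.le_induction with
  | base => exact fun _ hx => hx
  | succ m _ ih =>
    rw [Function.iterate_succ_apply']
    exact ih.trans subset_cN

/-- pigeonhole -/
theorem La_pigeon (X : Finset V) (lev : V → ℕ) {m : ℕ} (hm : 1 ≤ m) :
    ∃ j < m, m * (X.filter (fun v => 1 ≤ lev v ∧ lev v % m = j)).card ≤ X.card := by
  by_contra hcon
  push Not at hcon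
  have h1 : (X.filter (fun v => 1 ≤ lev v)).card =
      ∑ j ∈ Finset.range m, (X.filter (fun v => 1 ≤ lev v ∧ lev v % m = j)).card := by
    rw [Finset.card_eq_sum_card_fiberwise (f := fun v => lev v % m) (t := Finset.range m)]
    · apply Finset.sum_congr rfl
      intro j _
      rw [Finset.filter_filter]
    · intro v _
      rw [Finset.coe_range, Set.mem_Iio]
      exact Nat.mod_lt _ (by omega)
  have h2 : (X.filter (fun v => 1 ≤ lev v)).card ≤ X.card := Finset.card_filter_le _ _
  have h3 : ∑ _j ∈ Finset.range m, X.card <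
      ∑ j ∈ Finset.range m, m * (X.filter (fun v => 1 ≤ lev v ∧ lev v % m = j)).card := by
    apply Finset.sum_lt_sum_of_nonempty
    · exact ⟨0, Finset.mem_range.2 (by omega)⟩
    · intro j hj
      exact hcon j (Finset.mem_range.1 hj)
  rw [← Finset.mul_sum, ← h1, Finset.sum_const, Finset.card_range, smul_eq_mul] at h3
  exact absurd h3 (not_lt.2 (Nat.mul_le_mul_left m h2))

theorem La_exists_mod (k : ℕ) {m j : ℕ} (hj : j < m) :
    ∃ l, k + 1 ≤ l ∧ l ≤ k + m ∧ l % m = j := by
  have h1 := Nat.div_add_mod k m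
  have h2 : k % m < m := Nat.mod_lt _ (by omega)
  by_cases h : k % m < j
  · exact ⟨m * (k / m) + j, by omega, by omega, by rw [Nat.mul_add_mod, Nat.mod_eq_of_lt hj]⟩
  · refine ⟨m * (k / m + 1) + j, ?_, ?_, by rw [Nat.mul_add_mod, Nat.mod_eq_of_lt hj]⟩
    · rw [mul_add]
      omega
    · rw [mul_add]
      omega

theorem layer [Fintype V] {d : ℕ} (hdeg : ∀ v, (nb G v).card ≤ d) (X : Finset V) (lev : V → ℕ)
    (par : V → V)
    (hpar : ∀ v ∈ X, 1 ≤ lev v → par v ∈ X ∧ G.Adj v (par v) ∧ lev (par v) + 1 = lev v)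
    (hlev : ∀ u ∈ X, ∀ v ∈ X, G.Adj u v → lev v ≤ lev u + 1) (R : ℕ)
    (hR : ∀ x0 ∈ X, (X.filter (fun z => lev z = lev x0 ∧
      Rch G {v | v ∈ X ∧ lev x0 ≤ lev v} x0 z)).card ≤ R)
    {m : ℕ} (hm : 1 ≤ m) :
    ∃ X' ⊆ X, (∀ v ∈ X, lev v = 0 → v ∈ X') ∧ m * X.card ≤ m * X'.card + X.card ∧
      ∀ Z : Finset V, Z ⊆ X' → PConn G (Z : Set V) → Z.card ≤ (d + 1) ^ m * R := by
  obtain ⟨j, hj, hD⟩ := La_pigeon X lev hm
  refine ⟨X \ X.filter (fun v => 1 ≤ lev v ∧ lev v % m = j), Finset.sdiff_subset, ?_, ?_, ?_⟩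
  · intro v hv h0
    rw [Finset.mem_sdiff, Finset.mem_filter]
    refine ⟨hv, fun h => ?_⟩
    have := h.2.1
    omega
  · have h1 := Finset.card_sdiff_add_card_eq_card
      (Finset.filter_subset (fun v => 1 ≤ lev v ∧ lev v % m = j) X)
    have h2 : m * X.card = m * (X \ X.filter (fun v => 1 ≤ lev v ∧ lev v % m = j)).card +
        m * (X.filter (fun v => 1 ≤ lev v ∧ lev v % m = j)).card := by
      rw [← mul_add, h1]
    rw [h2]
    exact Nat.add_le_add_left hD _
  · intro Z hZ hconn
    have hZX : Z ⊆ X := hZ.trans Finset.sdiff_subset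
    rcases Z.eq_empty_or_nonempty with rfl | hne
    · simp
    obtain ⟨x0, hx0, hmin⟩ := Finset.exists_min_image Z lev hne
    have hx0X := hZX hx0
    have ha : ∀ z ∈ Z, lev z < lev x0 + m := by
      intro z hz
      by_contra hcon
      push Not at hcon
      have hP : ∀ l, lev x0 ≤ l → l ≤ lev z → ∃ y ∈ Z, lev y = l := by
        refine rch_induct (P := fun x => ∀ l, lev x0 ≤ l → l ≤ lev x → ∃ y ∈ Z, lev y = l)
          (hconn x0 hx0 z hz) ?_ ?_
        · intro l h1 h2
          exact ⟨x0, hx0, by omega⟩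
        · intro x y hx hxr hxy hy l h1 h2
          have hxZ : x ∈ (Z : Set V) := rch_mem' (Finset.mem_coe.2 hx0) hxr
          have h3 := hlev x (hZX (Finset.mem_coe.1 hxZ)) y (hZX (Finset.mem_coe.1 hy)) hxy
          by_cases h4 : l ≤ lev x
          · exact hx l h1 h4
          · exact ⟨y, Finset.mem_coe.1 hy, by omega⟩
      obtain ⟨l, h1, h2, h3⟩ := La_exists_mod (lev x0) hj
      obtain ⟨y, hy, hyl⟩ := hP l (by omega) (by omega)
      have h4 := hZ hy
      rw [Finset.mem_sdiff, Finset.mem_filter] at h4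
      exact h4.2 ⟨h4.1, by omega, by rw [hyl, h3]⟩
    have hb : ∀ z ∈ Z, ∀ n, n ≤ lev z - lev x0 → par^[n] z ∈ X ∧ lev (par^[n] z) + n = lev z ∧
        Rch G {v | v ∈ X ∧ lev x0 ≤ lev v} z (par^[n] z) ∧ z ∈ (cN G)^[n] {par^[n] z} := by
      intro z hz n
      induction n with
      | zero =>
        intro _
        exact ⟨hZX hz, rfl, rch_refl, Finset.mem_singleton_self z⟩
      | succ n ih =>
        intro hn
        obtain ⟨i1, i2, i3, i4⟩ := ih (by omega)
        obtain ⟨p1, p2, p3⟩ := hpar _ i1 (by omega)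
        rw [Function.iterate_succ_apply' par n z]
        refine ⟨p1, by omega, rch_tail i3 p2 ⟨p1, by omega⟩, ?_⟩
        rw [Function.iterate_succ_apply]
        refine La_iter_mono n ?_ i4
        intro w hw
        rw [Finset.mem_singleton] at hw
        rw [hw, mem_cN]
        exact Or.inr ⟨par (par^[n] z), Finset.mem_singleton_self _, p2.symm⟩
    have hsub : Z ⊆ (cN G)^[m] (X.filter (fun z => lev z = lev x0 ∧
        Rch G {v | v ∈ X ∧ lev x0 ≤ lev v} x0 z)) := by
      intro z hz
      obtain ⟨b1, b2, b3, b4⟩ := hb z hz _ le_rfl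
      have h1 := ha z hz
      have h2 := hmin z hz
      apply La_iter_le (i := lev z - lev x0) (by omega)
      refine La_iter_mono _ ?_ b4
      intro w hw
      rw [Finset.mem_singleton] at hw
      rw [hw, Finset.mem_filter]
      refine ⟨b1, by omega, rch_trans (rch_mono ?_ (hconn x0 hx0 z hz)) b3⟩
      intro x hx
      exact ⟨hZX (Finset.mem_coe.1 hx), hmin x (Finset.mem_coe.1 hx)⟩
    calc Z.card ≤ _ := Finset.card_le_card hsub
      _ ≤ _ := cN_iter_card hdeg _ m
      _ ≤ _ := Nat.mul_le_mul_left _ (hR x0 hx0X)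

end

end Pool.Agent.H67.CF
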