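import Pool.Agent.H67.CF.Defs

/-!
Module Tr.  A clique minor survives the removal of a gate vertex.  Only Defs is used.

(1) `model_remove`: let `f` be the model (branch sets `B i := f i ⊆ T`).  If no `B i` contains `x` the same sets work.  Let `x ∈ B i0`
    and `T' := T \ {x}`.  The other branch sets avoid `x`, so lie in `T'`.
    (a) there is `j0 ≠ i0` such that `B j0` contains no neighbour of `x`: otherwise choose for every `j ≠ i0` a neighbour of `x` in `B j`; the
        `B j` are disjoint, so `x` has at least `r - 1 ≥ d + 1` neighbours, contradiction (`(nb G x).card ≤ d`).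
    (b) `B i0` and `B j0` are joined by an edge `u ~ y`, `u ∈ B i0`, `y ∈ B j0`; `u ≠ x` as `y` is not a neighbour of `x`.  So `u ∈ T'`.
    (c) every vertex `z` of a branch set `B j`, `j ≠ i0`, satisfies `Rch G T' u z`: for `j = j0`: `u ~ y` and then inside `B j0 ⊆ T'`;
        for `j ≠ j0`: `B j0` and `B j` are joined by an edge, both are connected and contained in `T'`.
    (d) `B' := {z | z ∈ B i0 ∧ z ≠ x ∧ Rch G T' u z}`; `u ∈ B'`.  For `z ∈ B'` we claim `Rch G (B i0 \ {x}) u z`: `Rch G (B i0) u z`, so by `rch_or'`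
        either we are done or there are neighbours `c` (`c = u` or `c ∈ B i0 \ {x}`), `c'` of `x` in `B i0 \ {x}` with `Rch (B i0 \ {x}) u c` and
        `Rch (B i0 \ {x}) c' z`.  Then `Rch T' c c'` (`c → u → z → c'`, using `rch_symm` and `rch_mono`), so by `Loc` `c = c'` or
        `c ~ c'`, hence `Rch (B i0 \ {x}) u z`.  It follows that all vertices of the walk are in `B'` (`rch_induct`), so `Rch G B' u z`;
        hence `PConn G B'`.
    (e) for `j ≠ i0`, `B'` and `B j` are joined by an edge: `B i0` and `B j` are joined by an edge `p ~ q`, `p ∈ B i0`, `q ∈ B j`.  If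
        `p ≠ x`: `p ∈ T'`, `Rch T' u q` by (c) and `q ~ p`, so `p ∈ B'`.  If `p = x`: `q` is a neighbour of `x`, `Rch T' u q`.  By
        `rch_or'` applied to `Rch G (B i0) u x` there is `c ~ x`, `c = u ∨ c ∈ B i0 \ {x}`, `Rch (B i0 \ {x}) u c`; so `c ∈ B'`
        and `Rch T' c q`, so by `Loc` `c = q` (impossible: `B i0`, `B j` disjoint) or `c ~ q`.
    The new model is `fun i => if i = i0 then B' else B i`; disjointness since `B' ⊆ B i0`.
(2) `model_transfer`: induction on `(T \ S).card`.  If `T = S` done.  Otherwise pick `x ∈ T \ S`; `Model G r (T \ {x})` by (1); apply the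
    induction hypothesis to `T.erase x`: `Loc G (T.erase x) f` follows from `Loc G T f` by `rch_mono` (`Finset.coe_erase`).
-/

set_option autoImplicit false
set_option linter.all false

namespace Pool.Agent.H67.CF

open Classical

noncomputable section

variable {V : Type*} {G : SimpleGraph V}

/-- some branch set other than `i0` contains no neighbour of `x` -/
theorem Tr_far [Fintype V] {x : V} {d r : ℕ} (hdx : (nb G x).card ≤ d) (hr : d + 2 ≤ r)
    (B : Fin r → Set V) (hdis : ∀ i j, i ≠ j → Disjoint (B i) (B j)) (i0 : Fin r) :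
    ∃ j0, j0 ≠ i0 ∧ ∀ w ∈ B j0, ¬ G.Adj x w := by
  by_contra hcon
  push Not at hcon
  choose g hg1 hg2 using hcon
  have hinj : ∀ j j' (h : j ≠ i0) (h' : j' ≠ i0), g j h = g j' h' → j = j' := by
    intro j j' h h' heq
    by_contra hne
    have h1 := hg1 j h
    have h2 := hg1 j' h'
    rw [heq] at h1
    exact Set.disjoint_left.1 (hdis j j' hne) h1 h2
  have hcard : (Finset.univ.erase i0).card ≤ (nb G x).card := by
    refine Finset.card_le_card_of_injOn (fun j => if h : j ≠ i0 then g j h else x) ?_ ?_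
    · intro j hj
      have hj' : j ≠ i0 := (Finset.mem_erase.1 (Finset.mem_coe.1 hj)).1
      simp only [dif_pos hj', Finset.mem_coe]
      exact mem_nb.2 (hg2 j hj')
    · intro j hj j' hj' heq
      have h1 : j ≠ i0 := (Finset.mem_erase.1 (Finset.mem_coe.1 hj)).1
      have h2 : j' ≠ i0 := (Finset.mem_erase.1 (Finset.mem_coe.1 hj')).1
      simp only [dif_pos h1, dif_pos h2] at heq
      exact hinj j j' h1 h2 heq
  rw [Finset.card_erase_of_mem (Finset.mem_univ _), Finset.card_univ, Fintype.card_fin] at hcard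
  omega

theorem model_remove [Fintype V] {T : Set V} {x : V} {d r : ℕ} (hdx : (nb G x).card ≤ d)
    (hr : d + 2 ≤ r) (hloc : Loc G T x) (hm : Model G r T) : Model G r (T \ {x}) := by
  obtain ⟨B, hB1, hdis, hadj⟩ := hm
  by_cases hx : ∃ i0, x ∈ B i0
  swap
  · push Not at hx
    refine ⟨B, fun i => ⟨?_, (hB1 i).2.1, (hB1 i).2.2⟩, hdis, hadj⟩
    intro z hz
    refine ⟨(hB1 i).1 hz, ?_⟩
    intro hzx
    rw [Set.mem_singleton_iff] at hzx
    rw [hzx] at hz
    exact hx i hz
  obtain ⟨i0, hi0⟩ := hx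
  obtain ⟨j0, hj0, hfar⟩ := Tr_far hdx hr B hdis i0
  -- other branch sets lie in `T \ {x}`
  have hoth : ∀ j, j ≠ i0 → B j ⊆ T \ {x} := by
    intro j hj z hz
    refine ⟨(hB1 j).1 hz, ?_⟩
    intro hzx
    rw [Set.mem_singleton_iff] at hzx
    rw [hzx] at hz
    exact Set.disjoint_left.1 (hdis j i0 hj) hz hi0
  have hi0T : B i0 \ {x} ⊆ T \ {x} := fun z hz => ⟨(hB1 i0).1 hz.1, hz.2⟩
  obtain ⟨u, hu, y, hy, huy⟩ := hadj i0 j0 hj0.symm
  have hux : u ≠ x := by
    intro h
    rw [h] at huy
    exact hfar y hy huy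
  have huB : u ∈ B i0 \ {x} := ⟨hu, hux⟩
  have huT : u ∈ T \ {x} := hi0T huB
  -- every vertex of another branch set is reachable from `u`
  have hj0r : ∀ z ∈ B j0, Rch G (T \ {x}) u z := by
    intro z hz
    exact rch_head huy (hoth j0 hj0 hy) (rch_mono (hoth j0 hj0) ((hB1 j0).2.2 y hy z hz))
  have hjr : ∀ j, j ≠ i0 → ∀ z ∈ B j, Rch G (T \ {x}) u z := by
    intro j hj z hz
    by_cases hjj : j = j0
    · subst hjj
      exact hj0r z hz
    · obtain ⟨p, hp, q, hq, hpq⟩ := hadj j0 j (Ne.symm hjj)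
      exact rch_trans (rch_tail (hj0r p hp) hpq (hoth j hj hq))
        (rch_mono (hoth j hj) ((hB1 j).2.2 q hq z hz))
  -- the new branch set
  have hclaim : ∀ z, z ∈ B i0 → z ≠ x → Rch G (T \ {x}) u z → Rch G (B i0 \ {x}) u z := by
    intro z hz hzx hzr
    rcases rch_or' hux ((hB1 i0).2.2 u hu z hz) with ⟨_, h⟩ | ⟨⟨c, hc1, hc2, hc3⟩, h⟩
    · exact h
    · rcases h with h | ⟨c', hc1', hc2', hc3'⟩
      · exact absurd h hzx
      · have hcB : c ∈ B i0 \ {x} := by
          rcases hc2 with h | h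
          · rw [h]; exact huB
          · exact h
        have h1 : Rch G (T \ {x}) c u := rch_symm huT (rch_mono hi0T hc3)
        have h2 : Rch G (T \ {x}) z c' := rch_symm (hi0T hc2') (rch_mono hi0T hc3')
        have h3 : Rch G (T \ {x}) c c' := rch_trans h1 (rch_trans hzr h2)
        rcases hloc c c' (hi0T hcB).1 (hi0T hc2').1 hc1.symm hc1' h3 with h4 | h4
        · rw [h4] at hc3
          exact rch_trans hc3 hc3'
        · exact rch_trans (rch_tail hc3 h4 hc2') hc3'
  let B' : Set V := {z | z ∈ B i0 ∧ z ≠ x ∧ Rch G (T \ {x}) u z}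
  have huB' : u ∈ B' := ⟨hu, hux, rch_refl⟩
  have hclsB' : Cls G (B i0 \ {x}) u ⊆ B' := by
    intro z hz
    exact ⟨hz.1.1, hz.1.2, rch_mono hi0T hz.2⟩
  have hB'r : ∀ z ∈ B', Rch G B' u z := by
    intro z hz
    exact rch_mono hclsB' (rch_restrict (hclaim z hz.1 hz.2.1 hz.2.2))
  have hB'con : PConn G B' := by
    intro a ha b hb
    exact rch_trans (rch_symm huB' (hB'r a ha)) (hB'r b hb)
  have hB'sub : B' ⊆ B i0 := fun z hz => hz.1
  have hB'T : B' ⊆ T \ {x} := fun z hz => hi0T ⟨hz.1, hz.2.1⟩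
  have hB'adj : ∀ j, j ≠ i0 → ∃ p ∈ B', ∃ q ∈ B j, G.Adj p q := by
    intro j hj
    obtain ⟨p, hp, q, hq, hpq⟩ := hadj i0 j hj.symm
    have hqr : Rch G (T \ {x}) u q := hjr j hj q hq
    by_cases hpx : p = x
    · rw [hpx] at hpq
      rcases rch_or' hux ((hB1 i0).2.2 u hu x hi0) with ⟨h, _⟩ | ⟨⟨c, hc1, hc2, hc3⟩, _⟩
      · exact absurd rfl h
      · have hcB : c ∈ B i0 \ {x} := by
          rcases hc2 with h | h
          · rw [h]; exact huB
          · exact h
        have hcB' : c ∈ B' := ⟨hcB.1, hcB.2, rch_mono hi0T hc3⟩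
        have h1 : Rch G (T \ {x}) c u := rch_symm huT (rch_mono hi0T hc3)
        rcases hloc c q (hi0T hcB).1 (hoth j hj hq).1 hc1.symm hpq (rch_trans h1 hqr) with h4 | h4
        · exfalso
          rw [← h4] at hq
          exact Set.disjoint_left.1 (hdis j i0 hj) hq hcB.1
        · exact ⟨c, hcB', q, hq, h4⟩
    · exact ⟨p, ⟨hp, hpx, rch_tail hqr hpq.symm (hi0T ⟨hp, hpx⟩)⟩, q, hq, hpq⟩
  refine ⟨fun i => if i = i0 then B' else B i, ?_, ?_, ?_⟩
  · intro i
    by_cases hi : i = i0
    · simp only [if_pos hi]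
      exact ⟨hB'T, ⟨u, huB'⟩, hB'con⟩
    · simp only [if_neg hi]
      exact ⟨hoth i hi, (hB1 i).2.1, (hB1 i).2.2⟩
  · intro i j hij
    by_cases hi : i = i0
    · have hj : j ≠ i0 := fun h => hij (hi.trans h.symm)
      simp only [if_pos hi, if_neg hj]
      exact Set.disjoint_of_subset_left hB'sub (hdis i0 j hj.symm)
    · by_cases hj : j = i0
      · simp only [if_neg hi, if_pos hj]
        exact Set.disjoint_of_subset_right hB'sub (hdis i i0 hi)
      · simp only [if_neg hi, if_neg hj]
        exact hdis i j hij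
  · intro i j hij
    by_cases hi : i = i0
    · have hj : j ≠ i0 := fun h => hij (hi.trans h.symm)
      simp only [if_pos hi, if_neg hj]
      exact hB'adj j hj
    · by_cases hj : j = i0
      · simp only [if_neg hi, if_pos hj]
        obtain ⟨p, hp, q, hq, hpq⟩ := hB'adj i hi
        exact ⟨q, hq, p, hp, hpq.symm⟩
      · simp only [if_neg hi, if_neg hj]
        exact hadj i j hij

theorem model_transfer [Fintype V] {d r : ℕ} (hdeg : ∀ v, (nb G v).card ≤ d) (hr : d + 2 ≤ r)
    {S T : Finset V} (hST : S ⊆ T) (hloc : ∀ f ∈ T \ S, Loc G (T : Set V) f)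
    (hm : Model G r (T : Set V)) : Model G r (S : Set V) := by
  suffices H : ∀ n : ℕ, ∀ T : Finset V, (T \ S).card = n → S ⊆ T →
      (∀ f ∈ T \ S, Loc G (T : Set V) f) → Model G r (T : Set V) → Model G r (S : Set V) from
    H _ T rfl hST hloc hm
  intro n
  induction n with
  | zero =>
    intro T hn hST _ hm
    have h1 : T \ S = ∅ := Finset.card_eq_zero.1 hn
    have h2 : T ⊆ S := Finset.sdiff_eq_empty_iff_subset.1 h1
    rw [Finset.Subset.antisymm hST h2]
    exact hm
  | succ n ih =>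
    intro T hn hST hloc hm
    have hne : (T \ S).Nonempty := by
      rw [← Finset.card_pos]
      omega
    obtain ⟨x, hx⟩ := hne
    obtain ⟨hxT, hxS⟩ := Finset.mem_sdiff.1 hx
    have hm' : Model G r ((T.erase x : Finset V) : Set V) := by
      rw [Finset.coe_erase]
      exact model_remove (hdeg x) hr (hloc x hx) hm
    refine ih (T.erase x) ?_ ?_ ?_ hm'
    · have h1 : T.erase x \ S = (T \ S).erase x := by
        ext z
        simp only [Finset.mem_sdiff, Finset.mem_erase]
        tauto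
      rw [h1, Finset.card_erase_of_mem hx, hn]
      rfl
    · intro z hz
      refine Finset.mem_erase.2 ⟨?_, hST hz⟩
      intro h
      rw [h] at hz
      exact hxS hz
    · intro f hf a b ha hb hfa hfb hab
      obtain ⟨hf1, hf2⟩ := Finset.mem_sdiff.1 hf
      obtain ⟨hf3, hf4⟩ := Finset.mem_erase.1 hf1
      have ha' : a ∈ (T : Set V) := Finset.mem_coe.2 (Finset.mem_of_mem_erase (Finset.mem_coe.1 ha))
      have hb' : b ∈ (T : Set V) := Finset.mem_coe.2 (Finset.mem_of_mem_erase (Finset.mem_coe.1 hb))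
      refine hloc f (Finset.mem_sdiff.2 ⟨hf4, hf2⟩) a b ha' hb' hfa hfb (rch_mono ?_ hab)
      intro z hz
      exact ⟨Finset.mem_coe.2 (Finset.mem_of_mem_erase (Finset.mem_coe.1 hz.1)), hz.2⟩

end

end Pool.Agent.H67.CF
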