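import Pool.Agent.H67.CF.Defs

/-!
Module Aa.  Counting orderings `σ : V ≃ Fin N`, `N = |V|`.  Pure finite counting, no graph.

`sw a b : (V ≃ Fin N) → (V ≃ Fin N)`, `σ ↦ (Equiv.swap a b).trans σ`, is an involution (hence a bijection).
(1) `count_first`: for `a ∈ A` put `E a := univ.filter (fun σ => ∀ b ∈ A, σ a ≤ σ b)`.  For `a, a' ∈ A` the map `sw a a'` maps `E a` bijectively onto
    `E a'` (`swap a a'` maps `A` to itself), so `|E a| = |E a'|` (`Finset.card_bij` / `Finset.card_equiv`).  The sets `E a`, `a ∈ A`, are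
    pairwise disjoint (injectivity of `σ`, antisymmetry of `≤`) and cover `univ` (`Finset.exists_min_image A σ`).  So
    `|E a| * |A| = |univ| = N!` (`Finset.card_biUnion`, `Fintype.card_equiv` together with `Fintype.equivFin V`: the number of
    equivalences `V ≃ Fin N` is `N!`).
(2) `count_first2`: let `h ∈ A`, `B ⊆ A.erase h`.  For `b ∈ B` put `E' b := univ.filter (fun σ => (∀ x ∈ A, σ h ≤ σ x) ∧ ∀ y ∈ B, σ b ≤ σ y)`.
    For `b, b' ∈ B` the swap `sw b b'` maps `E' b` bijectively onto `E' b'` (it fixes `h` and maps `A` and `B` to themselves).  The sets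
    `E' b`, `b ∈ B`, are pairwise disjoint and their union is `E h`.  So `|E' b| * |B| = |E h|` and (1) gives the claim.
-/

set_option autoImplicit false
set_option linter.all false

namespace Pool.Agent.H67.CF

open Classical

noncomputable section

variable {V : Type*} [Fintype V]

private theorem Aa_swap_mem {B : Finset V} {b b' y : V} (hb : b ∈ B) (hb' : b' ∈ B) (hy : y ∈ B) :
    Equiv.swap b b' y ∈ B := by
  rw [Equiv.swap_apply_def]
  split_ifs
  · exact hb'
  · exact hb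
  · exact hy

private theorem Aa_gen (P : (V ≃ Fin (Fintype.card V)) → Prop) (B : Finset V)
    (hP : ∀ b ∈ B, ∀ b' ∈ B, ∀ σ, P σ → P ((Equiv.swap b b').trans σ)) (b : V) (hb : b ∈ B) :
    ((Finset.univ : Finset (V ≃ Fin (Fintype.card V))).filter
      (fun σ => P σ ∧ ∀ y ∈ B, σ b ≤ σ y)).card * B.card =
        ((Finset.univ : Finset (V ≃ Fin (Fintype.card V))).filter (fun σ => P σ)).card := by
  obtain ⟨E, hE⟩ : ∃ E : V → Finset (V ≃ Fin (Fintype.card V)), E = fun b =>
    Finset.univ.filter (fun σ => P σ ∧ ∀ y ∈ B, σ b ≤ σ y) := ⟨_, rfl⟩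
  have hmem : ∀ b σ, σ ∈ E b ↔ P σ ∧ ∀ y ∈ B, σ b ≤ σ y := by
    intro b σ
    rw [hE]
    simp
  have hmaps : ∀ b ∈ B, ∀ b' ∈ B, ∀ σ ∈ E b, (Equiv.swap b b').trans σ ∈ E b' := by
    intro b hb b' hb' σ hσ
    rw [hmem] at hσ ⊢
    refine ⟨hP b hb b' hb' σ hσ.1, fun y hy => ?_⟩
    rw [Equiv.trans_apply, Equiv.trans_apply, Equiv.swap_apply_right]
    exact hσ.2 _ (Aa_swap_mem hb hb' hy)
  have hle : ∀ b ∈ B, ∀ b' ∈ B, (E b).card ≤ (E b').card := by
    intro b hb b' hb'
    refine Finset.card_le_card_of_injOn (fun σ => (Equiv.swap b b').trans σ)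
      (fun σ hσ => hmaps b hb b' hb' σ hσ) ?_
    intro σ _ τ _ h
    have h1 := congrArg (fun ρ : V ≃ Fin (Fintype.card V) => (Equiv.swap b b').trans ρ) h
    simpa [← Equiv.trans_assoc] using h1
  have hdisj : ∀ x ∈ B, ∀ y ∈ B, x ≠ y → Disjoint (E x) (E y) := by
    intro x hx y hy hxy
    rw [Finset.disjoint_left]
    intro σ h1 h2
    rw [hmem] at h1 h2
    exact hxy (σ.injective (le_antisymm (h1.2 y hy) (h2.2 x hx)))
  have hun : B.biUnion E = Finset.univ.filter (fun σ => P σ) := by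
    ext σ
    rw [Finset.mem_biUnion, Finset.mem_filter]
    constructor
    · rintro ⟨x, _, hx⟩
      exact ⟨Finset.mem_univ _, ((hmem x σ).1 hx).1⟩
    · rintro ⟨_, h⟩
      obtain ⟨x, hx, hx2⟩ := Finset.exists_min_image B σ ⟨b, hb⟩
      exact ⟨x, hx, (hmem x σ).2 ⟨h, hx2⟩⟩
  have hcard := Finset.card_biUnion hdisj
  rw [hun] at hcard
  have hconst : ∀ x ∈ B, (E x).card = (E b).card := fun x hx =>
    le_antisymm (hle x hx b hb) (hle b hb x hx)
  rw [hcard, Finset.sum_congr rfl hconst, Finset.sum_const, smul_eq_mul, mul_comm, hE]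

theorem count_first (A : Finset V) (a : V) (ha : a ∈ A) :
    ((Finset.univ : Finset (V ≃ Fin (Fintype.card V))).filter
      (fun σ => ∀ b ∈ A, σ a ≤ σ b)).card * A.card = (Fintype.card V).factorial := by
  have h := Aa_gen (fun _ => True) A (fun _ _ _ _ _ _ => trivial) a ha
  simp only [true_and, Finset.filter_true, Finset.card_univ] at h
  rw [h, Fintype.card_equiv (Fintype.equivFin V)]

theorem count_first2 (A B : Finset V) (h : V) (hh : h ∈ A) (hB : B ⊆ A.erase h) (b : V)
    (hb : b ∈ B) :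
    ((Finset.univ : Finset (V ≃ Fin (Fintype.card V))).filter
      (fun σ => (∀ x ∈ A, σ h ≤ σ x) ∧ ∀ y ∈ B, σ b ≤ σ y)).card * (A.card * B.card) =
        (Fintype.card V).factorial := by
  have hBA : ∀ x ∈ B, x ∈ A := fun x hx => Finset.mem_of_mem_erase (hB hx)
  have hBh : ∀ x ∈ B, x ≠ h := fun x hx => Finset.ne_of_mem_erase (hB hx)
  have h1 := Aa_gen (fun σ => ∀ x ∈ A, σ h ≤ σ x) B (fun c hc c' hc' σ hσ x hx => by
    rw [Equiv.trans_apply, Equiv.trans_apply,
      Equiv.swap_apply_of_ne_of_ne (hBh c hc).symm (hBh c' hc').symm]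
    exact hσ _ (Aa_swap_mem (hBA c hc) (hBA c' hc') hx)) b hb
  have h2 := count_first A h hh
  rw [← h2, mul_comm A.card, ← mul_assoc]
  congr 1
  convert h1

end

end Pool.Agent.H67.CF
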