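import Pool.Agent.H67.CF.Defs

/-!
Module Ab.  The local inequality.  Only Defs is used (`wt`, `nb`, `mem_nb`, `ClawFree`).

(1) `wt_anti`: `a/2 ≤ b/2`, `(a+1)/2 ≤ (b+1)/2` and `one_div_le_one_div_of_le`.
(2) `wt_le_one`: by (1) it suffices that `wt 2 = 1/2 + 1/2 = 1`.
(3) `wt_pos`: sum of two positive terms.
(4) `triangle_free_sum`: let `N` be a finset and `H` a symmetric irreflexive relation on `N` without triangle; `x h := |{u ∈ N | H h u}|`,
    `δ := |N|`.  Then `∑_{h ∈ N} x h ≤ 2 * (δ^2 / 4)` (natural division).  Proof.  For `H h u` the sets `{w | H h w}` and `{w | H u w}`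
    are disjoint, so `x h + x u ≤ δ`.  Summing over the ordered pairs `(h, u)` with `H h u`, and using symmetry:
    `2 ∑_h x_h^2 = ∑_{(h,u), H h u} (x_h + x_u) ≤ δ ∑_h x_h`.  Cauchy-Schwarz (`inner_mul_le_norm_mul_norm` or
    `Finset.sum_mul_sq_le_sq_mul_sq`, `sq_sum_le_card_mul_sum_sq`): `(∑ x_h)^2 ≤ δ ∑ x_h^2`.  So with `s := ∑ x_h`: `2 s^2 ≤ δ^2 s`, i.e.
    `2 s ≤ δ^2` (also if `s = 0`).  `s` is even, since it counts the ordered pairs of a symmetric irreflexive relation (or: `s` is twice the number of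
    edges of a `SimpleGraph`, `SimpleGraph.sum_degrees_eq_twice_card_edges`; Mathlib may also contain Mantel's theorem as the case
    `r = 2` of Turan's theorem).  `s = 2 e`, `4 e ≤ δ^2`, so `e ≤ δ^2/4`.
(5) `secant`: for natural numbers `k, x`: `1/(1+x) ≥ 1/(k+1) - (x-k)/((k+1)(k+2))` (reals).  Clear denominators: equivalent to
    `(k+1)(k+2) ≥ (1+x)(k+2) - (x-k)(1+x)`, i.e. `(x - k)(x - k - 1) ≥ 0`, true for integers
    (`(k+1)(k+2) - (1+x)(k+2) + (x-k)(1+x) = (k+2)(k-x) + (x-k)(1+x) = (x-k)(x-k-1)`).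
(6) `local_ineq`: `N := nb G v`, `δ := |N|`, `H h u := u ≠ h ∧ ¬ G.Adj h u` on `N`: a triangle of `H` would be a claw at `v`.  With
    `k := δ/2` sum (5) over `h ∈ N` and use (4):
    `∑ 1/(1+x_h) ≥ δ/(k+1) - (2 (δ^2/4) - k δ)/((k+1)(k+2))`.
    `δ = 2k`: `δ^2/4 = k^2`, the right hand side is `2k/(k+1)`, and `(δ+1) wt δ - 2 = 2(2k+1)/(k+1) - 2 = 2k/(k+1)`.
    `δ = 2k+1`: `δ^2/4 = k^2+k`, right hand side `((2k+1)(k+2) - k)/((k+1)(k+2)) = 2(k+1)/(k+2)`, and
    `(δ+1) wt δ - 2 = (2k+2)(1/(k+1) + 1/(k+2)) - 2 = 2(k+1)/(k+2)`.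
-/

set_option autoImplicit false
set_option linter.all false

namespace Pool.Agent.H67.CF

open Classical

noncomputable section

variable {V : Type*} {G : SimpleGraph V}

theorem wt_anti {a b : ℕ} (h : a ≤ b) : wt b ≤ wt a := by
  unfold wt
  have h1 : ((a / 2 : ℕ) : ℝ) ≤ ((b / 2 : ℕ) : ℝ) := by exact_mod_cast Nat.div_le_div_right h
  have h2 : (((a + 1) / 2 : ℕ) : ℝ) ≤ (((b + 1) / 2 : ℕ) : ℝ) := by
    exact_mod_cast Nat.div_le_div_right (by omega : a + 1 ≤ b + 1)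
  have h3 : (0 : ℝ) ≤ ((a / 2 : ℕ) : ℝ) := Nat.cast_nonneg _
  have h4 : (0 : ℝ) ≤ (((a + 1) / 2 : ℕ) : ℝ) := Nat.cast_nonneg _
  have h5 := one_div_le_one_div_of_le (by linarith : (0 : ℝ) < ((a / 2 : ℕ) : ℝ) + 1)
    (by linarith : ((a / 2 : ℕ) : ℝ) + 1 ≤ ((b / 2 : ℕ) : ℝ) + 1)
  have h6 := one_div_le_one_div_of_le (by linarith : (0 : ℝ) < (((a + 1) / 2 : ℕ) : ℝ) + 1)
    (by linarith : (((a + 1) / 2 : ℕ) : ℝ) + 1 ≤ (((b + 1) / 2 : ℕ) : ℝ) + 1)
  linarith

theorem wt_le_one {d : ℕ} (h : 2 ≤ d) : wt d ≤ 1 := by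
  refine (wt_anti h).trans ?_
  unfold wt
  norm_num

theorem wt_pos (d : ℕ) : 0 < wt d := by
  unfold wt
  positivity

theorem ab_even_sum (N : Finset V) (H : V → V → Prop) (hs : ∀ a b, H a b → H b a)
    (hi : ∀ a, ¬ H a a) :
    Even (∑ h ∈ N, (N.filter (fun u => H h u)).card) := by
  let K : SimpleGraph N :=
    { Adj := fun a b => H a b
      symm := ⟨fun a b h => hs a b h⟩
      loopless := ⟨fun a h => hi a h⟩ }
  have h1 : ∀ h : N, (N.filter (fun u => H h u)).card = K.degree h := by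
    intro h
    rw [← SimpleGraph.card_neighborFinset_eq_degree]
    symm
    apply Finset.card_bij (fun (u : N) _ => (u : V))
    · intro u hu
      rw [SimpleGraph.mem_neighborFinset] at hu
      exact Finset.mem_filter.2 ⟨u.2, hu⟩
    · intro a _ b _ hab
      exact Subtype.ext hab
    · intro u hu
      obtain ⟨hu1, hu2⟩ := Finset.mem_filter.1 hu
      exact ⟨⟨u, hu1⟩, by rw [SimpleGraph.mem_neighborFinset]; exact hu2, rfl⟩
  have h2 : ∑ h ∈ N, (N.filter (fun u => H h u)).card = ∑ h : N, K.degree h := by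
    rw [← Finset.sum_coe_sort N]
    exact Finset.sum_congr rfl (fun h _ => h1 h)
  rw [h2, SimpleGraph.sum_degrees_eq_twice_card_edges]
  exact even_two_mul _

theorem ab_sum_sq_eq (N : Finset V) (H : V → V → Prop) (hs : ∀ a b, H a b → H b a) :
    ∑ h ∈ N, ∑ u ∈ N.filter (fun u => H h u), (N.filter (fun w => H u w)).card =
      ∑ h ∈ N, (N.filter (fun u => H h u)).card ^ 2 := by
  have h1 : ∑ h ∈ N, ∑ u ∈ N.filter (fun u => H h u), (N.filter (fun w => H u w)).card =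
      ∑ u ∈ N, ∑ h ∈ N.filter (fun h => H u h), (N.filter (fun w => H u w)).card := by
    simp_rw [Finset.sum_filter]
    rw [Finset.sum_comm]
    refine Finset.sum_congr rfl (fun u _ => Finset.sum_congr rfl (fun h _ => ?_))
    by_cases hh : H u h
    · rw [if_pos hh, if_pos (hs _ _ hh)]
    · rw [if_neg hh, if_neg (fun h' => hh (hs _ _ h'))]
  rw [h1]
  refine Finset.sum_congr rfl (fun u _ => ?_)
  rw [Finset.sum_const, smul_eq_mul, pow_two]

theorem triangle_free_sum (N : Finset V) (H : V → V → Prop) (hs : ∀ a b, H a b → H b a)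
    (hi : ∀ a, ¬ H a a)
    (ht : ∀ a ∈ N, ∀ b ∈ N, ∀ c ∈ N, H a b → H b c → H a c → False) :
    ∑ h ∈ N, (N.filter (fun u => H h u)).card ≤ 2 * (N.card ^ 2 / 4) := by
  set x : V → ℕ := fun h => (N.filter (fun u => H h u)).card with hx
  have h1 : ∀ h ∈ N, ∀ u ∈ N.filter (fun u => H h u), x h + x u ≤ N.card := by
    intro h hh u hu
    obtain ⟨hu1, hu2⟩ := Finset.mem_filter.1 hu
    rw [← Finset.card_union_of_disjoint]
    · exact Finset.card_le_card (Finset.union_subset (Finset.filter_subset _ _)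
        (Finset.filter_subset _ _))
    · rw [Finset.disjoint_left]
      intro w hw1 hw2
      obtain ⟨hw1, hw3⟩ := Finset.mem_filter.1 hw1
      obtain ⟨_, hw4⟩ := Finset.mem_filter.1 hw2
      exact ht h hh u hu1 w hw1 hu2 hw4 hw3
  have h2 : ∑ h ∈ N, ∑ u ∈ N.filter (fun u => H h u), (x h + x u) = 2 * ∑ h ∈ N, x h ^ 2 := by
    have h3 : ∑ h ∈ N, ∑ u ∈ N.filter (fun u => H h u), x h = ∑ h ∈ N, x h ^ 2 := by
      refine Finset.sum_congr rfl (fun u _ => ?_)
      rw [Finset.sum_const, smul_eq_mul, pow_two]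
    simp_rw [Finset.sum_add_distrib]
    rw [h3, ab_sum_sq_eq N H hs]
    ring
  have h3 : ∑ h ∈ N, ∑ u ∈ N.filter (fun u => H h u), (x h + x u) ≤ N.card * ∑ h ∈ N, x h := by
    rw [Finset.mul_sum]
    refine Finset.sum_le_sum (fun h hh => ?_)
    calc ∑ u ∈ N.filter (fun u => H h u), (x h + x u)
        ≤ ∑ u ∈ N.filter (fun u => H h u), N.card := Finset.sum_le_sum (h1 h hh)
      _ = N.card * x h := by rw [Finset.sum_const, smul_eq_mul, mul_comm]
  have h4 : (∑ h ∈ N, x h) ^ 2 ≤ N.card * ∑ h ∈ N, x h ^ 2 := sq_sum_le_card_mul_sum_sq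
  set s := ∑ h ∈ N, x h with hsd
  have h5 : 2 * s ≤ N.card ^ 2 := by
    rcases Nat.eq_zero_or_pos s with h0 | h0
    · rw [h0]; positivity
    · have h6 : 2 * s ^ 2 ≤ N.card * (N.card * s) := by
        calc 2 * s ^ 2 ≤ 2 * (N.card * ∑ h ∈ N, x h ^ 2) := Nat.mul_le_mul_left _ h4
          _ = N.card * (2 * ∑ h ∈ N, x h ^ 2) := by ring
          _ ≤ N.card * (N.card * s) := Nat.mul_le_mul_left _ (h2 ▸ h3)
      have h7 : (2 * s) * s ≤ (N.card ^ 2) * s := by
        calc (2 * s) * s = 2 * s ^ 2 := by ring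
          _ ≤ _ := h6
          _ = _ := by ring
      exact Nat.le_of_mul_le_mul_right h7 h0
  obtain ⟨e, he⟩ := ab_even_sum N H hs hi
  have he' : s = e + e := he
  have h8 : e ≤ N.card ^ 2 / 4 := by
    rw [Nat.le_div_iff_mul_le (by norm_num)]
    omega
  omega

theorem secant (k x : ℕ) :
    (1 : ℝ) / (k + 1) - ((x : ℝ) - k) / (((k : ℝ) + 1) * (k + 2)) ≤ 1 / (1 + (x : ℝ)) := by
  have hk : (0 : ℝ) ≤ k := Nat.cast_nonneg _
  have hx : (0 : ℝ) ≤ x := Nat.cast_nonneg _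
  have h1 : (0 : ℝ) ≤ ((x : ℝ) - k) * ((x : ℝ) - k - 1) := by
    rcases Nat.lt_or_ge k x with h | h
    · have h2 : (k : ℝ) + 1 ≤ x := by exact_mod_cast h
      exact mul_nonneg (by linarith) (by linarith)
    · have h2 : (x : ℝ) ≤ k := by exact_mod_cast h
      nlinarith
  rw [div_sub_div _ _ (by positivity) (by positivity), div_le_div_iff₀ (by positivity)
    (by positivity)]
  have h2 : (1 * (((k : ℝ) + 1) * (k + 2)) - (k + 1) * ((x : ℝ) - k)) * (1 + x) =
      (k + 1) * (((k + 2) - ((x : ℝ) - k)) * (1 + x)) := by ring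
  have h3 : 1 * (((k : ℝ) + 1) * (((k : ℝ) + 1) * (k + 2))) =
      (k + 1) * ((k + 1) * (k + 2)) := by ring
  rw [h2, h3]
  apply mul_le_mul_of_nonneg_left _ (by linarith)
  nlinarith

theorem local_ineq [Fintype V] (hc : ClawFree G) (v : V) :
    (((nb G v).card : ℝ) + 1) * wt (nb G v).card - 2 ≤
      ∑ h ∈ nb G v, 1 / (1 + (((nb G v).filter (fun u => u ≠ h ∧ ¬ G.Adj h u)).card : ℝ)) := by
  set N := nb G v with hN
  set δ := N.card with hδ
  set H : V → V → Prop := fun h u => u ≠ h ∧ ¬ G.Adj h u with hH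
  have h1 := triangle_free_sum N H (fun a b h => ⟨h.1.symm, fun h' => h.2 h'.symm⟩)
    (fun a h => h.1 rfl) (by
      intro a ha b hb c hcc hab hbc hac
      rcases hc v a b c (mem_nb.1 ha) (mem_nb.1 hb) (mem_nb.1 hcc) hab.1.symm hac.1.symm
        hbc.1.symm with h | h | h
      · exact hab.2 h
      · exact hac.2 h
      · exact hbc.2 h)
  set k := δ / 2 with hk
  have h2 : ∑ h ∈ N, ((1 : ℝ) / (k + 1) - (((N.filter (fun u => H h u)).card : ℝ) - k) /
      (((k : ℝ) + 1) * (k + 2))) ≤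
      ∑ h ∈ N, 1 / (1 + ((N.filter (fun u => H h u)).card : ℝ)) :=
    Finset.sum_le_sum (fun h _ => secant k _)
  refine le_trans ?_ h2
  rw [Finset.sum_sub_distrib, Finset.sum_const, ← Finset.sum_div, Finset.sum_sub_distrib,
    Finset.sum_const, nsmul_eq_mul, nsmul_eq_mul, ← hδ]
  have h3 : (∑ h ∈ N, ((N.filter (fun u => H h u)).card : ℝ)) ≤ 2 * ((δ ^ 2 / 4 : ℕ) : ℝ) := by
    have := h1
    have h4 : ((∑ h ∈ N, (N.filter (fun u => H h u)).card : ℕ) : ℝ) ≤
        ((2 * (δ ^ 2 / 4) : ℕ) : ℝ) := by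
      refine Nat.cast_le.2 (le_trans (le_of_eq ?_) this)
      refine Finset.sum_congr rfl (fun h _ => ?_)
      congr
    rw [Nat.cast_sum, Nat.cast_mul] at h4
    exact h4
  have hk0 : (0 : ℝ) ≤ k := Nat.cast_nonneg _
  have h5 : ((∑ h ∈ N, ((N.filter (fun u => H h u)).card : ℝ)) - δ * k) /
      (((k : ℝ) + 1) * (k + 2)) ≤ (2 * ((δ ^ 2 / 4 : ℕ) : ℝ) - δ * k) /
      (((k : ℝ) + 1) * (k + 2)) := by
    apply div_le_div_of_nonneg_right _ (by positivity)
    linarith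
  refine le_trans ?_ (sub_le_sub_left h5 _)
  unfold wt
  rcases Nat.even_or_odd' δ with ⟨m, hm | hm⟩
  · have e1 : k = m := by omega
    have e2 : δ / 2 = m := by omega
    have e3 : (δ + 1) / 2 = m := by omega
    have e4 : δ ^ 2 / 4 = m ^ 2 := by
      rw [hm, mul_pow]
      norm_num
    rw [e2, e3, e4, e1, hm]
    push_cast
    have hm0 : (0 : ℝ) ≤ m := Nat.cast_nonneg _
    apply le_of_eq
    field_simp
    ring
  · have e1 : k = m := by omega
    have e2 : δ / 2 = m := by omega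
    have e3 : (δ + 1) / 2 = m + 1 := by omega
    have e4 : δ ^ 2 / 4 = m ^ 2 + m := by
      rw [hm]
      have : (2 * m + 1) ^ 2 = 4 * (m ^ 2 + m) + 1 := by ring
      rw [this]
      omega
    rw [e2, e3, e4, e1, hm]
    push_cast
    have hm0 : (0 : ℝ) ≤ m := Nat.cast_nonneg _
    have hm1 : (m : ℝ) + 1 + 1 ≠ 0 := by positivity
    apply le_of_eq
    field_simp
    ring

end

end Pool.Agent.H67.CF
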