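import Pool.Agent.H67.CF.Defs

/-!
Module Oa.  Heads and depths in a claw-free graph.  `o : V ↪ ℕ` is an ordering; `hd v` is the `o`-first vertex of the closed
neighbourhood of `v`; `Good v`: every smaller neighbour of `v` is `hd v` or adjacent to `hd v`.  Available (Defs):
`hd_or hd_adj hd_le_self hd_le hd_lt_self hd_lt hd_eq_of dep_root dep_succ dep_eq_zero dep_hd dep_iter dep_anc anc_self anc_hd`.
Write `h = hd v` etc.; smaller means `o`-smaller; the order is total and injective.

(1) `good_root`: if `hd v = v` there is no smaller neighbour (`hd_le`).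
(2) `good_hd`: let `h = hd v`.  If `h = v` use (1).  Otherwise `v ~ h`, `o h < o v`.  Suppose `u ~ h`, `o u < o h`, `g := hd h ≠ u`,
    `¬ g ~ u`.  `o g ≤ o u` (`hd_le`), so `g ≠ h`, `g ~ h`; `g ≠ u`; `v ≠ u`, `v ≠ g` (orders).  Claw-freeness at `h` with leaves
    `v, u, g`: `v ~ u` contradicts `o h ≤ o u` (`hd_le` for `v`), `v ~ g` contradicts `o h ≤ o g`, `u ~ g` is excluded.
(3) `good_iter`, `good_anc`: induction from (2) (`Function.iterate_succ_apply'`).
(4) `dep_adj`: strong induction on `o v`.  `v` has the smaller neighbour `u`, so `hd v ≠ v` and `dep v = dep (hd v) + 1`.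
    `Good v` gives `u = hd v` (done) or `hd v ~ u`; then `o (hd v) < o u` (`hd_lt`), `hd v` is good by (2), and the induction
    hypothesis for the pair `(hd v, u)` gives `dep (hd v) ≤ dep u ≤ dep (hd v) + 1`; so `dep u ≤ dep v ≤ dep u + 1`.
(5) `dep_near`: (4) for whichever of `u, v` is smaller (`dep v ≤ dep u + 1` in both cases).
(6) `hd_near`: trivial if `u = v`.  WLOG `o u < o v` (the other case is symmetric).  `Good v`: `u = hd v` or `hd v ~ u`.
    If `u = hd v`: `hd_or` for `u` : `hd u = u = hd v` or `u ~ hd u`.  If `hd v ~ u`: `o (hd v) < o u`, and `Good u` gives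
    `hd v = hd u` or `hd u ~ hd v`.
(7) `anc_near`: case `u = v` trivial.  First let `dep u = dep v`: by induction on `n`, `hd^[n] u` and `hd^[n] v` are equal or
    adjacent, by (6) and (3).  WLOG (symmetry) `o u < o v`; by (4) the remaining case is `dep v = dep u + 1`.  Then `k < dep v`, so
    `anc k v = anc k (hd v)` (`anc_hd`), `hd v` is good, `dep (hd v) = dep u`, and `u = hd v` or `hd v ~ u` by `Good v`: the first
    case applies to the pair `u, hd v`.
(8) `root_unique`: along a walk in the good vertices `anc 0 · = a` is preserved: `anc 0 a = a` (`anc_self`); if `x ~ y` are good then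
    `anc 0 x`, `anc 0 y` are equal or adjacent (7); both have depth `0` (`dep_anc`), i.e. are roots (`dep_eq_zero`), and two
    adjacent roots `p ~ q` are impossible: `o p = o (hd p) ≤ o q` and `o q ≤ o p`, so `p = q` by injectivity, contradicting
    `G.ne_of_adj`.  Use `rch_induct` (with `x` good known: `a` is good by (1), the others lie in the set).  At the end
    `b = anc 0 b = a`.
-/

set_option autoImplicit false
set_option linter.all false

namespace Pool.Agent.H67.CF

open Classical

noncomputable section

variable {V : Type*} {G : SimpleGraph V} {o : V ↪ ℕ} {u v : V}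

theorem good_root (h : hd G o v = v) : Good G o v := by
  intro u hvu hlt
  have h1 := hd_le (o := o) hvu
  rw [h] at h1
  omega

theorem good_hd (hc : ClawFree G) (v : V) : Good G o (hd G o v) := by
  by_cases hh : hd G o v = v
  · rw [hh]
    exact good_root hh
  · intro u hu hlt
    by_contra hcon
    rw [not_or] at hcon
    obtain ⟨hug, hgu⟩ := hcon
    have h1 := hd_le (o := o) hu
    have hgh : hd G o (hd G o v) ≠ hd G o v := by
      intro e
      rw [e] at h1
      omega
    have h2 := hd_adj hgh
    have h3 := hd_adj hh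
    have h4 := hd_lt_self hh
    have hvu : v ≠ u := by
      rintro rfl
      omega
    have hvg : v ≠ hd G o (hd G o v) := by
      intro e
      rw [← e] at h1
      omega
    rcases hc (hd G o v) v u (hd G o (hd G o v)) h3.symm hu h2 hvu hvg hug with h | h | h
    · have := hd_le (o := o) h
      omega
    · have := hd_le (o := o) h
      omega
    · exact hgu h.symm

theorem good_iter (hc : ClawFree G) (hv : Good G o v) (n : ℕ) : Good G o ((hd G o)^[n] v) := by
  induction n with
  | zero => exact hv
  | succ n ih =>
    rw [Function.iterate_succ_apply']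
    exact good_hd hc _

theorem good_anc (hc : ClawFree G) (hv : Good G o v) (k : ℕ) : Good G o (anc G o k v) :=
  good_iter hc hv _

theorem Oa_dep_adj (hc : ClawFree G) (n : ℕ) : ∀ u v : V, o v = n → Good G o u → Good G o v →
    G.Adj u v → o u < o v → dep G o u ≤ dep G o v ∧ dep G o v ≤ dep G o u + 1 := by
  induction n using Nat.strong_induction_on with
  | _ n ih =>
    intro u v hn hu hv h ho
    have h1 := hd_le (o := o) h.symm
    have hne : hd G o v ≠ v := by
      intro e
      rw [e] at h1
      omega
    have h2 := dep_succ hne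
    rcases hv u h.symm ho with e | e
    · rw [h2, ← e]
      omega
    · have h3 := hd_lt (o := o) h.symm e.ne
      have h4 := ih (o u) (by omega) (hd G o v) u rfl (good_hd hc v) hu e h3
      omega

theorem dep_adj (hc : ClawFree G) (hu : Good G o u) (hv : Good G o v) (h : G.Adj u v)
    (ho : o u < o v) : dep G o u ≤ dep G o v ∧ dep G o v ≤ dep G o u + 1 :=
  Oa_dep_adj hc (o v) u v rfl hu hv h ho

theorem dep_near (hc : ClawFree G) (hu : Good G o u) (hv : Good G o v) (h : G.Adj u v) :
    dep G o v ≤ dep G o u + 1 := by
  rcases lt_trichotomy (o u) (o v) with h1 | h1 | h1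
  · exact (dep_adj hc hu hv h h1).2
  · exact absurd (o.injective h1) h.ne
  · have := (dep_adj hc hv hu h.symm h1).1
    omega

theorem Oa_hd_near (hu : Good G o u) (hv : Good G o v) (h : G.Adj u v) (ho : o u < o v) :
    hd G o u = hd G o v ∨ G.Adj (hd G o u) (hd G o v) := by
  rcases hv u h.symm ho with e | e
  · by_cases hh : hd G o u = u
    · left
      rw [hh]
      exact e
    · right
      rw [← e]
      exact (hd_adj hh).symm
  · have h1 := hd_lt (o := o) h.symm e.ne
    rcases hu (hd G o v) e.symm h1 with h2 | h2
    · exact Or.inl h2.symm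
    · exact Or.inr h2

theorem hd_near (hc : ClawFree G) (hu : Good G o u) (hv : Good G o v) (h : u = v ∨ G.Adj u v) :
    hd G o u = hd G o v ∨ G.Adj (hd G o u) (hd G o v) := by
  rcases h with rfl | h
  · exact Or.inl rfl
  rcases lt_trichotomy (o u) (o v) with h1 | h1 | h1
  · exact Oa_hd_near hu hv h h1
  · exact absurd (o.injective h1) h.ne
  · rcases Oa_hd_near hv hu h.symm h1 with h2 | h2
    · exact Or.inl h2.symm
    · exact Or.inr h2.symm

theorem Oa_iter_near (hc : ClawFree G) (hu : Good G o u) (hv : Good G o v)
    (h : u = v ∨ G.Adj u v) (n : ℕ) :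
    (hd G o)^[n] u = (hd G o)^[n] v ∨ G.Adj ((hd G o)^[n] u) ((hd G o)^[n] v) := by
  induction n with
  | zero => exact h
  | succ n ih =>
    rw [Function.iterate_succ_apply', Function.iterate_succ_apply']
    exact hd_near hc (good_iter hc hu n) (good_iter hc hv n) ih

theorem Oa_anc_same (hc : ClawFree G) (hu : Good G o u) (hv : Good G o v)
    (h : u = v ∨ G.Adj u v) (k : ℕ) (hd : dep G o u = dep G o v) :
    anc G o k u = anc G o k v ∨ G.Adj (anc G o k u) (anc G o k v) := by
  unfold anc
  rw [hd]
  exact Oa_iter_near hc hu hv h _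

theorem Oa_anc_near (hc : ClawFree G) (hu : Good G o u) (hv : Good G o v) (h : G.Adj u v)
    (ho : o u < o v) {k : ℕ} (h1 : k ≤ dep G o u) :
    anc G o k u = anc G o k v ∨ G.Adj (anc G o k u) (anc G o k v) := by
  have h3 := dep_adj hc hu hv h ho
  by_cases hd' : dep G o u = dep G o v
  · exact Oa_anc_same hc hu hv (Or.inr h) k hd'
  · have h4 : k < dep G o v := by omega
    rw [← anc_hd h4]
    have h5 := dep_hd (G := G) (o := o) (v := v) (by omega)
    refine Oa_anc_same hc hu (good_hd hc v) ?_ k (by omega)
    rcases hv u h.symm ho with e | e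
    · exact Or.inl e
    · exact Or.inr e.symm

theorem anc_near (hc : ClawFree G) (hu : Good G o u) (hv : Good G o v) (h : u = v ∨ G.Adj u v)
    {k : ℕ} (h1 : k ≤ dep G o u) (h2 : k ≤ dep G o v) :
    anc G o k u = anc G o k v ∨ G.Adj (anc G o k u) (anc G o k v) := by
  rcases h with rfl | h
  · exact Or.inl rfl
  rcases lt_trichotomy (o u) (o v) with h3 | h3 | h3
  · exact Oa_anc_near hc hu hv h h3 h1
  · exact absurd (o.injective h3) h.ne
  · rcases Oa_anc_near hc hv hu h.symm h3 h2 with h4 | h4
    · exact Or.inl h4.symm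
    · exact Or.inr h4.symm

theorem root_unique (hc : ClawFree G) {a b : V} (ha : hd G o a = a) (hb : hd G o b = b)
    (h : Rch G {v | Good G o v} a b) : a = b := by
  have key : Good G o b ∧ anc G o 0 b = a := by
    refine rch_induct (P := fun x => Good G o x ∧ anc G o 0 x = a) h ?_ ?_
    · exact ⟨good_root ha, anc_self (dep_root ha)⟩
    · rintro x y ⟨hx, hxa⟩ _ hxy hy
      refine ⟨hy, ?_⟩
      rcases anc_near hc hx hy (Or.inr hxy) (Nat.zero_le _) (Nat.zero_le _) with h1 | h1
      · rw [← h1, hxa]
      · exfalso
        rw [hxa] at h1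
        have hq : hd G o (anc G o 0 y) = anc G o 0 y :=
          dep_eq_zero.1 (dep_anc (Nat.zero_le _))
        have h2 := hd_le (o := o) h1
        have h3 := hd_le (o := o) h1.symm
        rw [ha] at h2
        rw [hq] at h3
        exact h1.ne (o.injective (le_antisymm h2 h3))
  have h1 : anc G o 0 b = b := anc_self (dep_root hb)
  rw [← key.2, h1]

end

end Pool.Agent.H67.CF
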