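import Pool.Agent.H67.CF.Aa
import Pool.Agent.H67.CF.Ab
import Pool.Agent.H67.CF.Oa

/-!
Module Ac.  The averaging argument.  Use only the STATEMENTS of Aa, Ab, Oa (and Defs).

`N := |V|`.  For `σ : V ≃ Fin N` let `ord σ : V ↪ ℕ` be `v ↦ (σ v : ℕ)`.  `A v := insert v (nb G v)` (closed neighbourhood, `|A v| = δ + 1`,
`δ := |nb G v|`), `B v h := insert v ((nb G v).filter (fun u => u ≠ h ∧ ¬ G.Adj h u))` (`|B v h| = 1 + x_h`, `v ∉ nb G v`).
(1) `hd (ord σ) v = v` if `σ v ≤ σ b` for all `b ∈ A v` (`hd_eq_of`); such `σ` are counted by `count_first`: their number times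
    `(δ + 1)` is `N!`.
(2) Let `h ∈ nb G v`, `σ h ≤ σ x` for all `x ∈ A v` and `σ v ≤ σ y` for all `y ∈ B v h`.  Then `hd (ord σ) v = h` (`hd_eq_of`), and `v` is good: a
    neighbour `u` of `v` with `σ u < σ v` is not in `B v h`, so `u = h` or `G.Adj h u`.  `B v h ⊆ (A v).erase h`.  So by `count_first2`
    the number of such `σ` times `(δ+1)(1+x_h)` is `N!`.  For different `h` these events are disjoint (`hd = h`), and disjoint from (1) (`h ≠ v`).
(3) For every `v`: `N! * (2/(δ+1) + ∑_{h ∈ nb G v} (1/(δ+1)) (1/(1+x_h))) ≤ ∑_σ ([Good v] + [hd v = v])` where the brackets are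
    `if .. then (1:ℝ) else 0`: indeed `∑_σ [hd v = v] ≥ N!/(δ+1)` and `∑_σ [Good v] ≥ N!/(δ+1) + ∑_h N!/((δ+1)(1+x_h))` (roots are good,
    `good_root`; disjoint events).  By `local_ineq` the left side is at least `N! * wt δ`.
(4) `avg`: sum (3) over `v ∈ K` and exchange sums: `∑_σ (|K.filter (Good (ord σ))| + |K.filter (hd (ord σ) v = v)|) ≥ N! ∑_{v ∈ K} wt`.  The number
    of `σ` is `N!`, so some `σ` has `|..| + |..| ≥ ∑_{v ∈ K} wt` (`Finset.exists_le_of_sum_le` or by contradiction with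
    `Finset.sum_lt_sum_of_nonempty`; `univ` is nonempty: `Fintype.equivFin V`).
(5) `avg'`: `wt d ≤ wt (nb G v).card` by `wt_anti`.
-/

set_option autoImplicit false
set_option linter.all false

namespace Pool.Agent.H67.CF

open Classical

noncomputable section

variable {V : Type*} {G : SimpleGraph V}

/-- the ordering of `σ` -/
def Ac_ord [Fintype V] (σ : V ≃ Fin (Fintype.card V)) : V ↪ ℕ :=
  ⟨fun v => (σ v : ℕ), fun a b h => σ.injective (Fin.ext h)⟩

theorem Ac_ord_le [Fintype V] {σ : V ≃ Fin (Fintype.card V)} {a b : V} :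
    Ac_ord σ a ≤ Ac_ord σ b ↔ σ a ≤ σ b := Iff.rfl

/-- closed neighbourhood -/
def Ac_A [Fintype V] (G : SimpleGraph V) (v : V) : Finset V := insert v (nb G v)

/-- `v` and its neighbours outside the closed neighbourhood of `h` -/
def Ac_B [Fintype V] (G : SimpleGraph V) (v h : V) : Finset V :=
  insert v ((nb G v).filter (fun u => u ≠ h ∧ ¬ G.Adj h u))

theorem Ac_A_card [Fintype V] (v : V) : (Ac_A G v).card = (nb G v).card + 1 := by
  unfold Ac_A
  rw [Finset.card_insert_of_notMem]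
  rw [mem_nb]
  exact fun h => h.ne rfl

theorem Ac_B_card [Fintype V] (v h : V) : (Ac_B G v h).card =
    ((nb G v).filter (fun u => u ≠ h ∧ ¬ G.Adj h u)).card + 1 := by
  unfold Ac_B
  rw [Finset.card_insert_of_notMem]
  rw [Finset.mem_filter, mem_nb]
  exact fun h => h.1.ne rfl

/-- the orderings with `h` first in the closed neighbourhood of `v`, and `v` first in `B v h` -/
def Ac_E [Fintype V] (G : SimpleGraph V) (v h : V) : Finset (V ≃ Fin (Fintype.card V)) :=
  Finset.univ.filter (fun σ => (∀ x ∈ Ac_A G v, σ h ≤ σ x) ∧ ∀ y ∈ Ac_B G v h, σ v ≤ σ y)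

/-- the orderings with `v` first in its closed neighbourhood -/
def Ac_F [Fintype V] (G : SimpleGraph V) (v : V) : Finset (V ≃ Fin (Fintype.card V)) :=
  Finset.univ.filter (fun σ => ∀ x ∈ Ac_A G v, σ v ≤ σ x)

theorem Ac_hdF [Fintype V] {v : V} {σ : V ≃ Fin (Fintype.card V)} (h : σ ∈ Ac_F G v) :
    hd G (Ac_ord σ) v = v := by
  refine hd_eq_of (Or.inl rfl) fun u hu => ?_
  rw [Ac_ord_le]
  refine (Finset.mem_filter.1 h).2 u ?_
  unfold Ac_A
  rw [Finset.mem_insert, mem_nb]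
  exact hu

theorem Ac_hdE [Fintype V] {v h : V} (hv : h ∈ nb G v) {σ : V ≃ Fin (Fintype.card V)}
    (hσ : σ ∈ Ac_E G v h) : hd G (Ac_ord σ) v = h := by
  refine hd_eq_of (Or.inr (mem_nb.1 hv)) fun u hu => ?_
  rw [Ac_ord_le]
  refine (Finset.mem_filter.1 hσ).2.1 u ?_
  unfold Ac_A
  rw [Finset.mem_insert, mem_nb]
  exact hu

theorem Ac_goodE [Fintype V] {v h : V} (hv : h ∈ nb G v) {σ : V ≃ Fin (Fintype.card V)}
    (hσ : σ ∈ Ac_E G v h) : Good G (Ac_ord σ) v := by
  intro u hu hlt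
  rw [Ac_hdE hv hσ]
  by_contra hcon
  rw [not_or] at hcon
  have h1 : u ∈ Ac_B G v h := by
    unfold Ac_B
    rw [Finset.mem_insert, Finset.mem_filter, mem_nb]
    exact Or.inr ⟨hu, hcon⟩
  have h2 : Ac_ord σ v ≤ Ac_ord σ u := Ac_ord_le.2 ((Finset.mem_filter.1 hσ).2.2 u h1)
  omega

theorem Ac_cardF [Fintype V] (v : V) :
    ((Ac_F G v).card : ℝ) = (Fintype.card V).factorial * (1 / (((nb G v).card : ℝ) + 1)) := by
  have h1 := count_first (Ac_A G v) v (Finset.mem_insert_self _ _)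
  rw [Ac_A_card] at h1
  have h2 : ((Ac_F G v).card : ℝ) * (((nb G v).card : ℝ) + 1) = (Fintype.card V).factorial := by
    rw [← h1]
    push_cast
    unfold Ac_F
    congr
  have h3 : ((nb G v).card : ℝ) + 1 ≠ 0 := by positivity
  field_simp
  exact h2

theorem Ac_cardE [Fintype V] {v h : V} (hv : h ∈ nb G v) :
    ((Ac_E G v h).card : ℝ) = (Fintype.card V).factorial * (1 / (((nb G v).card : ℝ) + 1) *
      (1 / (1 + (((nb G v).filter (fun u => u ≠ h ∧ ¬ G.Adj h u)).card : ℝ)))) := by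
  have hvh := mem_nb.1 hv
  have h1 := count_first2 (Ac_A G v) (Ac_B G v h) h (Finset.mem_insert_of_mem hv) (by
    intro y hy
    unfold Ac_B at hy
    rw [Finset.mem_insert, Finset.mem_filter] at hy
    rw [Finset.mem_erase]
    unfold Ac_A
    rw [Finset.mem_insert]
    rcases hy with rfl | hy
    · exact ⟨hvh.ne, Or.inl rfl⟩
    · exact ⟨hy.2.1, Or.inr hy.1⟩) v (Finset.mem_insert_self _ _)
  rw [Ac_A_card, Ac_B_card] at h1
  obtain ⟨x, hx⟩ : ∃ x, x = ((nb G v).filter (fun u => u ≠ h ∧ ¬ G.Adj h u)).card := ⟨_, rfl⟩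
  rw [← hx] at h1 ⊢
  have h2 : ((Ac_E G v h).card : ℝ) * ((((nb G v).card : ℝ) + 1) * ((x : ℝ) + 1)) =
      (Fintype.card V).factorial := by
    rw [← h1]
    push_cast
    unfold Ac_E
    congr
  have h3 : ((nb G v).card : ℝ) + 1 ≠ 0 := by positivity
  have h4 : (1 : ℝ) + x ≠ 0 := by positivity
  field_simp
  rw [← h2]
  ring

theorem Ac_local [Fintype V] (hc : ClawFree G) (v : V) :
    (Fintype.card V).factorial * wt (nb G v).card ≤
      (((Finset.univ : Finset (V ≃ Fin (Fintype.card V))).filter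
        (fun σ => Good G (Ac_ord σ) v)).card : ℝ) +
      (((Finset.univ : Finset (V ≃ Fin (Fintype.card V))).filter
        (fun σ => hd G (Ac_ord σ) v = v)).card : ℝ) := by
  have h1 : (Ac_F G v).card ≤ ((Finset.univ : Finset (V ≃ Fin (Fintype.card V))).filter
      (fun σ => hd G (Ac_ord σ) v = v)).card := by
    refine Finset.card_le_card fun σ hσ => ?_
    rw [Finset.mem_filter]
    exact ⟨Finset.mem_univ _, Ac_hdF hσ⟩
  have hdis1 : ∀ x ∈ nb G v, ∀ y ∈ nb G v, x ≠ y → Disjoint (Ac_E G v x) (Ac_E G v y) := by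
    intro x hx y hy hxy
    rw [Finset.disjoint_left]
    intro σ h1 h2
    apply hxy
    rw [← Ac_hdE hx h1, Ac_hdE hy h2]
  have hdis2 : Disjoint (Ac_F G v) ((nb G v).biUnion (Ac_E G v)) := by
    rw [Finset.disjoint_left]
    intro σ h1 h2
    obtain ⟨x, hx, hx2⟩ := Finset.mem_biUnion.1 h2
    have h3 := Ac_hdF h1
    rw [Ac_hdE hx hx2] at h3
    exact (mem_nb.1 hx).ne h3.symm
  have h2 : (Ac_F G v).card + ∑ h ∈ nb G v, (Ac_E G v h).card ≤
      ((Finset.univ : Finset (V ≃ Fin (Fintype.card V))).filter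
        (fun σ => Good G (Ac_ord σ) v)).card := by
    rw [← Finset.card_biUnion hdis1, ← Finset.card_union_of_disjoint hdis2]
    refine Finset.card_le_card fun σ hσ => ?_
    rw [Finset.mem_filter]
    refine ⟨Finset.mem_univ _, ?_⟩
    rw [Finset.mem_union, Finset.mem_biUnion] at hσ
    rcases hσ with h | ⟨x, hx, hx2⟩
    · exact good_root (Ac_hdF h)
    · exact Ac_goodE hx hx2
  have h1' : ((Ac_F G v).card : ℝ) ≤
      (((Finset.univ : Finset (V ≃ Fin (Fintype.card V))).filter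
        (fun σ => hd G (Ac_ord σ) v = v)).card : ℝ) := by exact_mod_cast h1
  have h2' : ((Ac_F G v).card : ℝ) + ∑ h ∈ nb G v, ((Ac_E G v h).card : ℝ) ≤
      (((Finset.univ : Finset (V ≃ Fin (Fintype.card V))).filter
        (fun σ => Good G (Ac_ord σ) v)).card : ℝ) := by exact_mod_cast h2
  refine le_trans ?_ (add_le_add h2' h1')
  rw [Finset.sum_congr rfl fun h hh => Ac_cardE hh, Ac_cardF, ← Finset.mul_sum, ← Finset.mul_sum]
  have h3 := local_ineq hc v
  obtain ⟨S, hS⟩ : ∃ S, S = ∑ h ∈ nb G v,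
    1 / (1 + (((nb G v).filter (fun u => u ≠ h ∧ ¬ G.Adj h u)).card : ℝ)) := ⟨_, rfl⟩
  rw [← hS] at h3 ⊢
  obtain ⟨t, ht⟩ : ∃ t, t = ((nb G v).card : ℝ) + 1 := ⟨_, rfl⟩
  rw [← ht] at h3 ⊢
  have ht0 : 0 < t := by
    rw [ht]
    positivity
  have hN : (0 : ℝ) < (Fintype.card V).factorial := by
    exact_mod_cast Nat.factorial_pos _
  have h4 : (Fintype.card V).factorial * (1 / t) + (Fintype.card V).factorial * (1 / t * S) +
      (Fintype.card V).factorial * (1 / t) =
      ((Fintype.card V).factorial : ℝ) * ((2 + S) / t) := by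
    field_simp
    ring
  rw [h4]
  refine mul_le_mul_of_nonneg_left ?_ hN.le
  rw [le_div_iff₀ ht0]
  linarith

theorem avg [Fintype V] (hc : ClawFree G) (K : Finset V) :
    ∃ o : V ↪ ℕ, ∑ v ∈ K, wt (nb G v).card ≤ ((K.filter (fun v => Good G o v)).card : ℝ) +
      ((K.filter (fun v => hd G o v = v)).card : ℝ) := by
  by_contra hcon
  push Not at hcon
  have hne : (Finset.univ : Finset (V ≃ Fin (Fintype.card V))).Nonempty :=
    ⟨Fintype.equivFin V, Finset.mem_univ _⟩
  have h1 := Finset.sum_lt_sum_of_nonempty hne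
    (fun σ (_ : σ ∈ (Finset.univ : Finset (V ≃ Fin (Fintype.card V)))) => hcon (Ac_ord σ))
  have hcard : (Finset.univ : Finset (V ≃ Fin (Fintype.card V))).card =
      (Fintype.card V).factorial := by
    rw [Finset.card_univ, Fintype.card_equiv (Fintype.equivFin V)]
  rw [Finset.sum_const, hcard, nsmul_eq_mul, Finset.mul_sum, Finset.sum_add_distrib] at h1
  have hsw : ∀ P : (V ≃ Fin (Fintype.card V)) → V → Prop,
      ∑ σ : V ≃ Fin (Fintype.card V), ((K.filter (fun v => P σ v)).card : ℝ) =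
        ∑ v ∈ K, (((Finset.univ : Finset (V ≃ Fin (Fintype.card V))).filter
          (fun σ => P σ v)).card : ℝ) := by
    intro P
    simp_rw [Finset.card_filter]
    push_cast
    rw [Finset.sum_comm]
  rw [hsw (fun σ v => Good G (Ac_ord σ) v), hsw (fun σ v => hd G (Ac_ord σ) v = v),
    ← Finset.sum_add_distrib] at h1
  have h2 := Finset.sum_le_sum (fun v (_ : v ∈ K) => Ac_local hc v)
  exact absurd h1 (not_lt.2 h2)

theorem avg' [Fintype V] (hc : ClawFree G) {d : ℕ} (hdeg : ∀ v, (nb G v).card ≤ d)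
    (K : Finset V) :
    ∃ o : V ↪ ℕ, wt d * K.card ≤ ((K.filter (fun v => Good G o v)).card : ℝ) +
      ((K.filter (fun v => hd G o v = v)).card : ℝ) := by
  obtain ⟨o, ho⟩ := avg hc K
  refine ⟨o, le_trans ?_ ho⟩
  have h1 : ∑ v ∈ K, wt d ≤ ∑ v ∈ K, wt (nb G v).card :=
    Finset.sum_le_sum fun v _ => wt_anti (hdeg v)
  rw [Finset.sum_const, nsmul_eq_mul] at h1
  linarith

end

end Pool.Agent.H67.CF
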