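import Pool.Agent.H67.CF.Defs

/-!
Module Bf.  Distances from a vertex `v0` in a connected set `T`, and the bound for the rows.  Only Defs is used.

(1) `bfs`: define reachability in exactly `n` steps: `St 0 v := v = v0`, `St (n+1) v := v ∈ T ∧ ∃ u, St n u ∧ G.Adj u v`.  Every `v ∈ T` has some `n`
    with `St n v` (from `Rch G T v0 v`, induction).  `lev v := ` least such `n` (`0` if there is none), `par v :=` a vertex `u` with `St (lev v - 1) u`,
    `G.Adj u v` (choice; `v` itself if none).  For `v ∈ T` with `lev v = n + 1`: `u := par v` satisfies `St n u`, hence `u ∈ T` (`v0 ∈ T`), `lev u ≤ n`, and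
    `lev u < n` would give `lev v ≤ lev u + 1 < n + 1`; so `lev u = n`.  For adjacent `u, v ∈ T`: `St (lev u) u` gives `St (lev u + 1) v`.
    `lev v = 0` with `v ∈ T` means `St 0 v`, `v = v0`.
(2) `top_card`: `S' ⊆ T`, all `f ∈ T \ S'` are gates (`Loc G T f`), all connected `Z ⊆ S'` have at most `C1` elements; `k := lev x0 ≥ 1`.
    `T_{≥k} := {v | v ∈ T ∧ k ≤ lev v}`.  Let `b` be an element of the row set: `b ∈ T`, `lev b = k`, `Rch T_{≥k} x0 b`.
    CLAIM: `Rch G ({v | v ∈ S'} ∪ {b}) x0 b`.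
    (a) low connection: for every `v ∈ T` with `lev v ≤ k` and every `f` with `k ≤ lev f`, `f ≠ v`: `Rch G (T \ {f}) v v0`: by induction on
        `lev v` (`lev v = 0`: `v = v0`; otherwise step to `par v`, which has level `< k ≤ lev f`, so `par v ≠ f`, and `par v ∈ T`).  So
        for two vertices `v, v' ∈ T` of level `≤ k`, both `≠ f`: `Rch G (T \ {f}) v v'` (`rch_symm`).
    (b) among the finsets `Y ⊆ T` all of whose elements have level `≥ k` and with `Rch G Y x0 b` (such `Y` exist: `T.filter (k ≤ lev ·)`) take one of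
        minimal cardinality.  Suppose `Y` contains `f ∈ T \ S'` with `f ≠ b`.  If `f = x0`: every walk from `x0` can be shortened to one not returning
        to `x0`: `Rch G (Y \ {x0}) x0 b` (general fact: `Rch G Y x b → Rch G (Y \ {x}) x b`, by `rch_induct`: at a step into `x` restart with
        `rch_refl`), contradicting minimality.  If `f ≠ x0`: `rch_or'` (`x0 ≠ f`, `b ≠ f`): either `Rch (Y \ {f}) x0 b`, contradicting minimality, or
        there are neighbours `c` (`c = x0 ∨ c ∈ Y \ {f}`), `c' ∈ Y \ {f}` of `f` with `Rch (Y \ {f}) x0 c`, `Rch (Y \ {f}) c' b`.  Then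
        `c, c' ∈ T`, `Rch G (T \ {f}) c c'`: `c → x0` (`rch_symm`, inside `insert x0 (Y \ {f}) ⊆ T \ {f}`), `x0 → b` by (a) (both of level `k`, both
        `≠ f`), `b → c'` (`rch_symm`; `c' ∈ Y \ {f}`).  By `Loc G T f`: `c = c'` or `c ~ c'`, so `Rch (Y \ {f}) x0 b`, contradiction.
        Hence `Y ⊆ S' ∪ {b}`: the claim.
    (c) from the claim: `b = x0`, or `x0 ~ b`, or there is `c ∈ S'`, `x0 ~ c`, such that `b` is in or adjacent to the class `Cls G S' c`:
        by `rch_induct` on the walk in `S' ∪ {b}` the property `P z := z = x0 ∨ (∃ c ∈ S', x0 ~ c ∧ z ∈ Cls G S' c) ∨ (z = b ∧ ((x0 ~ b) ∨ (b = x0) ∨ ∃ c ∈ S', x0 ~ c ∧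
        ∃ y ∈ Cls G S' c, y ~ b))` is preserved (once the vertex is `b` with its disjunction proved, keep the disjunction about `b` as a global fact; it may be
        easier to prove: either the disjunction about `b` holds, or every vertex of the walk is `x0` or in such a class).
    (d) let `U := (nb G x0 ∩ S').biUnion (fun c => (Cls G S' c).toFinset)`; `|U| ≤ d * C1` (`cls_pconn`, `hC1`, `hdeg`).  The row set is contained in
        `cN G (insert x0 U)`, which has at most `(d+1) * (1 + d * C1) ≤ (d+1) * (1 + (d+1) * C1)` elements (`cN_card`).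
-/

set_option autoImplicit false
set_option linter.all false

namespace Pool.Agent.H67.CF

open Classical

noncomputable section

variable {V : Type*} {G : SimpleGraph V}

/-- reachability in exactly `n` steps -/
def Bf_St (G : SimpleGraph V) (T : Set V) (v0 : V) : ℕ → V → Prop
  | 0, v => v = v0
  | n + 1, v => v ∈ T ∧ ∃ u, Bf_St G T v0 n u ∧ G.Adj u v

theorem Bf_mem {T : Set V} {v0 : V} (hv0 : v0 ∈ T) {n : ℕ} {v : V} (h : Bf_St G T v0 n v) :
    v ∈ T := by
  cases n with
  | zero =>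
    have h' : v = v0 := h
    rw [h']
    exact hv0
  | succ n => exact h.1

theorem Bf_exists {T : Set V} {v0 v : V} (h : Rch G T v0 v) : ∃ n, Bf_St G T v0 n v := by
  refine rch_induct (P := fun z => ∃ n, Bf_St G T v0 n z) h ⟨0, rfl⟩ ?_
  rintro x y ⟨n, hn⟩ _ hxy hy
  exact ⟨n + 1, hy, x, hn, hxy⟩

theorem bfs {T : Finset V} (hT : PConn G (T : Set V)) {v0 : V} (hv0 : v0 ∈ T) :
    ∃ (lev : V → ℕ) (par : V → V), lev v0 = 0 ∧ (∀ v ∈ T, lev v = 0 → v = v0) ∧
      (∀ v ∈ T, 1 ≤ lev v → par v ∈ T ∧ G.Adj v (par v) ∧ lev (par v) + 1 = lev v) ∧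
      (∀ u ∈ T, ∀ v ∈ T, G.Adj u v → lev v ≤ lev u + 1) := by
  have hv0' : v0 ∈ (T : Set V) := hv0
  obtain ⟨lev, hlev⟩ : ∃ lev : V → ℕ, ∀ v, lev v = sInf {n | Bf_St G (T : Set V) v0 n v} :=
    ⟨_, fun v => rfl⟩
  have hne : ∀ v ∈ T, {n | Bf_St G (T : Set V) v0 n v}.Nonempty := by
    intro v hv
    exact Bf_exists (hT v0 hv0 v hv)
  have hmem : ∀ v ∈ T, Bf_St G (T : Set V) v0 (lev v) v := by
    intro v hv
    rw [hlev]
    exact Nat.sInf_mem (hne v hv)
  have hle : ∀ v n, Bf_St G (T : Set V) v0 n v → lev v ≤ n := by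
    intro v n h
    rw [hlev]
    exact Nat.sInf_le h
  have hpar : ∀ v, ∃ u, (v ∈ T → 1 ≤ lev v → Bf_St G (T : Set V) v0 (lev v - 1) u ∧ G.Adj u v) := by
    intro v
    by_cases hv : v ∈ T ∧ 1 ≤ lev v
    · have h1 := hmem v hv.1
      obtain ⟨n, hn⟩ : ∃ n, lev v = n + 1 := ⟨lev v - 1, by omega⟩
      rw [hn] at h1
      obtain ⟨_, u, hu, hadj⟩ := h1
      refine ⟨u, fun _ _ => ⟨?_, hadj⟩⟩
      rw [hn]
      exact hu
    · refine ⟨v, fun h1 h2 => absurd ⟨h1, h2⟩ hv⟩
  choose par hpar using hpar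
  refine ⟨lev, par, ?_, ?_, ?_, ?_⟩
  · have := hle v0 0 rfl
    omega
  · intro v hv h0
    have h1 := hmem v hv
    rw [h0] at h1
    exact h1
  · intro v hv h1
    obtain ⟨h2, h3⟩ := hpar v hv h1
    have h4 : par v ∈ T := Bf_mem hv0' h2
    refine ⟨h4, h3.symm, ?_⟩
    have h5 := hle _ _ h2
    have h6 : Bf_St G (T : Set V) v0 (lev (par v) + 1) v := ⟨hv, par v, hmem _ h4, h3⟩
    have h7 := hle _ _ h6
    omega
  · intro u hu v hv huv
    exact hle _ _ ⟨hv, u, hmem u hu, huv⟩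

/-- a walk need not return to its first vertex -/
theorem Bf_restart {Y : Set V} {x b : V} (h : Rch G Y x b) : Rch G (Y \ {x}) x b := by
  refine rch_induct (P := fun z => Rch G (Y \ {x}) x z) h rch_refl ?_
  intro u v hu _ huv hv
  by_cases hvx : v = x
  · rw [hvx]
    exact rch_refl
  · exact rch_tail hu huv ⟨hv, hvx⟩

/-- low connection -/
theorem Bf_low {T : Finset V} {v0 : V} {lev : V → ℕ} {par : V → V}
    (h0 : ∀ v ∈ T, lev v = 0 → v = v0)
    (hpar : ∀ v ∈ T, 1 ≤ lev v → par v ∈ T ∧ G.Adj v (par v) ∧ lev (par v) + 1 = lev v)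
    {k : ℕ} {f : V} (hf : k ≤ lev f) (n : ℕ) :
    ∀ v ∈ T, lev v = n → n ≤ k → v ≠ f → Rch G ((T : Set V) \ {f}) v v0 := by
  induction n with
  | zero =>
    intro v hv hn _ _
    rw [h0 v hv hn]
    exact rch_refl
  | succ n ih =>
    intro v hv hn hnk hvf
    obtain ⟨h1, h2, h3⟩ := hpar v hv (by omega)
    have h4 : lev (par v) = n := by omega
    have h5 : par v ≠ f := by
      intro h
      rw [h] at h4
      omega
    exact rch_head h2 ⟨h1, h5⟩ (ih (par v) h1 h4 (by omega) h5)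

theorem Bf_two {T : Finset V} {v0 : V} {lev : V → ℕ} {par : V → V}
    (h0 : ∀ v ∈ T, lev v = 0 → v = v0)
    (hpar : ∀ v ∈ T, 1 ≤ lev v → par v ∈ T ∧ G.Adj v (par v) ∧ lev (par v) + 1 = lev v)
    {k : ℕ} {f : V} (hf : k ≤ lev f) {v v' : V} (hv : v ∈ T) (hv' : v' ∈ T) (hvk : lev v ≤ k)
    (hvk' : lev v' ≤ k) (hvf : v ≠ f) (hvf' : v' ≠ f) : Rch G ((T : Set V) \ {f}) v v' :=
  rch_trans (Bf_low h0 hpar hf _ v hv rfl hvk hvf)
    (rch_symm ⟨hv', hvf'⟩ (Bf_low h0 hpar hf _ v' hv' rfl hvk' hvf'))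

theorem Bf_claim {T S' : Finset V} (hST : S' ⊆ T) (hloc : ∀ f ∈ T \ S', Loc G (T : Set V) f)
    {v0 : V} {lev : V → ℕ} {par : V → V} (h0 : ∀ v ∈ T, lev v = 0 → v = v0)
    (hpar : ∀ v ∈ T, 1 ≤ lev v → par v ∈ T ∧ G.Adj v (par v) ∧ lev (par v) + 1 = lev v)
    {x0 b : V} (hx0 : x0 ∈ T) (hb : b ∈ T) (hbk : lev b = lev x0) (n : ℕ) :
    ∀ Y : Finset V, Y.card = n → Y ⊆ T → (∀ y ∈ Y, lev x0 ≤ lev y) → Rch G (Y : Set V) x0 b →
      Rch G ({v | v ∈ S' ∨ v = b} : Set V) x0 b := by
  induction n using Nat.strong_induction_on with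
  | _ n ih =>
    intro Y hYn hYT hYk hY
    by_cases hall : ∀ y ∈ Y, y ∈ S' ∨ y = b
    · exact rch_mono (fun y hy => hall y hy) hY
    · push Not at hall
      obtain ⟨f, hfY, hfS, hfb⟩ := hall
      have hfT : f ∈ T := hYT hfY
      have hfk : lev x0 ≤ lev f := hYk f hfY
      have hcoe : ((Y.erase f : Finset V) : Set V) = (Y : Set V) \ {f} := by
        rw [Finset.coe_erase]
      have hsub : ((Y : Set V) \ {f}) ⊆ ((T : Set V) \ {f}) := fun z hz => ⟨hYT hz.1, hz.2⟩
      have hgoal : Rch G ((Y : Set V) \ {f}) x0 b := by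
        by_cases hfx : x0 = f
        · rw [← hfx]
          exact Bf_restart hY
        · rcases rch_or' hfx hY with ⟨_, h⟩ | ⟨⟨c, hcf, hc, hxc⟩, h⟩
          · exact h
          · rcases h with h | ⟨c', hc'f, hc', hc'b⟩
            · exact absurd h.symm hfb
            · have hcT : c ∈ (T : Set V) := by
                rcases hc with rfl | hc
                · exact hx0
                · exact hYT hc.1
              have hc'T : c' ∈ (T : Set V) := hYT hc'.1
              have hx0' : x0 ∈ ((T : Set V) \ {f}) := ⟨hx0, hfx⟩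
              have h1 : Rch G ((T : Set V) \ {f}) c x0 := rch_symm hx0' (rch_mono hsub hxc)
              have h2 : Rch G ((T : Set V) \ {f}) x0 b :=
                Bf_two h0 hpar hfk hx0 hb le_rfl hbk.le hfx (fun h => hfb h.symm)
              have h3 : Rch G ((T : Set V) \ {f}) b c' :=
                rch_symm (hsub hc') (rch_mono hsub hc'b)
              rcases hloc f (Finset.mem_sdiff.2 ⟨hfT, hfS⟩) c c' hcT hc'T hcf.symm hc'f
                (rch_trans h1 (rch_trans h2 h3)) with h | h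
              · rw [h] at hxc
                exact rch_trans hxc hc'b
              · exact rch_trans (rch_tail hxc h hc') hc'b
      have hlt : (Y.erase f).card < n := by
        rw [← hYn]
        exact Finset.card_erase_lt_of_mem hfY
      refine ih _ hlt (Y.erase f) rfl (fun y hy => hYT (Finset.mem_of_mem_erase hy))
        (fun y hy => hYk y (Finset.mem_of_mem_erase hy)) ?_
      rw [hcoe]
      exact hgoal

theorem top_card [Fintype V] {d : ℕ} (hdeg : ∀ v, (nb G v).card ≤ d) {T S' : Finset V}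
    (hST : S' ⊆ T) (hloc : ∀ f ∈ T \ S', Loc G (T : Set V) f) {C1 : ℕ}
    (hC1 : ∀ Z : Finset V, Z ⊆ S' → PConn G (Z : Set V) → Z.card ≤ C1)
    {v0 : V} (hv0 : v0 ∈ T) (lev : V → ℕ) (par : V → V) (h0 : ∀ v ∈ T, lev v = 0 → v = v0)
    (hpar : ∀ v ∈ T, 1 ≤ lev v → par v ∈ T ∧ G.Adj v (par v) ∧ lev (par v) + 1 = lev v)
    {x0 : V} (hx0 : x0 ∈ T) (hk : 1 ≤ lev x0) :
    (T.filter (fun z => lev z = lev x0 ∧ Rch G {v | v ∈ T ∧ lev x0 ≤ lev v} x0 z)).card ≤
      (d + 1) * (1 + (d + 1) * C1) := by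
  obtain ⟨U, hU⟩ : ∃ U : Finset V, U = (nb G x0 ∩ S').biUnion
      (fun c => S'.filter (fun z => Rch G (S' : Set V) c z)) := ⟨_, rfl⟩
  have hmemU : ∀ z, z ∈ U ↔ ∃ c, G.Adj x0 c ∧ c ∈ S' ∧ z ∈ S' ∧ Rch G (S' : Set V) c z := by
    intro z
    rw [hU]
    simp only [Finset.mem_biUnion, Finset.mem_inter, mem_nb, Finset.mem_filter]
    constructor
    · rintro ⟨c, ⟨h1, h2⟩, h3, h4⟩
      exact ⟨c, h1, h2, h3, h4⟩
    · rintro ⟨c, h1, h2, h3, h4⟩
      exact ⟨c, ⟨h1, h2⟩, h3, h4⟩
  have hUcard : U.card ≤ d * C1 := by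
    have h1 : U.card ≤ (nb G x0 ∩ S').card * C1 := by
      rw [hU]
      refine Finset.card_biUnion_le_card_mul _ _ _ ?_
      intro c hc
      refine hC1 _ (Finset.filter_subset _ _) ?_
      have hcS : c ∈ (S' : Set V) := (Finset.mem_inter.1 hc).2
      have h2 : ((S'.filter (fun z => Rch G (S' : Set V) c z) : Finset V) : Set V)
          = Cls G (S' : Set V) c := by
        ext z
        simp [Cls]
      rw [h2]
      exact cls_pconn hcS
    have h3 : (nb G x0 ∩ S').card ≤ d :=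
      (Finset.card_le_card Finset.inter_subset_left).trans (hdeg x0)
    exact h1.trans (Nat.mul_le_mul_right _ h3)
  have hsub : T.filter (fun z => lev z = lev x0 ∧ Rch G {v | v ∈ T ∧ lev x0 ≤ lev v} x0 z) ⊆
      cN G (insert x0 U) := by
    intro b hb
    rw [Finset.mem_filter] at hb
    obtain ⟨hbT, hbk, hbr⟩ := hb
    have hcl : Rch G ({v | v ∈ S' ∨ v = b} : Set V) x0 b := by
      refine Bf_claim hST hloc h0 hpar hx0 hbT hbk _ (T.filter (fun v => lev x0 ≤ lev v)) rfl
        (Finset.filter_subset _ _) (fun y hy => (Finset.mem_filter.1 hy).2) ?_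
      refine rch_mono ?_ hbr
      intro v hv
      rw [Finset.mem_coe, Finset.mem_filter]
      exact hv
    by_contra hcon
    have hP : b ∈ insert x0 U := by
      refine rch_induct (P := fun z => z ∈ insert x0 U) hcl (Finset.mem_insert_self _ _) ?_
      intro x y hx _ hxy hy
      rcases hy with hy | hy
      · rw [Finset.mem_insert] at hx
        rw [Finset.mem_insert]
        right
        rw [hmemU]
        rcases hx with rfl | hx
        · exact ⟨y, hxy, hy, hy, rch_refl⟩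
        · rw [hmemU] at hx
          obtain ⟨c, h1, h2, h3, h4⟩ := hx
          exact ⟨c, h1, h2, hy, rch_tail h4 hxy hy⟩
      · exfalso
        apply hcon
        rw [mem_cN]
        right
        refine ⟨x, hx, ?_⟩
        rw [← hy]
        exact hxy
    exact hcon (subset_cN hP)
  have h1 := Finset.card_le_card hsub
  have h2 := cN_card hdeg (insert x0 U)
  have h3 := Finset.card_insert_le x0 U
  have h4 : (insert x0 U).card ≤ 1 + (d + 1) * C1 := by
    have h5 : d * C1 ≤ (d + 1) * C1 := Nat.mul_le_mul_right _ (Nat.le_succ d)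
    omega
  exact h1.trans (h2.trans (Nat.mul_le_mul_left _ h4))

end

end Pool.Agent.H67.CF
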