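import Pool.Agent.H67.CF.Defs

/-!
Module Cu.  Connecting a set by few vertices which are locally gates.  Only Defs is used.

(1) `Cu_step` (merge at most two classes): let `f ∉ X`, `J ⊆ X` (`J` a finset) pairwise non-`Rch` in `X`.  Then there is `J' ⊆ J`, pairwise
    non-`Rch` in `insert f X`, with `|J| ≤ |J'| + 1`.  Let `J1 := {j ∈ J | ∃ c, f ~ c ∧ c ∈ X ∧ Rch X j c}` (elements joined to a
    neighbour of `f`).  `|J1| ≤ 2`: three distinct `j1, j2, j3` with such `c1, c2, c3`; the `c`'s are pairwise distinct and non-adjacent (else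
    two of the `j`'s would be `Rch` in `X`: `j1 → c1 → c2 → j2`, the last by `rch_symm` as `j2 ∈ X`), contradicting `ClawFree` at `f`
    (`Finset.two_lt_card`).  If `J1 = ∅` take `J' := J`; otherwise `J' := J.erase j1` for some `j1 ∈ J1`; in both cases at most one element
    of `J'` lies in `J1`.  Let `j ≠ j'` in `J'` with `Rch (insert f X) j j'`.  By `rch_or` (`j ≠ f` since `j ∈ X`): either `Rch X j j'`, impossible,
    or `j` is joined to some `c ~ f`, `c = j ∨ c ∈ X` (so `c ∈ X`), and (`j' ≠ f`) some `c' ∈ X`, `f ~ c'`, with `Rch X c' j'`, so `Rch X j' c'`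
    by `rch_symm`; so `j, j' ∈ J1`, contradiction.
(2) `Cu_grow`: for finsets `X` and `F` disjoint, `J ⊆ X` pairwise non-`Rch` in `X`: there is `J' ⊆ J` pairwise non-`Rch` in `X ∪ F` with
    `|J| ≤ |J'| + |F|`.  Induction on `F` (`Finset.induction_on`), step = (1) applied to `X ∪ F` and `f`.
(3) `cut_exists`: among the finsets `T` with `S ⊆ T ⊆ K`, `PConn G T` (`K` is one) take one of minimal cardinality
    (`Finset.exists_min_image` on `K.powerset.filter ..`).  Cardinalities: (2) with `X := S`, `F := T \ S`, `J := I` gives `J' ⊆ I` pairwise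
    non-`Rch` in `T`; as `T` is connected `|J'| ≤ 1`; so `|I| ≤ 1 + |T \ S|`, i.e. `|I| + |S| ≤ |T| + 1`.
    `Loc`: let `f ∈ T \ S` and `a, b ∈ T` be neighbours of `f` with `Rch (T \ {f}) a b`, `a ≠ b`, `a ≁ b`.  `T.erase f` contains `S`, so by
    minimality it is not connected: there are `x, y ∈ T \ {f}` with `¬ Rch (T \ {f}) x y`.  As `Rch T x y`, `rch_or'` gives a
    neighbour `c ∈ T \ {f}` of `f` with `Rch (T \ {f}) x c` and a neighbour `c' ∈ T \ {f}` of `f` with `Rch (T \ {f}) c' y`; so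
    `¬ Rch (T \ {f}) c c'`.  Hence one of `c, c'` — call it `e` — satisfies `¬ Rch (T \ {f}) a e` (otherwise `c → a → c'`), so also
    `¬ Rch (T \ {f}) b e`; so `e ≠ a`, `e ≠ b`, `a ≁ e`, `b ≁ e`, and `a, b, e` is a claw at `f`: contradiction.
-/

set_option autoImplicit false
set_option linter.all false

namespace Pool.Agent.H67.CF

open Classical

noncomputable section

variable {V : Type*} {G : SimpleGraph V}

theorem Cu_pair {X : Set V} {J : Finset V} (hJX : ∀ a ∈ J, a ∈ X)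
    (hJ : ∀ a ∈ J, ∀ b ∈ J, Rch G X a b → a = b) {j j' c c' : V} (hj : j ∈ J) (hj' : j' ∈ J)
    (hne : j ≠ j') (hc' : c' ∈ X) (h1 : Rch G X j c) (h2 : Rch G X j' c') :
    c ≠ c' ∧ ¬ G.Adj c c' := by
  constructor
  · intro h
    rw [h] at h1
    exact hne (hJ j hj j' hj' (rch_trans h1 (rch_symm (hJX j' hj') h2)))
  · intro h
    exact hne (hJ j hj j' hj' (rch_trans (rch_tail h1 h hc') (rch_symm (hJX j' hj') h2)))

theorem Cu_step (hc : ClawFree G) {X : Set V} {f : V} (hf : f ∉ X) {J : Finset V}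
    (hJX : ∀ a ∈ J, a ∈ X) (hJ : ∀ a ∈ J, ∀ b ∈ J, Rch G X a b → a = b) :
    ∃ J' : Finset V, J' ⊆ J ∧ (∀ a ∈ J', ∀ b ∈ J', Rch G (insert f X) a b → a = b) ∧
      J.card ≤ J'.card + 1 := by
  obtain ⟨J1, hJ1⟩ : ∃ J1 : Finset V, J1 = J.filter (fun j => ∃ c, G.Adj f c ∧ c ∈ X ∧ Rch G X j c) :=
    ⟨_, rfl⟩
  have hmem : ∀ j, j ∈ J1 ↔ j ∈ J ∧ ∃ c, G.Adj f c ∧ c ∈ X ∧ Rch G X j c := by
    intro j
    rw [hJ1, Finset.mem_filter]
  have h2 : J1.card ≤ 2 := by
    by_contra hcon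
    push Not at hcon
    obtain ⟨j1, h1, j2, h2, j3, h3, n12, n13, n23⟩ := Finset.two_lt_card.mp hcon
    rw [hmem] at h1 h2 h3
    obtain ⟨m1, c1, a1, x1, r1⟩ := h1
    obtain ⟨m2, c2, a2, x2, r2⟩ := h2
    obtain ⟨m3, c3, a3, x3, r3⟩ := h3
    obtain ⟨p1, p2⟩ := Cu_pair hJX hJ m1 m2 n12 x2 r1 r2
    obtain ⟨q1, q2⟩ := Cu_pair hJX hJ m1 m3 n13 x3 r1 r3
    obtain ⟨s1, s2⟩ := Cu_pair hJX hJ m2 m3 n23 x3 r2 r3
    rcases hc f c1 c2 c3 a1 a2 a3 p1 q1 s1 with h | h | h
    · exact p2 h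
    · exact q2 h
    · exact s2 h
  have key : ∀ J' : Finset V, J' ⊆ J → (∀ a ∈ J', ∀ b ∈ J', a ∈ J1 → b ∈ J1 → a = b) →
      ∀ a ∈ J', ∀ b ∈ J', Rch G (insert f X) a b → a = b := by
    intro J' hJ' hu j hj j' hj' hr
    have hjf : j ≠ f := by
      intro h
      exact hf (h ▸ hJX j (hJ' hj))
    have hjf' : j' ≠ f := by
      intro h
      exact hf (h ▸ hJX j' (hJ' hj'))
    rcases rch_or hf hjf hr with ⟨-, h⟩ | ⟨⟨c, h1, h2, h3⟩, h4⟩
    · exact hJ j (hJ' hj) j' (hJ' hj') h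
    · have hcX : c ∈ X := by
        rcases h2 with h | h
        · rw [h]
          exact hJX j (hJ' hj)
        · exact h
      rcases h4 with h4 | ⟨c', h5, h6, h7⟩
      · exact absurd h4 hjf'
      · refine hu j hj j' hj' ((hmem j).2 ⟨hJ' hj, c, h1.symm, hcX, h3⟩)
          ((hmem j').2 ⟨hJ' hj', c', h5, h6, rch_symm h6 h7⟩)
  by_cases h3 : J1.card ≤ 1
  · refine ⟨J, Finset.Subset.refl J, key J (Finset.Subset.refl J) ?_, Nat.le_succ _⟩
    intro a _ b _ ha hb
    exact Finset.card_le_one.mp h3 a ha b hb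
  · have h4 : J1.Nonempty := by
      rw [← Finset.card_pos]
      omega
    obtain ⟨j1, hj1⟩ := h4
    have hj1J : j1 ∈ J := ((hmem j1).1 hj1).1
    have h5 : (J1.erase j1).card ≤ 1 := by
      rw [Finset.card_erase_of_mem hj1]
      omega
    refine ⟨J.erase j1, Finset.erase_subset _ _, key _ (Finset.erase_subset _ _) ?_, ?_⟩
    · intro a ha b hb ha1 hb1
      exact Finset.card_le_one.mp h5 a (Finset.mem_erase.2 ⟨Finset.ne_of_mem_erase ha, ha1⟩)
        b (Finset.mem_erase.2 ⟨Finset.ne_of_mem_erase hb, hb1⟩)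
    · rw [Finset.card_erase_add_one hj1J]

theorem Cu_grow (hc : ClawFree G) {X : Set V} {J : Finset V}
    (hJX : ∀ a ∈ J, a ∈ X) (hJ : ∀ a ∈ J, ∀ b ∈ J, Rch G X a b → a = b) (F : Finset V)
    (hF : ∀ f ∈ F, f ∉ X) :
    ∃ J' : Finset V, J' ⊆ J ∧ (∀ a ∈ J', ∀ b ∈ J', Rch G (X ∪ (F : Set V)) a b → a = b) ∧
      J.card ≤ J'.card + F.card := by
  induction F using Finset.induction_on with
  | empty =>
    refine ⟨J, Finset.Subset.refl J, ?_, by simp⟩
    intro a ha b hb h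
    apply hJ a ha b hb
    rwa [Finset.coe_empty, Set.union_empty] at h
  | insert f F hfF ih =>
    obtain ⟨J', h1, h2, h3⟩ := ih (fun g hg => hF g (Finset.mem_insert_of_mem hg))
    have hf : f ∉ X ∪ (F : Set V) := by
      rintro (h | h)
      · exact hF f (Finset.mem_insert_self f F) h
      · exact hfF (Finset.mem_coe.1 h)
    obtain ⟨J'', h4, h5, h6⟩ := Cu_step hc hf
      (fun a ha => Or.inl (hJX a (h1 ha))) h2
    refine ⟨J'', h4.trans h1, ?_, ?_⟩
    · intro a ha b hb h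
      apply h5 a ha b hb
      have h7 : insert f (X ∪ (F : Set V)) = X ∪ ((insert f F : Finset V) : Set V) := by
        rw [Finset.coe_insert, Set.union_insert]
      rwa [h7]
    · rw [Finset.card_insert_of_notMem hfF]
      omega

theorem Cu_loc (hc : ClawFree G) {S T : Finset V} (hST : S ⊆ T) (hT : PConn G (T : Set V))
    (hmin : ∀ f ∈ T \ S, ¬ PConn G ((T.erase f : Finset V) : Set V)) :
    ∀ f ∈ T \ S, Loc G (T : Set V) f := by
  intro f hf a b ha hb hfa hfb hr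
  by_contra hcon
  push Not at hcon
  obtain ⟨hab, hnab⟩ := hcon
  have h1 := hmin f hf
  unfold PConn at h1
  push Not at h1
  obtain ⟨x, hx, y, hy, hxy⟩ := h1
  rw [Finset.coe_erase] at hx hy hxy
  have hxf : x ≠ f := hx.2
  have hyf : y ≠ f := hy.2
  have haT : a ∈ (T : Set V) \ {f} := ⟨ha, fun h => G.irrefl (h ▸ hfa : G.Adj f f)⟩
  rcases rch_or' hxf (hT x hx.1 y hy.1) with ⟨-, h⟩ | ⟨⟨c, h1, h2, h3⟩, h4⟩
  · exact hxy h
  · have hcX : c ∈ (T : Set V) \ {f} := by
      rcases h2 with h | h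
      · rw [h]
        exact hx
      · exact h
    rcases h4 with h4 | ⟨c', h5, h6, h7⟩
    · exact hyf h4
    · have hcc : ¬ (Rch G ((T : Set V) \ {f}) a c ∧ Rch G ((T : Set V) \ {f}) a c') := by
        rintro ⟨h8, h9⟩
        exact hxy (rch_trans h3 (rch_trans (rch_trans (rch_symm haT h8) h9) h7))
      have he : ∃ e, G.Adj f e ∧ ¬ Rch G ((T : Set V) \ {f}) a e ∧ e ∈ (T : Set V) \ {f} := by
        by_cases h8 : Rch G ((T : Set V) \ {f}) a c
        · exact ⟨c', h5, fun h9 => hcc ⟨h8, h9⟩, h6⟩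
        · exact ⟨c, h1.symm, h8, hcX⟩
      obtain ⟨e, he1, he2, he3⟩ := he
      have hbe : ¬ Rch G ((T : Set V) \ {f}) b e := fun h => he2 (rch_trans hr h)
      have n1 : a ≠ e := by
        intro h
        exact he2 (h ▸ rch_refl)
      have n2 : b ≠ e := by
        intro h
        exact hbe (h ▸ rch_refl)
      rcases hc f a b e hfa hfb he1 hab n1 n2 with h | h | h
      · exact hnab h
      · exact he2 (rch_adj h he3)
      · exact hbe (rch_adj h he3)

theorem cut_exists (hc : ClawFree G) {K S I : Finset V} (hK : PConn G (K : Set V))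
    (hSK : S ⊆ K) (hS : S.Nonempty) (hIS : I ⊆ S)
    (hI : ∀ a ∈ I, ∀ b ∈ I, Rch G (S : Set V) a b → a = b) :
    ∃ T : Finset V, S ⊆ T ∧ T ⊆ K ∧ PConn G (T : Set V) ∧ I.card + S.card ≤ T.card + 1 ∧
      ∀ f ∈ T \ S, Loc G (T : Set V) f := by
  obtain ⟨T, hT, hmin⟩ := Finset.exists_min_image
    (K.powerset.filter (fun T => S ⊆ T ∧ PConn G (T : Set V))) Finset.card
    ⟨K, Finset.mem_filter.2 ⟨Finset.mem_powerset.2 (Finset.Subset.refl K), hSK, hK⟩⟩
  rw [Finset.mem_filter, Finset.mem_powerset] at hT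
  obtain ⟨hTK, hST, hTc⟩ := hT
  refine ⟨T, hST, hTK, hTc, ?_, ?_⟩
  · obtain ⟨J', h1, h2, h3⟩ := Cu_grow hc (X := (S : Set V)) (J := I)
      (fun a ha => Finset.mem_coe.2 (hIS ha)) hI (T \ S)
      (fun f hf h => (Finset.mem_sdiff.1 hf).2 (Finset.mem_coe.1 h))
    have h4 : (S : Set V) ∪ ((T \ S : Finset V) : Set V) = (T : Set V) := by
      rw [← Finset.coe_union, Finset.union_sdiff_of_subset hST]
    rw [h4] at h2
    have h5 : J'.card ≤ 1 := by
      rw [Finset.card_le_one]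
      intro a ha b hb
      exact h2 a ha b hb (hTc a (hST (hIS (h1 ha))) b (hST (hIS (h1 hb))))
    have h6 := Finset.card_sdiff_add_card_eq_card hST
    omega
  · refine Cu_loc hc hST hTc ?_
    intro f hf hcon
    obtain ⟨hfT, hfS⟩ := Finset.mem_sdiff.1 hf
    have h1 : T.erase f ∈ K.powerset.filter (fun T => S ⊆ T ∧ PConn G (T : Set V)) := by
      rw [Finset.mem_filter, Finset.mem_powerset]
      refine ⟨(Finset.erase_subset f T).trans hTK, ?_, hcon⟩
      intro z hz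
      refine Finset.mem_erase.2 ⟨?_, hST hz⟩
      intro h
      exact hfS (h ▸ hz)
    have h2 := hmin _ h1
    have h3 := Finset.card_erase_lt_of_mem hfT
    omega

end

end Pool.Agent.H67.CF
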