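import Pool.Agent.H67.CF.Ob

/-!
Module Oc.  The good vertices carry no large clique minor.  Use only the STATEMENTS of Oa, Ob (and Defs).
`S_{≥k}` denotes `{v | Good v ∧ k ≤ dep v}`.

(1) `rowset_card`: let `M` be the set in the statement.  `M` is connected: first, for every `z'` with `Rch S_{≥k} x0 z'` we have
    `Rch G {z | z ∈ M} x0 (anc k z')`, by `rch_induct`: `anc k x0 = x0` (`anc_self`); for a step `x ~ y` inside `S_{≥k}` the vertices
    `anc k x`, `anc k y` are equal or adjacent (`anc_near`), `anc k y` is good (`good_anc`) of depth `k` (`dep_anc`), and it is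
    `Rch S_{≥k}` from `x0` because `anc k x` is in `M` (or is `x0`) by the induction hypothesis (`rch_mem'`) and `anc k y` is equal or
    adjacent to it.  For `z ∈ M`, `anc k z = z`.  So every `z ∈ M` is reached from `x0` inside `M`; `x0 ∈ M`; so `PConn G M` (`rch_symm`).
    Now `row_card`.
(2) `model_good_le`: let `f` be the model.  If `r = 0` trivial.  Let `t i := ` the least depth on `f i` (`Nat.find` or `sInf` of the
    image; it is attained since `f i` is nonempty) and let `i0` maximise `t` (`Finset.exists_max_image univ`), `k := t i0`.  So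
    `f i0 ⊆ S_{≥k}`; pick `x0 ∈ f i0` with `dep x0 = k`.  `M :=` the finset of (1).  CLAIM: every `f j` contains an element of `cN G M`.
    `j = i0`: `x0 ∈ M`.  `j ≠ i0`: there are `u ∈ f i0`, `y ∈ f j`, `u ~ y`; `Rch S_{≥k} x0 u` (`rch_mono`).  If `dep y < k`:
    `dep y ≥ dep u - 1 ≥ k - 1` forces `dep u = k` (`dep_near`), so `u ∈ M`, `y ∈ cN G M`.  If `k ≤ dep y`: then `Rch S_{≥k} x0 y`.
    `f j` contains a vertex `b` with `dep b = t j ≤ k`.  Walk inside `f j` from `y` to `b`.  By `rch_induct` on `Rch G (f j) y b` with the property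
    `P x := (x ∈ f j ∧ Rch S_{≥k} x0 x ∧ k ≤ dep x) ∨ (∃ z ∈ f j, z ∈ cN G M)`: for a step `x ~ z` from a vertex `x` of the first kind: if
    `k ≤ dep z`, `z` is of the first kind; otherwise `dep x = k`, so `x ∈ M`.  At `b`: if `b` is of the first kind then `dep b = k`, so
    `b ∈ M`.  This proves the claim.  Choosing one element of `f j ∩ cN G M` for every `j` gives an injection `Fin r → cN G M` (the `f j`
    are disjoint), so `r ≤ |cN G M| ≤ (d + 1) * |M| ≤ (d + 1) * (d ^ 2 * (d + 1))` (`cN_card`, (1)).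
-/

set_option autoImplicit false
set_option linter.all false

namespace Pool.Agent.H67.CF

open Classical

noncomputable section

variable {V : Type*} {G : SimpleGraph V} {o : V ↪ ℕ}

theorem rowset_card [Fintype V] (hc : ClawFree G) {d : ℕ} (hd1 : 1 ≤ d)
    (hdeg : ∀ v, (nb G v).card ≤ d) {k : ℕ} {x0 : V} (h0 : Good G o x0) (hk : dep G o x0 = k) :
    (Finset.univ.filter (fun z => Good G o z ∧ dep G o z = k ∧
      Rch G {v | Good G o v ∧ k ≤ dep G o v} x0 z)).card ≤ d ^ 2 * (d + 1) := by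
  obtain ⟨S, hS⟩ : ∃ S : Set V, S = {v | Good G o v ∧ k ≤ dep G o v} := ⟨_, rfl⟩
  obtain ⟨M, hM⟩ : ∃ M : Finset V, M = Finset.univ.filter (fun z => Good G o z ∧ dep G o z = k ∧
      Rch G {v | Good G o v ∧ k ≤ dep G o v} x0 z) := ⟨_, rfl⟩
  rw [← hM]
  have memS : ∀ z, z ∈ S ↔ Good G o z ∧ k ≤ dep G o z := fun z => by
    rw [hS]
    exact Iff.rfl
  have memM : ∀ z, z ∈ M ↔ Good G o z ∧ dep G o z = k ∧ Rch G S x0 z := fun z => by
    rw [hM, Finset.mem_filter, hS]
    exact ⟨fun h => h.2, fun h => ⟨Finset.mem_univ _, h⟩⟩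
  have hx0S : x0 ∈ S := (memS x0).2 ⟨h0, hk.ge⟩
  have hx0M : x0 ∈ M := (memM x0).2 ⟨h0, hk, rch_refl⟩
  have hMS : (M : Set V) ⊆ S := fun z hz => by
    have h1 := (memM z).1 (Finset.mem_coe.1 hz)
    exact (memS z).2 ⟨h1.1, h1.2.1.ge⟩
  have claim : ∀ z, Rch G S x0 z → Rch G (M : Set V) x0 (anc G o k z) := by
    intro z hz
    refine rch_induct (P := fun z => Rch G (M : Set V) x0 (anc G o k z)) hz ?_ ?_
    · rw [anc_self hk]
      exact rch_refl
    · intro x y hPx hx hxy hy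
      have hxS : x ∈ S := rch_mem' hx0S hx
      have gx := (memS x).1 hxS
      have gy := (memS y).1 hy
      rcases anc_near hc gx.1 gy.1 (Or.inr hxy) gx.2 gy.2 with h1 | h1
      · rw [← h1]
        exact hPx
      · have g1 : Good G o (anc G o k y) := good_anc hc gy.1 k
        have g2 : dep G o (anc G o k y) = k := dep_anc gy.2
        have g3 : anc G o k y ∈ S := (memS _).2 ⟨g1, g2.ge⟩
        have g4 : Rch G S x0 (anc G o k y) := rch_tail (rch_mono hMS hPx) h1 g3
        exact rch_tail hPx h1 (Finset.mem_coe.2 ((memM _).2 ⟨g1, g2, g4⟩))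
  refine row_card (o := o) hc hd1 hdeg (k := k) M (fun v hv => ?_) ?_
  · have h1 := (memM v).1 hv
    exact ⟨h1.1, h1.2.1⟩
  · have key : ∀ a ∈ (M : Set V), Rch G (M : Set V) x0 a := by
      intro a ha
      have h1 := (memM a).1 (Finset.mem_coe.1 ha)
      have h2 := claim a h1.2.2
      rwa [anc_self h1.2.1] at h2
    intro a ha b hb
    exact rch_trans (rch_symm (Finset.mem_coe.2 hx0M) (key a ha)) (key b hb)

theorem model_good_le [Fintype V] (hc : ClawFree G) {d : ℕ} (hd1 : 1 ≤ d)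
    (hdeg : ∀ v, (nb G v).card ≤ d) {r : ℕ} (hmod : Model G r {v | Good G o v}) :
    r ≤ (d + 1) * (d ^ 2 * (d + 1)) := by
  rcases Nat.eq_zero_or_pos r with hr | hr
  · rw [hr]
    exact Nat.zero_le _
  obtain ⟨f, hf1, hf2, hf3⟩ := hmod
  have hmin : ∀ i, ∃ b ∈ f i, ∀ x ∈ f i, dep G o b ≤ dep G o x := by
    intro i
    obtain ⟨b, hb, hb2⟩ := (InvImage.wf (dep G o) Nat.lt_wfRel.wf).has_min (f i) (hf1 i).2.1
    exact ⟨b, hb, fun x hx => not_lt.1 (hb2 x hx)⟩
  choose b hb hbm using hmin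
  obtain ⟨i0, -, hi0⟩ := Finset.exists_max_image (Finset.univ : Finset (Fin r))
    (fun i => dep G o (b i)) ⟨⟨0, hr⟩, Finset.mem_univ _⟩
  obtain ⟨k, hk⟩ : ∃ k, dep G o (b i0) = k := ⟨_, rfl⟩
  have hgood : ∀ i, ∀ x ∈ f i, Good G o x := fun i x hx => (hf1 i).1 hx
  have hcard := rowset_card hc hd1 hdeg (hgood i0 _ (hb i0)) hk
  obtain ⟨S, hS⟩ : ∃ S : Set V, S = {v | Good G o v ∧ k ≤ dep G o v} := ⟨_, rfl⟩
  obtain ⟨M, hM⟩ : ∃ M : Finset V, M = Finset.univ.filter (fun z => Good G o z ∧ dep G o z = k ∧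
      Rch G {v | Good G o v ∧ k ≤ dep G o v} (b i0) z) := ⟨_, rfl⟩
  rw [← hM] at hcard
  have memS : ∀ z, z ∈ S ↔ Good G o z ∧ k ≤ dep G o z := fun z => by
    rw [hS]
    exact Iff.rfl
  have memM : ∀ z, z ∈ M ↔ Good G o z ∧ dep G o z = k ∧ Rch G S (b i0) z := fun z => by
    rw [hM, Finset.mem_filter, hS]
    exact ⟨fun h => h.2, fun h => ⟨Finset.mem_univ _, h⟩⟩
  have hx0M : b i0 ∈ M := (memM _).2 ⟨hgood i0 _ (hb i0), hk, rch_refl⟩
  have hsub : f i0 ⊆ S := fun x hx => (memS x).2 ⟨hgood i0 x hx, hk ▸ hbm i0 x hx⟩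
  have claim : ∀ j, ∃ z ∈ f j, z ∈ cN G M := by
    intro j
    by_cases hj : i0 = j
    · subst hj
      exact ⟨b i0, hb i0, subset_cN hx0M⟩
    obtain ⟨u, hu, y, hy, huy⟩ := hf3 i0 j hj
    have huS := (memS u).1 (hsub hu)
    have hRu : Rch G S (b i0) u := rch_mono hsub ((hf1 i0).2.2 _ (hb i0) _ hu)
    have gy := hgood j y hy
    by_cases hyk : dep G o y < k
    · have h1 := dep_near hc gy huS.1 huy.symm
      have h2 : dep G o u = k := le_antisymm (by omega) huS.2
      exact ⟨y, hy, mem_cN.2 (Or.inr ⟨u, (memM u).2 ⟨huS.1, h2, hRu⟩, huy⟩)⟩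
    · have hyk' : k ≤ dep G o y := not_lt.1 hyk
      have hRy : Rch G S (b i0) y := rch_tail hRu huy ((memS y).2 ⟨gy, hyk'⟩)
      have hw := (hf1 j).2.2 y hy _ (hb j)
      have hP := rch_induct (P := fun x => (x ∈ f j ∧ Rch G S (b i0) x ∧ k ≤ dep G o x) ∨
        (∃ z ∈ f j, z ∈ cN G M)) hw (Or.inl ⟨hy, hRy, hyk'⟩) (by
          intro x z hPx _ hxz hz
          rcases hPx with ⟨hx, hr1, hk1⟩ | hPx
          · by_cases hzk : k ≤ dep G o z
            · exact Or.inl ⟨hz, rch_tail hr1 hxz ((memS z).2 ⟨hgood j z hz, hzk⟩), hzk⟩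
            · have h1 := dep_near hc (hgood j z hz) (hgood j x hx) hxz.symm
              have h2 : dep G o x = k := le_antisymm (by omega) hk1
              exact Or.inr ⟨x, hx, subset_cN ((memM x).2 ⟨hgood j x hx, h2, hr1⟩)⟩
          · exact Or.inr hPx)
      rcases hP with ⟨_, hr1, hk1⟩ | hP
      · have h1 : dep G o (b j) ≤ k := by
          rw [← hk]
          exact hi0 j (Finset.mem_univ _)
        exact ⟨b j, hb j, subset_cN ((memM _).2 ⟨hgood j _ (hb j), le_antisymm h1 hk1, hr1⟩)⟩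
      · exact hP
  choose g hg hg2 using claim
  have hinj : Function.Injective g := by
    intro i j hij
    by_contra hne
    have h1 := hf2 i j hne
    exact (Set.disjoint_left.1 h1) (hg i) (hij ▸ hg j)
  have h1 : r ≤ (cN G M).card := by
    have h2 := Finset.card_le_card_of_injOn (s := (Finset.univ : Finset (Fin r))) (t := cN G M) g
      (fun i _ => hg2 i) (fun i _ j _ h => hinj h)
    rwa [Finset.card_univ, Fintype.card_fin] at h2
  calc r ≤ (cN G M).card := h1
    _ ≤ (d + 1) * M.card := cN_card hdeg M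
    _ ≤ (d + 1) * (d ^ 2 * (d + 1)) := Nat.mul_le_mul_left _ hcard

end

end Pool.Agent.H67.CF
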