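import Pool.Agent.H67.CF.Ac
import Pool.Agent.H67.CF.Oc
import Pool.Agent.H67.CF.Cu
import Pool.Agent.H67.CF.Tr

/-!
Module Cn.  The upper bound for one connected set.  Use only the STATEMENTS of Ac, Ab, Oa, Oc, Cu, Tr (and Defs).

(1) `setup`: `o` from `avg'`.  `S := K.filter (Good)`, `I := K.filter (hd v = v)`.  `I ⊆ S` (`good_root`).  `S ≠ ∅`: otherwise `I = ∅` too and `wt d * |K| ≤ 0`,
    but `wt_pos`, `K.Nonempty`.  Elements `a, b ∈ I` with `Rch G S a b` are equal: `root_unique` (`rch_mono`, `S ⊆ {v | Good v}`).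
(2) `model_drop`: if `Model G (r+1) (insert x X)` then `Model G r X`: at most one branch set contains `x` (disjointness); if branch set `i0` contains `x`
    use the others, `fun i => f (i0.succAbove i)` (`Fin.succAbove_ne`, `Fin.succAbove_right_injective`); if none contains `x` drop the branch set `0`
    (same formula with `i0 := 0`).
(3) `con`: let `T0` be given by `cut_exists` for `K, S, I` of (1): `S ⊆ T0 ⊆ K`, `|I| + |S| ≤ |T0| + 1`, all `f ∈ T0 \ S` are gates.  `T0` has no model of `K_r` for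
    `r ≥ d^2 (d+1)^2 + 1`: otherwise `model_transfer` (`d + 2 ≤ r` since `d ≥ 2`, `d^2 (d+1)^2 + 1 ≥ d + 2`) gives `Model G r S`, so
    `Model G r {v | Good v}` (a model inside a subset is a model inside the larger set), so `r ≤ (d+1)(d^2(d+1))` by `model_good_le`, contradiction.
    If `T0 = K` take `T := K`: `wt d * |K| ≤ |K|` by `wt_le_one`.  Otherwise pick `x ∈ K \ T0` and take `T := insert x T0`:
    `|T| = |T0| + 1 ≥ |I| + |S| ≥ wt d * |K|`; a model of `K_r` in `T` with `r ≥ d^2 (d+1)^2 + 2` gives a model of `K_{r-1}` in `T0` by (2),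
    impossible.
-/

set_option autoImplicit false
set_option linter.all false

namespace Pool.Agent.H67.CF

open Classical

noncomputable section

variable {V : Type*} {G : SimpleGraph V}

/-- a model inside a subset is a model inside the larger set -/
theorem model_mono {r : ℕ} {X Y : Set V} (h : X ⊆ Y) (hm : Model G r X) : Model G r Y := by
  obtain ⟨f, h1, h2, h3⟩ := hm
  exact ⟨f, fun i => ⟨(h1 i).1.trans h, (h1 i).2⟩, h2, h3⟩

theorem setup [Fintype V] (hc : ClawFree G) {d : ℕ} (hdeg : ∀ v, (nb G v).card ≤ d)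
    {K : Finset V} (hK : K.Nonempty) :
    ∃ (o : V ↪ ℕ) (S I : Finset V), S = K.filter (fun v => Good G o v) ∧
      I = K.filter (fun v => hd G o v = v) ∧ I ⊆ S ∧ S.Nonempty ∧
      (∀ a ∈ I, ∀ b ∈ I, Rch G {v | Good G o v} a b → a = b) ∧
      wt d * K.card ≤ (S.card : ℝ) + (I.card : ℝ) := by
  obtain ⟨o, ho⟩ := avg' hc hdeg K
  have hsub : K.filter (fun v => hd G o v = v) ⊆ K.filter (fun v => Good G o v) := by
    intro v hv
    rw [Finset.mem_filter] at hv ⊢
    exact ⟨hv.1, good_root hv.2⟩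
  refine ⟨o, K.filter (fun v => Good G o v), K.filter (fun v => hd G o v = v), rfl, rfl, hsub,
    ?_, ?_, ho⟩
  · by_contra h
    rw [Finset.not_nonempty_iff_eq_empty] at h
    have h2 : K.filter (fun v => hd G o v = v) = ∅ := by
      rw [← Finset.subset_empty, ← h]
      exact hsub
    rw [h, h2] at ho
    have h3 := wt_pos d
    have h4 : (0 : ℝ) < K.card := by exact_mod_cast hK.card_pos
    have h5 := mul_pos h3 h4
    simp only [Finset.card_empty, Nat.cast_zero, add_zero] at ho
    linarith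
  · intro a ha b hb hr
    rw [Finset.mem_filter] at ha hb
    exact root_unique hc ha.2 hb.2 hr

theorem model_drop {r : ℕ} {X : Set V} {x : V} (hm : Model G (r + 1) (insert x X)) :
    Model G r X := by
  obtain ⟨f, h1, h2, h3⟩ := hm
  obtain ⟨i0, hi0⟩ : ∃ i0 : Fin (r + 1), ∀ j, j ≠ i0 → x ∉ f j := by
    by_cases h : ∃ i, x ∈ f i
    · obtain ⟨i, hi⟩ := h
      exact ⟨i, fun j hj hx => Set.disjoint_left.1 (h2 j i hj) hx hi⟩
    · push Not at h
      exact ⟨0, fun j _ => h j⟩
  refine ⟨fun i => f (i0.succAbove i), fun i => ⟨?_, (h1 _).2⟩,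
    fun i j hij => h2 _ _ (fun h => hij (Fin.succAbove_right_injective h)),
    fun i j hij => h3 _ _ (fun h => hij (Fin.succAbove_right_injective h))⟩
  intro z hz
  rcases (h1 _).1 hz with h | h
  · subst h
    exact absurd hz (hi0 _ (Fin.succAbove_ne i0 i))
  · exact h

theorem con [Fintype V] (hc : ClawFree G) {d : ℕ} (hd2 : 2 ≤ d) (hdeg : ∀ v, (nb G v).card ≤ d)
    {K : Finset V} (hK : K.Nonempty) (hconn : PConn G (K : Set V)) :
    ∃ T : Finset V, T ⊆ K ∧ wt d * K.card ≤ T.card ∧
      ∀ r, d ^ 2 * (d + 1) ^ 2 + 2 ≤ r → ¬ Model G r (T : Set V) := by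
  obtain ⟨o, S, I, hS, hI, hIS, hSne, huniq, hwt⟩ := setup hc hdeg hK
  have hSK : S ⊆ K := by rw [hS]; exact Finset.filter_subset _ _
  have hSg : (S : Set V) ⊆ {v | Good G o v} := by
    intro v hv
    rw [hS] at hv
    exact (Finset.mem_filter.1 (Finset.mem_coe.1 hv)).2
  obtain ⟨T0, hST, hTK, hTc, hcard, hloc⟩ := cut_exists hc hconn hSK hSne hIS
    (fun a ha b hb h => huniq a ha b hb (rch_mono hSg h))
  have hno : ∀ r, d ^ 2 * (d + 1) ^ 2 + 1 ≤ r → ¬ Model G r (T0 : Set V) := by
    intro r hr hm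
    have h1 : d + 2 ≤ r := by nlinarith
    have h2 := model_transfer hdeg h1 hST hloc hm
    have h3 := model_good_le hc (by omega) hdeg (model_mono hSg h2)
    have h4 : (d + 1) * (d ^ 2 * (d + 1)) = d ^ 2 * (d + 1) ^ 2 := by ring
    omega
  by_cases hT : T0 = K
  · refine ⟨K, subset_rfl, ?_, fun r hr => ?_⟩
    · have h1 := wt_le_one hd2
      have h2 : (0 : ℝ) ≤ K.card := Nat.cast_nonneg _
      nlinarith
    · rw [← hT]; exact hno r (by omega)
  · obtain ⟨x, hxK, hxT⟩ : ∃ x ∈ K, x ∉ T0 := by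
      by_contra h
      push Not at h
      exact hT (Finset.Subset.antisymm hTK h)
    refine ⟨insert x T0, Finset.insert_subset hxK hTK, ?_, fun r hr hm => ?_⟩
    · rw [Finset.card_insert_of_notMem hxT]
      push_cast
      have h1 : (I.card : ℝ) + S.card ≤ T0.card + 1 := by exact_mod_cast hcard
      linarith
    · obtain ⟨r', rfl⟩ : ∃ r', r = r' + 1 := ⟨r - 1, by omega⟩
      rw [Finset.coe_insert] at hm
      exact hno r' (by omega) (model_drop hm)

end

end Pool.Agent.H67.CF
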