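import Mathlib

/-!
MP_490a5a_co, claw-free graphs.  Basic definitions and proved basic lemmas.

`Rch G X a b`: there is a walk from `a` to `b` all of whose vertices after `a` lie in `X`.
`PConn G X`: `X` is empty or induces a connected subgraph.
`Model G r X`: there is a model of `K_r` (branch sets) inside `X`.
`Loc G T f`: any two neighbours of `f` in `T` which are joined inside `T \ {f}` are equal or adjacent.
-/

set_option autoImplicit false
set_option linter.all false

namespace Pool.Agent.H67.CF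

open Classical

noncomputable section

variable {V : Type*}

/-- no vertex has three pairwise non-adjacent neighbours -/
def ClawFree (G : SimpleGraph V) : Prop :=
  ∀ v a b c, G.Adj v a → G.Adj v b → G.Adj v c → a ≠ b → a ≠ c → b ≠ c →
    G.Adj a b ∨ G.Adj a c ∨ G.Adj b c

/-- there is a walk from `a` to `b` all of whose vertices after `a` lie in `X` -/
def Rch (G : SimpleGraph V) (X : Set V) (a b : V) : Prop :=
  Relation.ReflTransGen (fun x y => G.Adj x y ∧ y ∈ X) a b

/-- `X` is empty or induces a connected subgraph -/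
def PConn (G : SimpleGraph V) (X : Set V) : Prop := ∀ a ∈ X, ∀ b ∈ X, Rch G X a b

/-- there is a model of `K_r` with all branch sets inside `X` -/
def Model (G : SimpleGraph V) (r : ℕ) (X : Set V) : Prop :=
  ∃ f : Fin r → Set V, (∀ i, f i ⊆ X ∧ (f i).Nonempty ∧ PConn G (f i)) ∧
    (∀ i j, i ≠ j → Disjoint (f i) (f j)) ∧
    (∀ i j, i ≠ j → ∃ u ∈ f i, ∃ v ∈ f j, G.Adj u v)

/-- any two neighbours of `f` in `T` which are joined inside `T \ {f}` are equal or adjacent -/
def Loc (G : SimpleGraph V) (T : Set V) (f : V) : Prop :=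
  ∀ a b, a ∈ T → b ∈ T → G.Adj f a → G.Adj f b → Rch G (T \ {f}) a b → a = b ∨ G.Adj a b

/-- the class of `a` in `X` -/
def Cls (G : SimpleGraph V) (X : Set V) (a : V) : Set V := {z | z ∈ X ∧ Rch G X a z}

/-- neighbours as a finset -/
def nb [Fintype V] (G : SimpleGraph V) (v : V) : Finset V := Finset.univ.filter (fun w => G.Adj v w)

/-- closed neighbourhood of a finset -/
def cN [Fintype V] (G : SimpleGraph V) (M : Finset V) : Finset V := M ∪ M.biUnion (nb G)

/-- the weight `1/(⌊δ/2⌋+1) + 1/(⌊(δ+1)/2⌋+1)` -/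
def wt (δ : ℕ) : ℝ := 1 / (((δ / 2 : ℕ) : ℝ) + 1) + 1 / ((((δ + 1) / 2 : ℕ) : ℝ) + 1)

/-! ### the relation `Rch` -/

variable {G : SimpleGraph V} {X Y : Set V} {a b c f : V}

theorem rch_refl : Rch G X a a := Relation.ReflTransGen.refl

theorem rch_trans (h1 : Rch G X a b) (h2 : Rch G X b c) : Rch G X a c :=
  Relation.ReflTransGen.trans h1 h2

theorem rch_adj (h : G.Adj a b) (hb : b ∈ X) : Rch G X a b :=
  Relation.ReflTransGen.single ⟨h, hb⟩

theorem rch_tail (h1 : Rch G X a b) (h : G.Adj b c) (hc : c ∈ X) : Rch G X a c :=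
  Relation.ReflTransGen.tail h1 ⟨h, hc⟩

theorem rch_head (h : G.Adj a b) (hb : b ∈ X) (h2 : Rch G X b c) : Rch G X a c :=
  Relation.ReflTransGen.head ⟨h, hb⟩ h2

theorem rch_mono (hXY : X ⊆ Y) (h : Rch G X a b) : Rch G Y a b := by
  induction h with
  | refl => exact rch_refl
  | tail _ h2 ih => exact rch_tail ih h2.1 (hXY h2.2)

theorem rch_mem (h : Rch G X a b) : b = a ∨ b ∈ X := by
  induction h with
  | refl => exact Or.inl rfl
  | tail _ h2 _ => exact Or.inr h2.2

theorem rch_mem' (ha : a ∈ X) (h : Rch G X a b) : b ∈ X := by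
  rcases rch_mem h with h | h
  · rw [h]; exact ha
  · exact h

theorem rch_symm (ha : a ∈ X) (h : Rch G X a b) : Rch G X b a := by
  induction h with
  | refl => exact rch_refl
  | tail h1 h2 ih => exact rch_head h2.1.symm (rch_mem' ha h1) ih

/-- induction principle: a property which holds at `a` and is preserved by steps into `X` -/
theorem rch_induct {P : V → Prop} (h : Rch G X a b) (h0 : P a)
    (hs : ∀ x y, P x → Rch G X a x → G.Adj x y → y ∈ X → P y) : P b := by
  induction h with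
  | refl => exact h0
  | tail h1 h2 ih => exact hs _ _ ih h1 h2.1 h2.2

/-- reachability restricted to a set closed under steps -/
theorem rch_restrict (h : Rch G X a b) : Rch G (Cls G X a) a b := by
  induction h with
  | refl => exact rch_refl
  | tail h1 h2 ih => exact rch_tail ih h2.1 ⟨h2.2, rch_tail h1 h2.1 h2.2⟩

theorem mem_cls_self (ha : a ∈ X) : a ∈ Cls G X a := ⟨ha, rch_refl⟩

theorem cls_subset : Cls G X a ⊆ X := fun _ h => h.1

theorem cls_pconn (ha : a ∈ X) : PConn G (Cls G X a) := by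
  intro x hx y hy
  have h1 : Rch G (Cls G X a) a x := rch_restrict hx.2
  have h2 : Rch G (Cls G X a) a y := rch_restrict hy.2
  exact rch_trans (rch_symm (mem_cls_self ha) h1) h2

theorem cls_eq (ha : a ∈ X) (hb : b ∈ Cls G X a) : Cls G X b = Cls G X a := by
  ext z
  constructor
  · rintro ⟨hz, h⟩; exact ⟨hz, rch_trans hb.2 h⟩
  · rintro ⟨hz, h⟩; exact ⟨hz, rch_trans (rch_symm ha hb.2) h⟩

theorem pconn_subset_cls {Z : Set V} (hZ : PConn G Z) (hZX : Z ⊆ X) (ha : a ∈ Z) : Z ⊆ Cls G X a :=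
  fun z hz => ⟨hZX hz, rch_mono hZX (hZ a ha z hz)⟩

/-- adding a vertex: a walk in `insert f X` either avoids `f` or passes through `f` -/
theorem rch_or (hf : f ∉ X) (ha : a ≠ f) (h : Rch G (insert f X) a b) :
    (b ≠ f ∧ Rch G X a b) ∨
      ((∃ c, G.Adj c f ∧ (c = a ∨ c ∈ X) ∧ Rch G X a c) ∧
        (b = f ∨ ∃ c', G.Adj f c' ∧ c' ∈ X ∧ Rch G X c' b)) := by
  induction h with
  | refl => exact Or.inl ⟨ha, rch_refl⟩
  | @tail x y h1 h2 ih =>
    rcases ih with ⟨hx, ih⟩ | ⟨⟨c, hc1, hc2, hc3⟩, ih⟩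
    · by_cases hy : y = f
      · subst hy
        exact Or.inr ⟨⟨x, h2.1, rch_mem ih, ih⟩, Or.inl rfl⟩
      · have hyX : y ∈ X := by
          rcases h2.2 with h | h
          · exact absurd h hy
          · exact h
        exact Or.inl ⟨hy, rch_tail ih h2.1 hyX⟩
    · refine Or.inr ⟨⟨c, hc1, hc2, hc3⟩, ?_⟩
      by_cases hy : y = f
      · exact Or.inl hy
      · have hyX : y ∈ X := by
          rcases h2.2 with h | h
          · exact absurd h hy
          · exact h
        rcases ih with rfl | ⟨c', hc1', hc2', hc3'⟩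
        · exact Or.inr ⟨y, h2.1, hyX, rch_refl⟩
        · exact Or.inr ⟨c', hc1', hc2', rch_tail hc3' h2.1 hyX⟩

/-- removing a vertex: a walk in `X` either avoids `f` or passes through `f` -/
theorem rch_or' (ha : a ≠ f) (h : Rch G X a b) :
    (b ≠ f ∧ Rch G (X \ {f}) a b) ∨
      ((∃ c, G.Adj c f ∧ (c = a ∨ c ∈ X \ {f}) ∧ Rch G (X \ {f}) a c) ∧
        (b = f ∨ ∃ c', G.Adj f c' ∧ c' ∈ X \ {f} ∧ Rch G (X \ {f}) c' b)) := by
  have h1 : Rch G (insert f (X \ {f})) a b := by
    refine rch_mono ?_ h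
    intro z hz
    by_cases hzf : z = f
    · exact Or.inl hzf
    · exact Or.inr ⟨hz, hzf⟩
  exact rch_or (fun h => h.2 rfl) ha h1

/-! ### the bridge to `SimpleGraph.Connected` -/

theorem rch_of_reachable {x y : X} (h : (G.induce X).Reachable x y) : Rch G X x.1 y.1 := by
  obtain ⟨w⟩ := h
  induction w with
  | nil => exact rch_refl
  | cons hadj _ ih => exact rch_head hadj (Subtype.coe_prop _) ih

theorem reachable_of_rch (ha : a ∈ X) (h : Rch G X a b) (hb : b ∈ X) :
    (G.induce X).Reachable ⟨a, ha⟩ ⟨b, hb⟩ := by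
  induction h with
  | refl => exact SimpleGraph.Reachable.refl _
  | @tail x y h1 h2 ih =>
    have hx : x ∈ X := rch_mem' ha h1
    have h3 : (G.induce X).Adj ⟨x, hx⟩ ⟨y, hb⟩ := h2.1
    exact (ih hx).trans h3.reachable

theorem connected_iff : (G.induce X).Connected ↔ X.Nonempty ∧ PConn G X := by
  constructor
  · intro h
    refine ⟨?_, fun a ha b hb => ?_⟩
    · obtain ⟨x⟩ := h.nonempty
      exact ⟨x.1, x.2⟩
    · exact rch_of_reachable (h.preconnected ⟨a, ha⟩ ⟨b, hb⟩)
  · rintro ⟨⟨a, ha⟩, h⟩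
    haveI : Nonempty X := ⟨⟨a, ha⟩⟩
    exact ⟨fun x y => reachable_of_rch x.2 (h _ x.2 _ y.2) y.2⟩

/-! ### neighbourhoods -/

theorem mem_nb [Fintype V] {v w : V} : w ∈ nb G v ↔ G.Adj v w := by simp [nb]

theorem nb_card [Fintype V] (v : V) : (nb G v).card = (G.neighborSet v).ncard := by
  rw [← Set.ncard_coe_finset]
  congr 1
  ext w
  rw [Finset.mem_coe, mem_nb, SimpleGraph.mem_neighborSet]

theorem mem_cN [Fintype V] {M : Finset V} {v : V} :
    v ∈ cN G M ↔ v ∈ M ∨ ∃ u ∈ M, G.Adj u v := by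
  simp [cN, mem_nb]

theorem cN_card [Fintype V] {d : ℕ} (hd : ∀ v, (nb G v).card ≤ d) (M : Finset V) :
    (cN G M).card ≤ (d + 1) * M.card := by
  calc (cN G M).card ≤ M.card + (M.biUnion (nb G)).card := Finset.card_union_le _ _
    _ ≤ M.card + M.card * d := by
        gcongr
        exact Finset.card_biUnion_le_card_mul _ _ _ (fun v _ => hd v)
    _ = (d + 1) * M.card := by ring

theorem cN_iter_card [Fintype V] {d : ℕ} (hd : ∀ v, (nb G v).card ≤ d) (M : Finset V) (m : ℕ) :
    (((cN G)^[m]) M).card ≤ (d + 1) ^ m * M.card := by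
  induction m with
  | zero => simp
  | succ m ih =>
    rw [Function.iterate_succ_apply']
    calc (cN G ((cN G)^[m] M)).card ≤ (d + 1) * ((cN G)^[m] M).card := cN_card hd _
      _ ≤ (d + 1) * ((d + 1) ^ m * M.card) := by gcongr
      _ = (d + 1) ^ (m + 1) * M.card := by ring

theorem subset_cN [Fintype V] {M : Finset V} : M ⊆ cN G M := fun v hv => mem_cN.2 (Or.inl hv)

theorem cN_mono [Fintype V] {M N : Finset V} (h : M ⊆ N) : cN G M ⊆ cN G N := by
  intro v hv
  rw [mem_cN] at hv ⊢
  rcases hv with hv | ⟨u, hu, huv⟩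
  · exact Or.inl (h hv)
  · exact Or.inr ⟨u, h hu, huv⟩

/-! ### heads, depths, ancestors for an injective ordering `o : V ↪ ℕ` -/

theorem exists_hd (G : SimpleGraph V) (o : V ↪ ℕ) (v : V) :
    ∃ h, (h = v ∨ G.Adj v h) ∧ ∀ u, (u = v ∨ G.Adj v u) → o h ≤ o u := by
  have hne : ∃ n, ∃ h, (h = v ∨ G.Adj v h) ∧ o h = n := ⟨o v, v, Or.inl rfl, rfl⟩
  obtain ⟨h, hh, hn⟩ := Nat.find_spec hne
  refine ⟨h, hh, fun u hu => ?_⟩
  rw [hn]
  exact Nat.find_min' hne ⟨u, hu, rfl⟩

/-- the first vertex of the closed neighbourhood of `v` -/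
def hd (G : SimpleGraph V) (o : V ↪ ℕ) (v : V) : V := Classical.choose (exists_hd G o v)

variable {o : V ↪ ℕ} {v u : V}

theorem hd_or : hd G o v = v ∨ G.Adj v (hd G o v) := (Classical.choose_spec (exists_hd G o v)).1

theorem hd_le_self : o (hd G o v) ≤ o v :=
  (Classical.choose_spec (exists_hd G o v)).2 v (Or.inl rfl)

theorem hd_le (h : G.Adj v u) : o (hd G o v) ≤ o u :=
  (Classical.choose_spec (exists_hd G o v)).2 u (Or.inr h)

theorem hd_adj (h : hd G o v ≠ v) : G.Adj v (hd G o v) := hd_or.resolve_left h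

theorem hd_lt_self (h : hd G o v ≠ v) : o (hd G o v) < o v :=
  lt_of_le_of_ne hd_le_self (fun h' => h (o.injective h'))

theorem hd_lt (h : G.Adj v u) (h' : hd G o v ≠ u) : o (hd G o v) < o u :=
  lt_of_le_of_ne (hd_le h) (fun h'' => h' (o.injective h''))

theorem hd_eq_of {h : V} (h1 : h = v ∨ G.Adj v h) (h2 : ∀ u, (u = v ∨ G.Adj v u) → o h ≤ o u) :
    hd G o v = h := by
  apply o.injective
  apply le_antisymm
  · rcases h1 with rfl | h1
    · exact hd_le_self
    · exact hd_le h1
  · exact h2 _ hd_or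

/-- `v` is good: all smaller neighbours of `v` lie in the closed neighbourhood of its head -/
def Good (G : SimpleGraph V) (o : V ↪ ℕ) (v : V) : Prop :=
  ∀ u, G.Adj v u → o u < o v → u = hd G o v ∨ G.Adj (hd G o v) u

/-- the depth of `v` in the head forest -/
def dep (G : SimpleGraph V) (o : V ↪ ℕ) (v : V) : ℕ :=
  if h : hd G o v = v then 0 else dep G o (hd G o v) + 1
termination_by o v
decreasing_by exact hd_lt_self h

theorem dep_root (h : hd G o v = v) : dep G o v = 0 := by
  rw [dep, dif_pos h]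

theorem dep_succ (h : hd G o v ≠ v) : dep G o v = dep G o (hd G o v) + 1 := by
  rw [dep, dif_neg h]

theorem dep_eq_zero : dep G o v = 0 ↔ hd G o v = v := by
  constructor
  · intro h
    by_contra h'
    rw [dep_succ h'] at h
    omega
  · exact dep_root

theorem hd_ne (h : 1 ≤ dep G o v) : hd G o v ≠ v := by
  intro h'
  rw [dep_root h'] at h
  omega

theorem dep_hd (h : 1 ≤ dep G o v) : dep G o (hd G o v) + 1 = dep G o v :=
  (dep_succ (hd_ne h)).symm

theorem dep_iter (n : ℕ) (h : n ≤ dep G o v) : dep G o ((hd G o)^[n] v) + n = dep G o v := by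
  induction n with
  | zero => rfl
  | succ n ih =>
    have h1 := ih (by omega)
    rw [Function.iterate_succ_apply']
    have h2 : 1 ≤ dep G o ((hd G o)^[n] v) := by omega
    have h3 := dep_hd h2
    omega

/-- the ancestor of `v` at depth `k` (for `k ≤ dep v`) -/
def anc (G : SimpleGraph V) (o : V ↪ ℕ) (k : ℕ) (v : V) : V := (hd G o)^[dep G o v - k] v

theorem dep_anc {k : ℕ} (h : k ≤ dep G o v) : dep G o (anc G o k v) = k := by
  have := dep_iter (G := G) (o := o) (v := v) (dep G o v - k) (by omega)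
  unfold anc
  omega

theorem anc_self {k : ℕ} (h : dep G o v = k) : anc G o k v = v := by
  unfold anc
  rw [h, Nat.sub_self]
  rfl

theorem anc_hd {k : ℕ} (h : k < dep G o v) : anc G o k (hd G o v) = anc G o k v := by
  unfold anc
  have h1 := dep_hd (G := G) (o := o) (v := v) (by omega)
  have h2 : dep G o v - k = (dep G o (hd G o v) - k) + 1 := by omega
  rw [h2, Function.iterate_succ_apply]

end

end Pool.Agent.H67.CF
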