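import Pool.Agent.H67.CF.Cn
import Pool.Agent.H67.CF.La
import Pool.Agent.H67.CF.Bf

/-!
Module Fg.  Fragmentation of one component.  Use only the STATEMENTS of Cn, Oa, Oc, Cu, La, Bf, Ab (and Defs).

`C1 d m := (d+1)^m * (d^2 (d+1))`, `CC d m := m + (d+1)^m * ((d+1) (1 + (d+1) C1))`.
Proof of `frag_con`.  `n := |K|`.  If `n ≤ m` take `T := K`: `wt d * n ≤ n` (`wt_le_one`), every `Z ⊆ K` has `|Z| ≤ n ≤ m ≤ CC d m`.  Let `m < n`.
(1) `o, S, I` from `setup`.  Apply `layer` to `X := S`, `lev := dep G o`, `par := hd G o`, `R := d^2 (d+1)`.  Hypotheses: for `v ∈ S`, `1 ≤ dep v`: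
    `v ~ hd v` (`hd_adj`, `hd_ne`), so `hd v ∈ K` (`hcl`), `hd v` is good (`good_hd`), `dep_hd`.  `hlev` is `dep_near`.  `hR`: the row set of `x0` is contained in the
    finset of `rowset_card` (`k := dep x0`; `rch_mono`).  Result: `S' ⊆ S`, all `v ∈ S` of depth `0` are in `S'`, so `I ⊆ S'` (`dep_root`);
    `m |S| ≤ m |S'| + |S|`; every connected `Z ⊆ S'` has `|Z| ≤ C1 d m`.
(2) `S'` is nonempty: `I` is nonempty: take the `o`-smallest element `v` of `K` (`Finset.exists_min_image`): its neighbours are in `K`, so `hd v = v`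
    (`hd_eq_of`).  `cut_exists` for `K, S', I` (elements of `I` joined in `S'` are joined in `{v | Good v}`): `T0` with `S' ⊆ T0 ⊆ K`, `PConn T0`,
    `|I| + |S'| ≤ |T0| + 1`, gates.
(3) `bfs` for `T0` and some `v0 ∈ T0`; `layer` for `X := T0` with these `lev, par` and `R := (d+1)(1 + (d+1) C1)`: for `x0` with `lev x0 ≥ 1` `hR` is `top_card`
    (with `S'`, gates, `C1 := C1 d m`); for `lev x0 = 0` the row set is contained in `{v0}`, so it has at most `1 ≤ R` elements.  Result `T ⊆ T0` with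
    `m |T0| ≤ m |T| + |T0|` and every connected `Z ⊆ T` has at most `(d+1)^m * R ≤ CC d m` elements.
(4) `m |T| ≥ m |T0| - |T0| ≥ m (|I| + |S'| - 1) - n ≥ m |I| + m |S| - |S| - m - n ≥ m (|I| + |S|) - 3 n ≥ m wt d n - 3 n`  (using `|S|, |T0| ≤ n`, `m ≤ n`).
    This is the stated inequality `m * (wt d * n) ≤ m * |T| + 3 n`.
-/

set_option autoImplicit false
set_option linter.all false

namespace Pool.Agent.H67.CF

open Classical

noncomputable section

variable {V : Type*} {G : SimpleGraph V}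

/-- bound for the pieces of the good set -/
def C1 (d m : ℕ) : ℕ := (d + 1) ^ m * (d ^ 2 * (d + 1))

/-- bound for the final pieces -/
def CC (d m : ℕ) : ℕ := m + (d + 1) ^ m * ((d + 1) * (1 + (d + 1) * C1 d m))

theorem frag_con [Fintype V] (hc : ClawFree G) {d : ℕ} (hd2 : 2 ≤ d)
    (hdeg : ∀ v, (nb G v).card ≤ d) {m : ℕ} (hm : 1 ≤ m)
    {K : Finset V} (hK : K.Nonempty) (hconn : PConn G (K : Set V))
    (hcl : ∀ x ∈ K, ∀ y, G.Adj x y → y ∈ K) :
    ∃ T : Finset V, T ⊆ K ∧ (m : ℝ) * (wt d * K.card) ≤ m * T.card + 3 * K.card ∧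
      ∀ Z : Finset V, Z ⊆ T → PConn G (Z : Set V) → Z.card ≤ CC d m := by
  rcases Nat.lt_or_ge m K.card with hmn | hmn
  swap
  · refine ⟨K, Finset.Subset.refl _, ?_, ?_⟩
    · have h1 := wt_le_one hd2
      have h2 : (0 : ℝ) ≤ K.card := Nat.cast_nonneg _
      have h3 : (0 : ℝ) ≤ m := Nat.cast_nonneg _
      have h4 : wt d * K.card ≤ K.card := by nlinarith
      have h5 : (m : ℝ) * (wt d * K.card) ≤ m * K.card := mul_le_mul_of_nonneg_left h4 h3
      linarith
    · intro Z hZ _
      have h1 := Finset.card_le_card hZ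
      unfold CC
      omega
  obtain ⟨o, S, I, hSdef, hIdef, hIS, hSne, hIu, hSI⟩ := setup hc hdeg hK
  have hSK : S ⊆ K := by rw [hSdef]; exact Finset.filter_subset _ _
  have hSgood : ∀ v ∈ S, Good G o v := by
    intro v hv
    rw [hSdef, Finset.mem_filter] at hv
    exact hv.2
  obtain ⟨S', hS'S, hroot, hS'card, hpc⟩ := layer hdeg S (dep G o) (hd G o)
    (by
      intro v hv h1
      have hvK := hSK hv
      have hadj : G.Adj v (hd G o v) := hd_adj (hd_ne h1)
      refine ⟨?_, hadj, dep_hd h1⟩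
      rw [hSdef, Finset.mem_filter]
      exact ⟨hcl v hvK _ hadj, good_hd hc v⟩)
    (fun u hu v hv h => dep_near hc (hSgood u hu) (hSgood v hv) h)
    (d ^ 2 * (d + 1))
    (by
      intro x0 hx0
      refine le_trans (Finset.card_le_card ?_)
        (rowset_card hc (by omega) hdeg (hSgood x0 hx0) (k := dep G o x0) rfl)
      intro z hz
      rw [Finset.mem_filter] at hz ⊢
      refine ⟨Finset.mem_univ _, hSgood z hz.1, hz.2.1, rch_mono ?_ hz.2.2⟩
      rintro w ⟨hw1, hw2⟩
      exact ⟨hSgood w hw1, hw2⟩) hm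
  have hIS' : I ⊆ S' := by
    intro v hv
    have hv2 := hv
    rw [hIdef, Finset.mem_filter] at hv2
    exact hroot v (hIS hv) (dep_root hv2.2)
  have hIne : I.Nonempty := by
    obtain ⟨v, hvK, hv⟩ := Finset.exists_min_image K o hK
    refine ⟨v, ?_⟩
    rw [hIdef, Finset.mem_filter]
    refine ⟨hvK, hd_eq_of (Or.inl rfl) ?_⟩
    rintro u (rfl | hu)
    · exact le_rfl
    · exact hv u (hcl v hvK u hu)
  have hS'K : S' ⊆ K := hS'S.trans hSK
  obtain ⟨T0, hS'T0, hT0K, hT0conn, hT0card, hgates⟩ := cut_exists hc hconn hS'K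
    (hIne.mono hIS') hIS' (by
      intro a ha b hb hab
      refine hIu a ha b hb (rch_mono ?_ hab)
      intro v hv
      exact hSgood v (hS'S hv))
  obtain ⟨v0, hv0⟩ : T0.Nonempty := (hIne.mono hIS').mono hS'T0
  obtain ⟨lev, par, hl0, h0, hpar, hlev⟩ := bfs hT0conn hv0
  obtain ⟨T, hTT0, -, hTcard, hTp⟩ := layer hdeg T0 lev par hpar hlev
    ((d + 1) * (1 + (d + 1) * C1 d m))
    (by
      intro x0 hx0
      rcases Nat.eq_zero_or_pos (lev x0) with hx | hx
      · have h1 : (T0.filter (fun z => lev z = lev x0 ∧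
            Rch G {v | v ∈ T0 ∧ lev x0 ≤ lev v} x0 z)) ⊆ {v0} := by
          intro z hz
          rw [Finset.mem_filter] at hz
          rw [Finset.mem_singleton]
          exact h0 z hz.1 (hz.2.1.trans hx)
        refine (Finset.card_le_card h1).trans ?_
        rw [Finset.card_singleton]
        exact Nat.one_le_iff_ne_zero.2 (by positivity)
      · exact top_card hdeg hS'T0 hgates (fun Z hZ hZc => hpc Z hZ hZc) hv0 lev par h0 hpar
          hx0 hx) hm
  refine ⟨T, hTT0.trans hT0K, ?_, ?_⟩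
  · have e1 : m * S.card + m * I.card ≤ m * T.card + 3 * K.card := by
      have h1 : S.card ≤ K.card := Finset.card_le_card hSK
      have h2 : T0.card ≤ K.card := Finset.card_le_card hT0K
      have h3 : m * (I.card + S'.card) ≤ m * (T0.card + 1) := Nat.mul_le_mul_left m hT0card
      rw [Nat.mul_add, Nat.mul_add] at h3
      omega
    have e2 : (m : ℝ) * S.card + m * I.card ≤ m * T.card + 3 * K.card := by exact_mod_cast e1
    have h3 : (0 : ℝ) ≤ m := Nat.cast_nonneg _
    have e3 := mul_le_mul_of_nonneg_left hSI h3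
    rw [mul_add] at e3
    linarith
  · intro Z hZ hZc
    refine (hTp Z hZ hZc).trans ?_
    unfold CC
    omega

end

end Pool.Agent.H67.CF
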