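import Pool.Agent.H67.CF.Fg

/-!
Module Un.  From components to the whole graph.  Use only the STATEMENTS of Cn, Fg (and Defs).

(1) `uni`: for `x : V` let `K x := univ.filter (fun y => Rch G univ x y)`: nonempty (`x` itself), `PConn G (K x)` (`cls_pconn`: `K x` is `Cls G univ x`), closed under
    adjacency (`rch_tail`).  If `Rch G univ x y` then `K x = K y` (`cls_eq`).  The distinct `K x` partition `univ`.  Choose for every finset `K` a finset `F K ⊆ K` with the
    property in `h` when `K` is such a component (and `F K = ∅` otherwise).  `T := univ.filter (fun y => y ∈ F (K y))`.  For every `x`: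
    `T.filter (Rch G univ x ·) = F (K x)` (`y ∈ K x` implies `K y = K x`; and `F (K x) ⊆ K x`).  Let `P := univ.image K` (the set of components).
    `|V| = ∑_{L ∈ P} |L|` and `|T| = ∑_{L ∈ P} |F L|` (`Finset.card_eq_sum_card_fiberwise` with the map `K : V → P`; the fibre of `L = K x`
    in `univ` is `K x`, the fibre in `T` is `F L`).  Sum the inequalities.
(2) `upper_model`: `uni` with `w := wt d`, `c := 0`, `Q F := ∀ r, d^2(d+1)^2+2 ≤ r → ¬ Model G r F` and `con`.  A model of `K_r` in `T`, `r ≥ 2 > 0`: the branch set `0`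
    contains a vertex `x`; every vertex of every branch set is `Rch G univ` from `x` (branch sets are connected and joined by edges), so all branch sets lie in
    `T.filter (Rch G univ x ·) = F` with `Q F`; contradiction.
(3) `upper_frag`: `uni` applied with `w := m * wt d`... more precisely use it with real numbers: `w := wt d`, `c := 3 / m` (divide the inequality of `frag_con` by `m > 0`),
    `Q F := ∀ Z ⊆ F, PConn G Z → |Z| ≤ CC d m`.  A connected `Z ⊆ T` is empty or contains some `x`, and then `Z ⊆ T.filter (Rch G univ x ·)`.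
-/

set_option autoImplicit false
set_option linter.all false

namespace Pool.Agent.H67.CF

open Classical

noncomputable section

variable {V : Type*} {G : SimpleGraph V}

theorem uni [Fintype V] (w c : ℝ) (Q : Finset V → Prop)
    (h : ∀ K : Finset V, K.Nonempty → PConn G (K : Set V) → (∀ x ∈ K, ∀ y, G.Adj x y → y ∈ K) →
      ∃ F : Finset V, F ⊆ K ∧ Q F ∧ w * K.card ≤ F.card + c * K.card) :
    ∃ T : Finset V, w * Fintype.card V ≤ T.card + c * Fintype.card V ∧
      ∀ x, Q (T.filter (fun y => Rch G Set.univ x y)) := by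
  set K : V → Finset V := fun x => Finset.univ.filter (fun y => Rch G Set.univ x y) with hK
  have memK : ∀ x y, y ∈ K x ↔ Rch G Set.univ x y := by
    intro x y
    simp [hK]
  have self : ∀ x, x ∈ K x := fun x => (memK x x).2 rch_refl
  have hKeq : ∀ x y, y ∈ K x → K y = K x := by
    intro x y hy
    rw [memK] at hy
    ext z
    rw [memK, memK]
    exact ⟨fun hz => rch_trans hy hz, fun hz => rch_trans (rch_symm (Set.mem_univ x) hy) hz⟩
  have hKeq' : ∀ x y, K y = K x → y ∈ K x := by
    intro x y hy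
    rw [← hy]
    exact self y
  have hcoe : ∀ x, (K x : Set V) = Cls G Set.univ x := by
    intro x
    ext z
    rw [Finset.mem_coe, memK]
    exact ⟨fun h => ⟨Set.mem_univ z, h⟩, fun h => h.2⟩
  set P : Finset (Finset V) := Finset.univ.image K with hP
  have hex : ∀ L ∈ P, ∃ F : Finset V, F ⊆ L ∧ Q F ∧ w * L.card ≤ F.card + c * L.card := by
    intro L hL
    obtain ⟨x, -, rfl⟩ := Finset.mem_image.1 hL
    refine h (K x) ⟨x, self x⟩ ?_ ?_
    · rw [hcoe]
      exact cls_pconn (Set.mem_univ x)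
    · intro a ha b hab
      rw [memK] at ha ⊢
      exact rch_tail ha hab (Set.mem_univ b)
  choose! F hF using hex
  have hKP : ∀ x, K x ∈ P := fun x => Finset.mem_image.2 ⟨x, Finset.mem_univ x, rfl⟩
  set T : Finset V := Finset.univ.filter (fun y => y ∈ F (K y)) with hT
  have memT : ∀ y, y ∈ T ↔ y ∈ F (K y) := by
    intro y
    simp [hT]
  refine ⟨T, ?_, ?_⟩
  · have h1 : (Fintype.card V : ℝ) = ∑ L ∈ P, (L.card : ℝ) := by
      rw [← Finset.card_univ, Finset.card_eq_sum_card_fiberwise (f := K) (t := P)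
        (fun x _ => hKP x)]
      push_cast
      refine Finset.sum_congr rfl fun L hL => ?_
      obtain ⟨x, -, rfl⟩ := Finset.mem_image.1 hL
      congr 2
      ext a
      rw [Finset.mem_filter]
      exact ⟨fun ha => hKeq' x a ha.2, fun ha => ⟨Finset.mem_univ a, hKeq x a ha⟩⟩
    have h2 : (T.card : ℝ) = ∑ L ∈ P, ((F L).card : ℝ) := by
      rw [Finset.card_eq_sum_card_fiberwise (f := K) (t := P) (fun x _ => hKP x)]
      push_cast
      refine Finset.sum_congr rfl fun L hL => ?_
      obtain ⟨x, -, rfl⟩ := Finset.mem_image.1 hL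
      congr 2
      ext a
      rw [Finset.mem_filter, memT]
      constructor
      · rintro ⟨ha, hb⟩
        rw [← hb]
        exact ha
      · intro ha
        have h3 := hKeq x a ((hF (K x) (hKP x)).1 ha)
        rw [h3]
        exact ⟨ha, rfl⟩
    rw [h1, h2, Finset.mul_sum, Finset.mul_sum, ← Finset.sum_add_distrib]
    exact Finset.sum_le_sum fun L hL => (hF L hL).2.2
  · intro x
    have h1 : T.filter (fun y => Rch G Set.univ x y) = F (K x) := by
      ext y
      rw [Finset.mem_filter, memT, ← memK]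
      constructor
      · rintro ⟨ha, hb⟩
        rw [← hKeq x y hb]
        exact ha
      · intro ha
        have hb := (hF (K x) (hKP x)).1 ha
        rw [hKeq x y hb]
        exact ⟨ha, hb⟩
    rw [h1]
    exact (hF (K x) (hKP x)).2.1

theorem upper_model [Fintype V] (hc : ClawFree G) {d : ℕ} (hd2 : 2 ≤ d)
    (hdeg : ∀ v, (nb G v).card ≤ d) :
    ∃ T : Finset V, wt d * Fintype.card V ≤ T.card ∧
      ∀ r, d ^ 2 * (d + 1) ^ 2 + 2 ≤ r → ¬ Model G r (T : Set V) := by
  obtain ⟨T, hT, hQ⟩ := uni (G := G) (wt d) 0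
    (fun F => ∀ r, d ^ 2 * (d + 1) ^ 2 + 2 ≤ r → ¬ Model G r (F : Set V)) (by
      intro K hne hconn _
      obtain ⟨F, h1, h2, h3⟩ := con hc hd2 hdeg hne hconn
      exact ⟨F, h1, h3, by rw [zero_mul, add_zero]; exact h2⟩)
  refine ⟨T, by rwa [zero_mul, add_zero] at hT, ?_⟩
  intro r hr hm
  obtain ⟨f, h1, h2, h3⟩ := hm
  have hr0 : 0 < r := by omega
  obtain ⟨x, hx⟩ := (h1 ⟨0, hr0⟩).2.1
  refine hQ x r hr ⟨f, fun i => ⟨?_, (h1 i).2⟩, h2, h3⟩
  intro y hy
  rw [Finset.mem_coe, Finset.mem_filter]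
  refine ⟨(h1 i).1 hy, ?_⟩
  by_cases hi : i = ⟨0, hr0⟩
  · subst hi
    exact rch_mono (Set.subset_univ _) ((h1 _).2.2 x hx y hy)
  · obtain ⟨u, hu, v, hv, huv⟩ := h3 ⟨0, hr0⟩ i (Ne.symm hi)
    have e1 : Rch G Set.univ x u := rch_mono (Set.subset_univ _) ((h1 _).2.2 x hx u hu)
    have e2 : Rch G Set.univ v y := rch_mono (Set.subset_univ _) ((h1 _).2.2 v hv y hy)
    exact rch_trans (rch_tail e1 huv (Set.mem_univ v)) e2

theorem upper_frag [Fintype V] (hc : ClawFree G) {d : ℕ} (hd2 : 2 ≤ d)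
    (hdeg : ∀ v, (nb G v).card ≤ d) {m : ℕ} (hm : 1 ≤ m) :
    ∃ T : Finset V, wt d * Fintype.card V ≤ T.card + 3 / (m : ℝ) * Fintype.card V ∧
      ∀ Z : Finset V, Z ⊆ T → PConn G (Z : Set V) → Z.card ≤ CC d m := by
  have hm0 : (0 : ℝ) < m := by
    have : (1 : ℝ) ≤ m := by exact_mod_cast hm
    linarith
  obtain ⟨T, hT, hQ⟩ := uni (G := G) (wt d) (3 / (m : ℝ))
    (fun F => ∀ Z : Finset V, Z ⊆ F → PConn G (Z : Set V) → Z.card ≤ CC d m) (by
      intro K hne hconn hcl
      obtain ⟨F, h1, h2, h3⟩ := frag_con hc hd2 hdeg hm hne hconn hcl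
      refine ⟨F, h1, h3, ?_⟩
      have h4 : (F.card : ℝ) + 3 / (m : ℝ) * K.card = (m * F.card + 3 * K.card) / m := by
        field_simp
      rw [h4, le_div_iff₀ hm0]
      linarith)
  refine ⟨T, hT, ?_⟩
  intro Z hZT hZ
  rcases Z.eq_empty_or_nonempty with rfl | ⟨x, hx⟩
  · simp
  · refine hQ x Z ?_ hZ
    intro z hz
    rw [Finset.mem_filter]
    exact ⟨hZT hz, rch_mono (Set.subset_univ _) (hZ x hx z hz)⟩

end

end Pool.Agent.H67.CF
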