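import Pool.Agent.H67.CF.Sd
import Pool.Agent.H67.CF.Un

/-!
Module Fu.  The upper bounds for the two sets.  Use only the STATEMENTS of Un (and Defs, Sd).

`nb_card` turns the degree condition with `neighborSet.ncard` into the one with `nb`; `connected_iff` turns `(G.induce X).Connected` into `X.Nonempty ∧ PConn G X`.
(1) `mu_mem`: `ε > 0`, `N := 0`.  `upper_model` gives `T`; `S := univ \ T = Tᶜ`, `|S| = n - |T| ≤ (1 - wt d) n ≤ (1 - wt d + ε) n`.  A forbidden `f` is a `Model G r T`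
    (`f i` disjoint from `Tᶜ` means `f i ⊆ T`).
(2) `cf_mem`: `ε > 0`; choose `m ≥ 1` with `3 / m ≤ ε`; `C := CC d m`; `upper_frag` gives `T`, `S := Tᶜ`; a set `T'` disjoint from `S` with connected induced graph is a
    subset of `T`; `Z := T'.toFinset` (finite), `PConn`, so `T'.ncard = |Z| ≤ C`.
-/

set_option autoImplicit false
set_option linter.all false

namespace Pool.Agent.H67.CF

open Classical

noncomputable section

theorem mu_mem {P : (n : ℕ) → SimpleGraph (Fin n) → Prop} (hP : ∀ n G, P n G → ClawFree G)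
    {d r : ℕ} (hd2 : 2 ≤ d) (hr : d ^ 2 * (d + 1) ^ 2 + 2 ≤ r) : 1 - wt d ∈ muSet P r d := by
  intro ε hε
  refine ⟨0, fun n _ G hPG hdeg => ?_⟩
  have hc := hP n G hPG
  have hdeg' : ∀ v, (nb G v).card ≤ d := fun v => by
    rw [nb_card]
    exact hdeg v
  obtain ⟨T, hT, hM⟩ := upper_model hc hd2 hdeg'
  refine ⟨Tᶜ, ?_, ?_⟩
  · have h1 : T.card ≤ n := by simpa using Finset.card_le_univ T
    rw [Finset.card_compl, Fintype.card_fin, Nat.cast_sub h1]
    rw [Fintype.card_fin] at hT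
    have h2 : 0 ≤ ε * (n : ℝ) := mul_nonneg hε.le (Nat.cast_nonneg n)
    linarith
  · rintro ⟨f, hf1, hf2, hf3, hf4⟩
    apply hM r hr
    refine ⟨f, fun i => ⟨?_, (connected_iff.1 (hf2 i)).1, (connected_iff.1 (hf2 i)).2⟩, hf3, hf4⟩
    intro x hx
    by_contra hxT
    refine (Set.disjoint_left.1 (hf1 i)) hx ?_
    rw [Finset.mem_coe, Finset.mem_compl]
    exact hxT

theorem cf_mem {P : (n : ℕ) → SimpleGraph (Fin n) → Prop} (hP : ∀ n G, P n G → ClawFree G)
    {d : ℕ} (hd2 : 2 ≤ d) : 1 - wt d ∈ cfSet P d := by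
  intro ε hε
  obtain ⟨m, hm⟩ := exists_nat_gt (3 / ε)
  have hm0 : (0 : ℝ) < m := lt_of_le_of_lt (by positivity) hm
  have hm1 : 1 ≤ m := by
    have h0 : 0 < m := by exact_mod_cast hm0
    omega
  have hm3 : 3 / (m : ℝ) ≤ ε := by
    rw [div_lt_iff₀ hε] at hm
    rw [div_le_iff₀ hm0]
    linarith
  refine ⟨CC d m, fun n G hPG hdeg => ?_⟩
  have hc := hP n G hPG
  have hdeg' : ∀ v, (nb G v).card ≤ d := fun v => by
    rw [nb_card]
    exact hdeg v
  obtain ⟨T, hT, hM⟩ := upper_frag hc hd2 hdeg' hm1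
  refine ⟨Tᶜ, ?_, ?_⟩
  · have h1 : T.card ≤ n := by simpa using Finset.card_le_univ T
    rw [Finset.card_compl, Fintype.card_fin, Nat.cast_sub h1]
    rw [Fintype.card_fin] at hT
    have h2 : 3 / (m : ℝ) * (n : ℝ) ≤ ε * (n : ℝ) :=
      mul_le_mul_of_nonneg_right hm3 (Nat.cast_nonneg n)
    linarith
  · intro T' hT' hconn
    have h1 : T' ⊆ (T : Set (Fin n)) := by
      intro x hx
      by_contra hxT
      refine (Set.disjoint_left.1 hT') hx ?_
      rw [Finset.mem_coe, Finset.mem_compl]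
      exact hxT
    have hfin : T'.Finite := Set.toFinite T'
    have h2 := hM hfin.toFinset (by
      intro x hx
      exact h1 (hfin.mem_toFinset.1 hx)) (by
      rw [hfin.coe_toFinset]
      exact (connected_iff.1 hconn).2)
    rw [Set.ncard_eq_toFinset_card T' hfin]
    exact h2

end

end Pool.Agent.H67.CF
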