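import Pool.Agent.H67.CF.Oa

/-!
Module Ob.  Rows of the head forest have bounded size.  Use only the STATEMENTS of Oa (and Defs).
`dep_near` (both directions): depths of adjacent good vertices differ by at most one.

(1) `child_clique`: claw-freeness at `a` with leaves `hd a`, `x`, `y` (`hd_adj`, `hd_ne`); `hd a ≠ x`, `hd a ≠ y` by depth
    (`dep (hd a) + 1 = dep a`); `hd a` is good (`good_hd`), so `hd a ~ x` would give `dep x ≤ dep (hd a) + 1 = dep a`, false;
    same for `y`.  So `x ~ y`.
(2) `no_P3`: put `q_i := hd a_i`, good, `dep q_i + 1 = ℓ`, `1 ≤ dep q_i`.  Claw-freeness at `a2` with leaves `q2, a1, a3` (distinct by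
    depth; `a1 ≁ a3`): `q2 ~ a1` or `q2 ~ a3`.  Not both: otherwise (1) at `q2` gives `a1 ~ a3`.  The situation is symmetric under
    `1 ↔ 3`, so prove an auxiliary lemma with the extra hypotheses `q2 ≁ a1` (and `q2 ~ a3`, not needed) and apply it twice:
    from `q2 ≁ a1`:  if `o a1 < o a2` then `Good a2` gives `a1 = q2` (depth) or `q2 ~ a1`, false; so `o a2 < o a1` and `Good a1`
    gives `a2 = q1` (depth, false) or `q1 ~ a2`.  `q1 ≁ a3`: otherwise (1) at `q1` (which is adjacent to `a1` and `a3`) gives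
    `a1 ~ a3`.  Claw at `a2` with leaves `q1, a3, v`: `q1 ~ a3` no, `q1 ~ v` no (depths `ℓ-1`, `ℓ+1`), so `a3 ~ v`.
    Claw at `a2` with leaves `q2, a1, v`: `q2 ~ a1` no, `q2 ~ v` no (depths), so `a1 ~ v`.
    Claw at `v` with leaves `a1, a3, w`: `a1 ~ a3` no, `a1 ~ w`, `a3 ~ w` no (depths `ℓ`, `ℓ+2`).  Contradiction.
    All distinctness side conditions follow from depths (or `a1 ≠ a3`).
(3) `row_card`.  If `M = ∅` trivial.  Case `4 ≤ k`: `P := M.image (hd ∘ hd)`.  Every `p ∈ P` is `hd (hd m)`, `m ∈ M`, is good and has depth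
    `k - 2 ≥ 2`.  `P` is connected: for `m, m' ∈ M`, by `rch_induct` on `Rch G M m m'`: `Rch G P (hd (hd m)) (hd (hd x))` for every `x`
    on the walk (`hd_near` twice: an edge of `M` is mapped to an equality or an edge of `P`).  No induced path `a1 ~ a2 ~ a3` in `P`:
    with `a2 = hd (hd m)` apply (2) with `v := hd m` (depth `k - 1`, adjacent to `a2`), `w := m`.  Hence any two distinct elements of
    `P` are adjacent: fix `p ∈ P`; along a walk in `P` from `p` every vertex `x` satisfies `x = p ∨ p ~ x` (step `x ~ y`: if `x = p`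
    clear; if `y = p` clear; otherwise `p ~ x ~ y`, `p ≠ y`, so `p ~ y` as there is no induced path).  So `P ⊆ cN G {p}` and
    `|P| ≤ d + 1` (`cN_card`).  Finally every `m ∈ M` is a neighbour of `hd m`, which is a neighbour of `hd (hd m) ∈ P`:
    `M ⊆ (P.biUnion (nb G)).biUnion (nb G)`, so `|M| ≤ |P| * d * d` (`Finset.card_biUnion_le_card_mul`).
    Case `k ≤ 3`: all `m ∈ M` have the same root `anc 0 m = anc 0 m0 =: ρ` (`m0 ∈ M` fixed): along walks in `M`, `anc_near` with `k := 0`
    gives equal or adjacent, both are roots (`dep_anc`, `dep_eq_zero`), adjacent roots are impossible (as in `root_unique`;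
    or apply `root_unique` to the walk consisting of the single edge: roots are good by `good_root`).  For `k = 0`: `m = anc 0 m = ρ`,
    `|M| ≤ 1`.  For `k = 1`: `M ⊆ nb G ρ`; `k = 2`: `M ⊆ (nb G ρ).biUnion (nb G)`; `k = 3`: three steps.  In all cases
    `|M| ≤ d ^ k ≤ d ^ 3 ≤ d ^ 2 * (d + 1)`.  (One can do this uniformly: by induction on `k`, `{m | good, dep m = k, anc 0 m = ρ}` is
    contained in the `k`-th iterate of `M ↦ M.biUnion (nb G)` on `{ρ}`, whose size is at most `d ^ k`.)
-/

set_option autoImplicit false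
set_option linter.all false

namespace Pool.Agent.H67.CF

open Classical

noncomputable section

variable {V : Type*} {G : SimpleGraph V} {o : V ↪ ℕ} {u v : V}

theorem child_clique (hc : ClawFree G) {a x y : V} (ha : Good G o a) (ha1 : 1 ≤ dep G o a)
    (hx : Good G o x) (hy : Good G o y) (hax : G.Adj a x) (hay : G.Adj a y)
    (dx : dep G o x = dep G o a + 1) (dy : dep G o y = dep G o a + 1) (hxy : x ≠ y) :
    G.Adj x y := by
  have hq := dep_hd (G := G) (o := o) (v := a) ha1
  have haq : G.Adj a (hd G o a) := hd_adj (hd_ne ha1)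
  have hgq : Good G o (hd G o a) := good_hd hc a
  have h1 : hd G o a ≠ x := by
    intro h
    rw [h] at hq
    omega
  have h2 : hd G o a ≠ y := by
    intro h
    rw [h] at hq
    omega
  rcases hc a _ x y haq hax hay h1 h2 hxy with h | h | h
  · have := dep_near hc hgq hx h
    omega
  · have := dep_near hc hgq hy h
    omega
  · exact h

theorem Ob_P3 (hc : ClawFree G) {ℓ : ℕ} (hl : 2 ≤ ℓ) {a1 a2 a3 v w : V}
    (h1 : Good G o a1) (h2 : Good G o a2) (h3 : Good G o a3) (hv : Good G o v) (hw : Good G o w)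
    (d1 : dep G o a1 = ℓ) (d2 : dep G o a2 = ℓ) (d3 : dep G o a3 = ℓ) (dv : dep G o v = ℓ + 1)
    (dw : dep G o w = ℓ + 2) (h12 : G.Adj a1 a2) (h23 : G.Adj a2 a3) (h13 : a1 ≠ a3)
    (hn : ¬ G.Adj a1 a3) (hva : G.Adj a2 v) (hwv : G.Adj v w)
    (hq : ¬ G.Adj (hd G o a2) a1) : False := by
  have dq1 := dep_hd (G := G) (o := o) (v := a1) (by omega)
  have dq2 := dep_hd (G := G) (o := o) (v := a2) (by omega)
  have gq1 : Good G o (hd G o a1) := good_hd hc a1
  have gq2 : Good G o (hd G o a2) := good_hd hc a2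
  have aq1 : G.Adj a1 (hd G o a1) := hd_adj (hd_ne (by omega))
  have aq2 : G.Adj a2 (hd G o a2) := hd_adj (hd_ne (by omega))
  have dne : ∀ {s t : V}, dep G o s ≠ dep G o t → s ≠ t := fun h h' => h (by rw [h'])
  have hlt : o a2 < o a1 := by
    rcases lt_trichotomy (o a1) (o a2) with h | h | h
    · exfalso
      rcases h2 a1 h12.symm h with h' | h'
      · exact dne (by omega) h'
      · exact hq h'
    · exact absurd (o.injective h) (G.ne_of_adj h12)
    · exact h
  have hq12 : G.Adj (hd G o a1) a2 := by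
    rcases h1 a2 h12 hlt with h' | h'
    · exact absurd h' (dne (by omega))
    · exact h'
  have hq13 : ¬ G.Adj (hd G o a1) a3 := by
    intro h
    exact hn (child_clique hc gq1 (by omega) h1 h3 aq1.symm h (by omega) (by omega) h13)
  have h3v : G.Adj a3 v := by
    rcases hc a2 (hd G o a1) a3 v hq12.symm h23 hva (dne (by omega)) (dne (by omega))
      (dne (by omega)) with h | h | h
    · exact absurd h hq13
    · exfalso
      have := dep_near hc gq1 hv h
      omega
    · exact h
  have h1v : G.Adj a1 v := by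
    rcases hc a2 (hd G o a2) a1 v aq2 h12.symm hva (dne (by omega)) (dne (by omega))
      (dne (by omega)) with h | h | h
    · exact absurd h hq
    · exfalso
      have := dep_near hc gq2 hv h
      omega
    · exact h
  rcases hc v a1 a3 w h1v.symm h3v.symm hwv h13 (dne (by omega)) (dne (by omega)) with h | h | h
  · exact hn h
  · have := dep_near hc h1 hw h
    omega
  · have := dep_near hc h3 hw h
    omega

theorem no_P3 (hc : ClawFree G) {ℓ : ℕ} (hl : 2 ≤ ℓ) {a1 a2 a3 v w : V}
    (h1 : Good G o a1) (h2 : Good G o a2) (h3 : Good G o a3) (hv : Good G o v) (hw : Good G o w)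
    (d1 : dep G o a1 = ℓ) (d2 : dep G o a2 = ℓ) (d3 : dep G o a3 = ℓ) (dv : dep G o v = ℓ + 1)
    (dw : dep G o w = ℓ + 2) (h12 : G.Adj a1 a2) (h23 : G.Adj a2 a3) (h13 : a1 ≠ a3)
    (hn : ¬ G.Adj a1 a3) (hva : G.Adj a2 v) (hwv : G.Adj v w) : False := by
  by_cases hq1 : G.Adj (hd G o a2) a1
  · by_cases hq3 : G.Adj (hd G o a2) a3
    · have dq2 := dep_hd (G := G) (o := o) (v := a2) (by omega)
      exact hn (child_clique hc (good_hd hc a2) (by omega) h1 h3 hq1 hq3 (by omega) (by omega) h13)
    · exact Ob_P3 hc hl h3 h2 h1 hv hw d3 d2 d1 dv dw h23.symm h12.symm h13.symm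
        (fun h => hn h.symm) hva hwv hq3
  · exact Ob_P3 hc hl h1 h2 h3 hv hw d1 d2 d3 dv dw h12 h23 h13 hn hva hwv hq1

theorem Ob_count [Fintype V] {d : ℕ} (hdeg : ∀ v, (nb G v).card ≤ d) (ρ : V) (k : ℕ) :
    (Finset.univ.filter (fun m => dep G o m = k ∧ anc G o 0 m = ρ)).card ≤ d ^ k := by
  induction k with
  | zero =>
    rw [pow_zero]
    have h1 : Finset.univ.filter (fun m => dep G o m = 0 ∧ anc G o 0 m = ρ) ⊆ {ρ} := by
      intro m hm
      rw [Finset.mem_filter] at hm
      rw [Finset.mem_singleton, ← hm.2.2, anc_self hm.2.1]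
    exact (Finset.card_le_card h1).trans (by simp)
  | succ k ih =>
    have h1 : Finset.univ.filter (fun m => dep G o m = k + 1 ∧ anc G o 0 m = ρ) ⊆
        (Finset.univ.filter (fun m => dep G o m = k ∧ anc G o 0 m = ρ)).biUnion (nb G) := by
      intro m hm
      rw [Finset.mem_filter] at hm
      obtain ⟨-, hm1, hm2⟩ := hm
      rw [Finset.mem_biUnion]
      have h2 := dep_hd (G := G) (o := o) (v := m) (by omega)
      refine ⟨hd G o m, ?_, ?_⟩
      · rw [Finset.mem_filter]
        refine ⟨Finset.mem_univ _, by omega, ?_⟩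
        rw [anc_hd (by omega), hm2]
      · rw [mem_nb]
        exact (hd_adj (hd_ne (by omega))).symm
    calc _ ≤ _ := Finset.card_le_card h1
      _ ≤ (Finset.univ.filter (fun m => dep G o m = k ∧ anc G o 0 m = ρ)).card * d :=
          Finset.card_biUnion_le_card_mul _ _ _ (fun v _ => hdeg v)
      _ ≤ d ^ k * d := Nat.mul_le_mul_right _ ih
      _ = d ^ (k + 1) := (pow_succ d k).symm

theorem row_card [Fintype V] (hc : ClawFree G) {d : ℕ} (hd1 : 1 ≤ d)
    (hdeg : ∀ v, (nb G v).card ≤ d) {k : ℕ} (M : Finset V)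
    (hM : ∀ v ∈ M, Good G o v ∧ dep G o v = k) (hconn : PConn G (M : Set V)) :
    M.card ≤ d ^ 2 * (d + 1) := by
  rcases M.eq_empty_or_nonempty with rfl | ⟨m0, hm0⟩
  · simp
  by_cases hk : 4 ≤ k
  · obtain ⟨P, hP⟩ : ∃ P : Finset V, P = M.image (fun m => hd G o (hd G o m)) := ⟨_, rfl⟩
    have hPm : ∀ m ∈ M, hd G o (hd G o m) ∈ P := by
      intro m hm
      rw [hP]
      exact Finset.mem_image_of_mem _ hm
    have hdep : ∀ m ∈ M, dep G o (hd G o m) + 1 = k ∧ dep G o (hd G o (hd G o m)) + 2 = k := by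
      intro m hm
      have h1 := (hM m hm).2
      have h2 := dep_hd (G := G) (o := o) (v := m) (by omega)
      have h3 := dep_hd (G := G) (o := o) (v := hd G o m) (by omega)
      omega
    have hPg : ∀ p ∈ P, Good G o p ∧ dep G o p + 2 = k ∧ ∃ m ∈ M, hd G o (hd G o m) = p := by
      intro p hp
      rw [hP, Finset.mem_image] at hp
      obtain ⟨m, hm, rfl⟩ := hp
      exact ⟨good_hd hc _, (hdep m hm).2, m, hm, rfl⟩
    have hPconn : ∀ m ∈ M, ∀ m' ∈ M, Rch G (P : Set V) (hd G o (hd G o m))
        (hd G o (hd G o m')) := by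
      intro m hm m' hm'
      have h0 : m' ∈ M ∧ Rch G (P : Set V) (hd G o (hd G o m)) (hd G o (hd G o m')) := by
        refine rch_induct (P := fun x => x ∈ M ∧ Rch G (P : Set V) (hd G o (hd G o m))
          (hd G o (hd G o x))) (hconn m hm m' hm') ⟨hm, rch_refl⟩ ?_
        rintro x y ⟨hx, hr⟩ - hxy hy
        have hy' : y ∈ M := hy
        refine ⟨hy', ?_⟩
        have h1 := hd_near hc (hM x hx).1 (hM y hy').1 (Or.inr hxy)
        rcases hd_near hc (good_hd hc x) (good_hd hc y) h1 with h2 | h2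
        · rw [← h2]
          exact hr
        · exact rch_tail hr h2 (hPm y hy')
      exact h0.2
    have htr : ∀ a1 ∈ P, ∀ a2 ∈ P, ∀ a3 ∈ P, G.Adj a1 a2 → G.Adj a2 a3 → a1 ≠ a3 →
        G.Adj a1 a3 := by
      intro a1 h1 a2 h2 a3 h3 h12 h23 h13
      by_contra hn
      obtain ⟨g1, e1, -⟩ := hPg a1 h1
      obtain ⟨g2, e2, m, hm, hm2⟩ := hPg a2 h2
      obtain ⟨g3, e3, -⟩ := hPg a3 h3
      have e4 := (hdep m hm).1
      have e5 := (hM m hm).2
      refine no_P3 hc (ℓ := k - 2) (by omega) g1 g2 g3 (good_hd hc m) (hM m hm).1 (by omega)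
        (by omega) (by omega) (by omega) (by omega) h12 h23 h13 hn ?_ ?_
      · rw [← hm2]
        exact (hd_adj (hd_ne (by omega))).symm
      · exact (hd_adj (hd_ne (by omega))).symm
    obtain ⟨p, hp⟩ : ∃ p, p = hd G o (hd G o m0) := ⟨_, rfl⟩
    have hpP : p ∈ P := by
      rw [hp]
      exact hPm m0 hm0
    have hall : ∀ x ∈ P, x = p ∨ G.Adj p x := by
      intro x hx
      obtain ⟨-, -, m, hm, rfl⟩ := hPg x hx
      have hr := hPconn m0 hm0 m hm
      rw [← hp] at hr
      refine rch_induct (P := fun z => z = p ∨ G.Adj p z) hr (Or.inl rfl) ?_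
      intro s t hs hrs hst ht
      have hsP : s ∈ P := rch_mem' (X := (P : Set V)) hpP hrs
      have htP : t ∈ P := ht
      by_cases htp : t = p
      · exact Or.inl htp
      · right
        rcases hs with rfl | hs
        · exact hst
        · exact htr p hpP s hsP t htP hs hst (fun h => htp h.symm)
    have hPc : P.card ≤ d + 1 := by
      have h1 : P ⊆ cN G {p} := by
        intro x hx
        rw [mem_cN]
        rcases hall x hx with h | h
        · exact Or.inl (by rw [h]; exact Finset.mem_singleton_self p)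
        · exact Or.inr ⟨p, Finset.mem_singleton_self p, h⟩
      have h2 := (Finset.card_le_card h1).trans (cN_card hdeg {p})
      rwa [Finset.card_singleton, mul_one] at h2
    have hMs : M ⊆ (P.biUnion (nb G)).biUnion (nb G) := by
      intro m hm
      have e4 := (hdep m hm).1
      have e5 := (hM m hm).2
      rw [Finset.mem_biUnion]
      refine ⟨hd G o m, ?_, ?_⟩
      · rw [Finset.mem_biUnion]
        refine ⟨_, hPm m hm, ?_⟩
        rw [mem_nb]
        exact (hd_adj (hd_ne (by omega))).symm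
      · rw [mem_nb]
        exact (hd_adj (hd_ne (by omega))).symm
    calc M.card ≤ _ := Finset.card_le_card hMs
      _ ≤ (P.biUnion (nb G)).card * d :=
          Finset.card_biUnion_le_card_mul _ _ _ (fun v _ => hdeg v)
      _ ≤ (P.card * d) * d := Nat.mul_le_mul_right _
          (Finset.card_biUnion_le_card_mul _ _ _ (fun v _ => hdeg v))
      _ ≤ ((d + 1) * d) * d := Nat.mul_le_mul_right _ (Nat.mul_le_mul_right _ hPc)
      _ = d ^ 2 * (d + 1) := by ring
  · have hroot : ∀ x, hd G o (anc G o 0 x) = anc G o 0 x := fun x =>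
      dep_eq_zero.1 (dep_anc (Nat.zero_le _))
    have hanc : ∀ m ∈ M, anc G o 0 m = anc G o 0 m0 := by
      intro m hm
      have h0 : m ∈ M ∧ anc G o 0 m = anc G o 0 m0 := by
        refine rch_induct (P := fun x => x ∈ M ∧ anc G o 0 x = anc G o 0 m0)
          (hconn m0 hm0 m hm) ⟨hm0, rfl⟩ ?_
        rintro x y ⟨hx, hr⟩ - hxy hy
        have hy' : y ∈ M := hy
        refine ⟨hy', ?_⟩
        rcases anc_near hc (hM x hx).1 (hM y hy').1 (Or.inr hxy) (Nat.zero_le _)
          (Nat.zero_le _) with h2 | h2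
        · rw [← h2, hr]
        · have h3 := root_unique hc (hroot x) (hroot y)
            (rch_adj h2 (good_anc hc (hM y hy').1 0))
          rw [← h3, hr]
      exact h0.2
    have hMs : M ⊆ Finset.univ.filter (fun m => dep G o m = k ∧ anc G o 0 m = anc G o 0 m0) := by
      intro m hm
      rw [Finset.mem_filter]
      exact ⟨Finset.mem_univ _, (hM m hm).2, hanc m hm⟩
    calc M.card ≤ _ := Finset.card_le_card hMs
      _ ≤ d ^ k := Ob_count hdeg _ k
      _ ≤ d ^ 3 := Nat.pow_le_pow_right hd1 (by omega)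
      _ = d ^ 2 * d := pow_succ d 2
      _ ≤ d ^ 2 * (d + 1) := Nat.mul_le_mul_left _ (Nat.le_succ d)

end

end Pool.Agent.H67.CF
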